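import Mathlib
import Pool.Agent.H49.Perc.KArms
import Pool.Agent.H75.Four.Piv

set_option autoImplicit false
open Finset

/-! Counting: many points with pairwise disconnected open arms are exponentially unlikely, hence the
expected number of such points is bounded (all domains, `p = 1/2`). -/

namespace Pool.Agent.H60.Q1

open Pool.Agent.H75.Perc Pool.Agent.H75.TwoArm Pool.Agent.H75.Four Pool.Agent.H49.Perc

open Classical in
/-- the expected number of occurrences from the tail of the number of occurrences -/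
theorem sum_Pr_le {ι α : Type*} [DecidableEq α] (T : Finset ι) (E : Finset α)
    (A : ι → Finset α → Prop) {r : ℝ} (h0 : 0 ≤ r) (h1 : r < 1)
    (h : ∀ k : ℕ, Pr E (fun ω => ∃ t, t ⊆ T ∧ t.card = k ∧ ∀ x ∈ t, A x ω) ≤ r ^ k) :
    ∑ x ∈ T, Pr E (A x) ≤ r / (1 - r) := by
  have hpos : (0 : ℝ) < 2 ^ E.card := by positivity
  have e1 : ∑ x ∈ T, (E.powerset.filter (A x)).card =
      ∑ ω ∈ E.powerset, (T.filter (fun x => A x ω)).card := by
    simp only [card_filter]
    exact sum_comm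
  have e2 : ∀ ω, (T.filter (fun x => A x ω)).card =
      ∑ k ∈ range T.card, if k + 1 ≤ (T.filter (fun x => A x ω)).card then 1 else 0 := by
    intro ω
    have h2 : (T.filter (fun x => A x ω)).card ≤ T.card := card_filter_le _ _
    rw [← card_filter]
    have h3 : (range T.card).filter (fun k => k + 1 ≤ (T.filter (fun x => A x ω)).card) =
        range (T.filter (fun x => A x ω)).card := by
      ext k
      rw [mem_filter, mem_range, mem_range]
      omega
    rw [h3, card_range]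
  have e3 : ∑ x ∈ T, Pr E (A x) = ∑ k ∈ range T.card,
      Pr E (fun ω => k + 1 ≤ (T.filter (fun x => A x ω)).card) := by
    have h4 : ∑ x ∈ T, Pr E (A x) =
        ((∑ x ∈ T, (E.powerset.filter (A x)).card : ℕ) : ℝ) / 2 ^ E.card := by
      rw [Nat.cast_sum, sum_div]
      exact sum_congr rfl fun x _ => Pr_eq E (A x)
    rw [h4, e1]
    have h5 : ∑ ω ∈ E.powerset, (T.filter (fun x => A x ω)).card =
        ∑ k ∈ range T.card,
          (E.powerset.filter (fun ω => k + 1 ≤ (T.filter (fun x => A x ω)).card)).card := by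
      rw [sum_congr rfl fun ω _ => e2 ω, sum_comm]
      exact sum_congr rfl fun k _ => (card_filter _ _).symm
    rw [h5, Nat.cast_sum, sum_div]
    exact sum_congr rfl fun k _ => (Pr_eq E _).symm
  rw [e3]
  have h6 : ∀ k ∈ range T.card, Pr E (fun ω => k + 1 ≤ (T.filter (fun x => A x ω)).card) ≤
      r ^ (k + 1) := by
    intro k _
    refine le_trans (Pr_mono fun ω _ h7 => ?_) (h (k + 1))
    obtain ⟨t, ht1, ht2⟩ := exists_subset_card_eq h7
    exact ⟨t, ht1.trans (filter_subset _ _), ht2, fun x hx => (mem_filter.1 (ht1 hx)).2⟩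
  refine (sum_le_sum h6).trans ?_
  have h8 : ∑ k ∈ range T.card, r ^ (k + 1) = r * ∑ k ∈ range T.card, r ^ k := by
    rw [mul_sum]
    exact sum_congr rfl fun k _ => by ring
  have h9 := mul_neg_geom_sum r T.card
  have h10 : (0 : ℝ) < 1 - r := by linarith
  rw [h8, le_div_iff₀ h10]
  have h11 : (0 : ℝ) ≤ r ^ T.card := pow_nonneg h0 _
  calc (r * ∑ k ∈ range T.card, r ^ k) * (1 - r) = r * ((1 - r) * ∑ k ∈ range T.card, r ^ k) := by
        ring
    _ = r * (1 - r ^ T.card) := by rw [h9]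
    _ ≤ r * 1 := mul_le_mul_of_nonneg_left (by linarith) h0
    _ = r := mul_one r

open Classical in
/-- the labels of `ω` in the component of `x` -/
noncomputable def cmp (ω : Finset (ℤ × ℤ)) (x : ℤ × ℤ) : Finset (ℤ × ℤ) :=
  ω.filter (fun l => Co ω x (eu l))

lemma eu_add {y z : ℤ × ℤ} (h : IsUnit4 (z - y)) : eu (y + z) = y ∨ eu (y + z) = z := by
  have h1 := unit_cases h
  unfold eu
  simp only [Prod.ext_iff, Prod.fst_add, Prod.snd_add]
  omega

lemma cmp_co {ω : Finset (ℤ × ℤ)} {x u : ℤ × ℤ} (h : Co ω x u) : Co (cmp ω x) x u := by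
  classical
  induction h with
  | refl => exact Co.refl _ _
  | @tail y z hab hbc ih =>
    refine ih.tail ⟨hbc.1, ?_⟩
    unfold cmp
    rw [mem_filter]
    refine ⟨hbc.2, ?_⟩
    rcases eu_add hbc.1 with h1 | h1 <;> rw [h1]
    · exact hab
    · exact hab.tail hbc

lemma cmp_disj {ω : Finset (ℤ × ℤ)} {x y : ℤ × ℤ} (h : ¬ Co ω x y) :
    Disjoint (cmp ω x) (cmp ω y) := by
  classical
  rw [disjoint_left]
  intro l h1 h2
  unfold cmp at h1 h2
  rw [mem_filter] at h1 h2
  exact h (h1.2.trans h2.2.symm)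

lemma cmp_sub (ω : Finset (ℤ × ℤ)) (x : ℤ × ℤ) : cmp ω x ⊆ ω := by
  classical
  unfold cmp
  exact filter_subset _ _

/-- Points of a ball which have open arms to four times the distance inside a fixed window `Λ` and
which are pairwise not connected in `Λ`: their expected number is bounded, in every domain. -/
theorem count_le : ∃ C : ℝ, 0 < C ∧ ∀ (ι : Type) (E Λ : Finset (ℤ × ℤ)),
    (∀ e ∈ E, (e.1 + e.2) % 2 = 1) → ∀ (o : ℤ × ℤ) (ρ : ℤ), 1 ≤ ρ → ∀ (T : Finset ι)
    (pos : ι → ℤ × ℤ) (A : ι → Finset (ℤ × ℤ) → Prop),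
    (∀ x ∈ T, |(pos x).1 - o.1| ≤ ρ ∧ |(pos x).2 - o.2| ≤ ρ) →
    (∀ ω, ω ⊆ E → ∀ x ∈ T, A x ω → ∃ v : ℤ × ℤ, (4 * ρ ≤ |v.1 - o.1| ∨ 4 * ρ ≤ |v.2 - o.2|) ∧
      Co (ω ∩ Λ) (pos x) v) →
    (∀ ω, ω ⊆ E → ∀ x ∈ T, ∀ y ∈ T, x ≠ y → A x ω → A y ω → ¬ Co (ω ∩ Λ) (pos x) (pos y)) →
    ∑ x ∈ T, Pr E (A x) ≤ C := by
  classical
  obtain ⟨δ, hδ0, hδ1, hk⟩ := k_arms
  refine ⟨(1 - δ) / δ, by apply div_pos <;> linarith, ?_⟩
  intro ι E Λ hE o ρ hρ T pos A hpos hfar hsep
  have h := sum_Pr_le T E A (r := 1 - δ) (by linarith) (by linarith) ?_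
  · rwa [show (1 : ℝ) - (1 - δ) = δ by ring] at h
  intro k
  have h2 := hk E hE o ρ hρ 1 k
  rw [one_mul] at h2
  refine le_trans (Pr_mono fun ω hω h3 => ?_) h2
  obtain ⟨t, ht1, ht2, ht3⟩ := h3
  set e := (t.equivFinOfCardEq ht2).symm with he
  refine ⟨fun i => cmp (ω ∩ Λ) (pos (e i)), fun i => (cmp_sub _ _).trans inter_subset_left, ?_, ?_⟩
  · intro i j hij
    have hi := (e i).2
    have hj := (e j).2
    have hne : ((e i : t) : ι) ≠ (e j : t) := fun h => hij (e.injective (Subtype.ext h))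
    exact cmp_disj (hsep ω hω _ (ht1 hi) _ (ht1 hj) hne (ht3 _ hi) (ht3 _ hj))
  · intro i
    have hi := (e i).2
    obtain ⟨v, hv1, hv2⟩ := hfar ω hω _ (ht1 hi) (ht3 _ hi)
    have hp := hpos _ (ht1 hi)
    exact ⟨_, v, hp.1, hp.2, by rw [pow_one]; exact hv1, cmp_co hv2⟩

end Pool.Agent.H60.Q1
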