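import Mathlib
import Pool.Agent.H75.Four.Piv

set_option autoImplicit false
open Finset

/-! Closed dual paths from the outside of a box to the outside of the box separate: parity proofs. -/

namespace Pool.Agent.H60.Q1

open Pool.Agent.H75.Perc Pool.Agent.H75.TwoArm Pool.Agent.H75.Four Pool.Agent.H75.Four.PivAux

/-- the face `f` is outside the box -/
def Out (a b c d : ℤ) (f : ℤ × ℤ) : Prop := f.1 ≤ a ∨ b + 1 ≤ f.1 ∨ f.2 ≤ c ∨ d + 1 ≤ f.2

/-- the labels of the box above the row `r` -/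
noncomputable def BP (a b c d r : ℤ) : Finset (ℤ × ℤ) :=
  (Bx a b c d).filter (fun l => 2 * r + 1 ≤ l.2)

lemma mem_BP {a b c d r : ℤ} {l : ℤ × ℤ} : l ∈ BP a b c d r ↔ l ∈ Bx a b c d ∧ 2 * r + 1 ≤ l.2 := by
  unfold BP; rw [mem_filter]

lemma const_int {α : Type*} (g : ℤ → α) (h : ∀ i, g i = g (i + 1)) (i j : ℤ) : g i = g j := by
  have key : ∀ (m : ℕ) (i : ℤ), g i = g (i + m) := by
    intro m
    induction m with
    | zero => intro i; simp
    | succ m ih => intro i; rw [ih i, h]; congr 1; push_cast; ring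
  rcases le_total i j with h1 | h1
  · have := key (j - i).toNat i
    rw [Int.toNat_of_nonneg (by omega)] at this
    rwa [show i + (j - i) = j by ring] at this
  · have := key (i - j).toNat j
    rw [Int.toNat_of_nonneg (by omega)] at this
    rw [show j + (i - j) = i by ring] at this
    exact this.symm

/-- the face colouring of a set of edges of the box is constant outside the box -/
lemma out_const {a b c d : ℤ} {n S : ℤ × ℤ → ZMod 2} (hn : ∀ l, n l ≠ 0 → l ∈ Bx a b c d)
    (hS : ∀ f g : ℤ × ℤ, IsUnit4 (g - f) → S f + S g = n (f + g - (1, 1))) {f g : ℤ × ℤ}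
    (hf : Out a b c d f) (hg : Out a b c d g) : S f = S g := by
  have hz : ∀ x y : ZMod 2, x + y = 0 → x = y := by decide
  have hH : ∀ i j : ℤ, (j ≤ c ∨ d + 1 ≤ j) → S (i, j) = S (i + 1, j) := by
    intro i j h
    apply hz
    rw [hS _ _ (by unfold IsUnit4; simp [Prod.ext_iff])]
    by_contra h1
    have := mem_Bx.1 (hn _ h1)
    simp only [Prod.mk_add_mk, Prod.mk_sub_mk] at this
    omega
  have hV : ∀ i j : ℤ, (i ≤ a ∨ b + 1 ≤ i) → S (i, j) = S (i, j + 1) := by
    intro i j h
    apply hz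
    rw [hS _ _ (by unfold IsUnit4; simp [Prod.ext_iff])]
    by_contra h1
    have := mem_Bx.1 (hn _ h1)
    simp only [Prod.mk_add_mk, Prod.mk_sub_mk] at this
    omega
  have hH' : ∀ i i' j : ℤ, (j ≤ c ∨ d + 1 ≤ j) → S (i, j) = S (i', j) := fun i i' j h =>
    const_int (fun i => S (i, j)) (fun i => hH i j h) i i'
  have hV' : ∀ i j j' : ℤ, (i ≤ a ∨ b + 1 ≤ i) → S (i, j) = S (i, j') := fun i j j' h =>
    const_int (fun j => S (i, j)) (fun j => hV i j h) j j'
  have base : ∀ f, Out a b c d f → S f = S (a, c) := by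
    rintro ⟨i, j⟩ h
    unfold Out at h
    simp only at h
    by_cases h1 : i ≤ a ∨ b + 1 ≤ i
    · rw [hV' i j c h1, hH' i a c (Or.inl le_rfl)]
    · rw [hH' i a j (by tauto), hV' a j c (Or.inl le_rfl)]
  rw [base f hf, base g hg]

/-- an even set of edges inside a box that avoids a closed dual path -/
lemma colour_path {E ω : Finset (ℤ × ℤ)} {n S : ℤ × ℤ → ZMod 2}
    (hS : ∀ f g : ℤ × ℤ, IsUnit4 (g - f) → S f + S g = n (f + g - (1, 1)))
    (hn : ∀ l ∈ E, l ∉ ω → n l = 0) {f g : ℤ × ℤ} (h : Co (du E ω) f g) : S f = S g := by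
  have hz : ∀ x y : ZMod 2, x + y = 0 → x = y := by decide
  induction h with
  | refl => rfl
  | @tail x y _ hxy ih =>
    rw [ih]
    apply hz
    rw [hS x y hxy.1]
    have h4 := hxy.2
    unfold du at h4
    rw [mem_map] at h4
    obtain ⟨l, hl, hlxy⟩ := h4
    have h5 : x + y - (1, 1) = l := by
      rw [← hlxy]
      refine Prod.ext ?_ ?_ <;> simp [sh1]
    rw [h5]
    rw [mem_sdiff] at hl
    exact hn l hl.1 hl.2

/-- the labels used by a connection of the box and a second connection of the box form an even set;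
its face colouring -/
lemma two_paths {a b c d : ℤ} {ω R : Finset (ℤ × ℤ)} {u v : ℤ × ℤ}
    (h : Co (ω ∩ Bx a b c d) u v) (hR : R ⊆ Bx a b c d) (h' : Co R u v) :
    ∃ n m S : ℤ × ℤ → ZMod 2, (∀ l, n l ≠ 0 → l ∈ ω ∩ Bx a b c d) ∧ (∀ l, m l ≠ 0 → l ∈ R) ∧
      (∀ w, dg m w = id1 u w + id1 v w) ∧
      (∀ f g : ℤ × ℤ, IsUnit4 (g - f) → S f + S g = n (f + g - (1, 1)) + m (f + g - (1, 1))) ∧
      ∀ f g : ℤ × ℤ, Out a b c d f → Out a b c d g → S f = S g := by
  obtain ⟨n, hn1, hn2⟩ := co_cycle h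
  obtain ⟨m, hm1, hm2⟩ := co_cycle h'
  have hB : ∀ l, n l + m l ≠ 0 → l ∈ Bx a b c d := by
    intro l hl
    by_cases h0 : n l = 0
    · rw [h0, zero_add] at hl
      exact hR (hm1 l hl)
    · exact (mem_inter.1 (hn1 l h0)).2
  have hfin : {l : ℤ × ℤ | n l + m l ≠ 0}.Finite :=
    (Bx a b c d).finite_toSet.subset fun l hl => hB l hl
  have hdeg : ∀ w, dg (fun l => n l + m l) w = 0 := by
    intro w
    rw [dg_add, hn2, hm2]
    exact zmod2_add_self _
  obtain ⟨S, hS⟩ := even_faces (fun l => n l + m l) hfin hdeg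
  exact ⟨n, m, S, hn1, hm1, hm2, hS, fun f g hf hg => out_const hB hS hf hg⟩

/-- A closed dual path from a boundary face between the bottom points `x < y` to the outside of the
box separates `x` and `y`. -/
theorem sep_row {a b c d : ℤ} {ω : Finset (ℤ × ℤ)} {x y s : ℤ} (hx : a ≤ x) (hxs : x < s)
    (hsy : s ≤ y) (hy : y ≤ b) (hcd : c ≤ d) (hl : ((2 * s - 1, 2 * c) : ℤ × ℤ) ∉ ω) {g : ℤ × ℤ}
    (hg : Out a b c d g) (hd : Co (du (BP a b c d c) ω) (s, c + 1) g) :
    ¬ Co (ω ∩ Bx a b c d) (x, c) (y, c) := by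
  intro hco
  set R : Finset (ℤ × ℤ) := (Icc x (y - 1)).image (fun t : ℤ => ((2 * t + 1, 2 * c) : ℤ × ℤ)) with hR
  have hmR : ∀ l, l ∈ R ↔ (2 * x ≤ l.1 ∧ l.1 ≤ 2 * y) ∧ l.1 % 2 = 1 ∧ l.2 = 2 * c := by
    intro l
    rw [hR, mem_image]
    constructor
    · rintro ⟨t, ht, rfl⟩
      rw [mem_Icc] at ht
      refine ⟨⟨?_, ?_⟩, ?_, ?_⟩ <;> simp only <;> omega
    · intro h
      refine ⟨(l.1 - 1) / 2, ?_, ?_⟩
      · rw [mem_Icc]; omega
      · refine Prod.ext ?_ ?_ <;> simp only <;> omega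
  have hRB : R ⊆ Bx a b c d := by
    intro l h
    rw [hmR] at h
    rw [mem_Bx]
    omega
  have hRco : ∀ m : ℕ, x + m ≤ y → Co R (x, c) (x + m, c) := by
    intro m
    induction m with
    | zero => intro _; simpa using Co.refl R (x, c)
    | succ m ih =>
      intro h
      push_cast at h ⊢
      refine (ih (by omega)).tail ⟨?_, ?_⟩
      · unfold IsUnit4
        simp only [Prod.ext_iff, Prod.fst_sub, Prod.snd_sub]
        omega
      · rw [hmR]
        simp only [Prod.mk_add_mk]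
        omega
  have h2 : Co R (x, c) (y, c) := by
    have := hRco (y - x).toNat (by omega)
    rw [Int.toNat_of_nonneg (by omega)] at this
    rwa [show x + (y - x) = y by ring] at this
  obtain ⟨n, m, S, hn, hm, hdm, hS, hout⟩ := two_paths hco hRB h2
  have hn0 : n (2 * s - 1, 2 * c) = 0 := by
    by_contra h; exact hl (mem_inter.1 (hn _ h)).1
  have hz : ∀ x y : ZMod 2, x + y = 0 → x = y := by decide
  have hm0 : ∀ l : ℤ × ℤ, l.2 ≠ 2 * c → m l = 0 := fun l hl => by
    by_contra h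
    exact hl ((hmR _).1 (hm _ h)).2.2
  have hmk : ∀ k : ℕ, x + k + 1 ≤ y → m (2 * (x + k) + 1, 2 * c) = 1 := by
    intro k
    induction k with
    | zero =>
      intro _
      have h3 := hdm (x, c)
      unfold dg at h3
      simp only at h3
      have e1 : m (2 * x - 1, 2 * c) = 0 := by
        by_contra h
        have := (hmR _).1 (hm _ h)
        simp only at this
        omega
      rw [e1, hm0 (2 * x, 2 * c + 1) (by simp), hm0 (2 * x, 2 * c - 1) (by simp)] at h3
      have e4 : id1 (x, c) (x, c) = 1 := by simp [id1]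
      have e5 : id1 (y, c) (x, c) = 0 := by
        unfold id1
        rw [if_neg]
        intro h
        have := congrArg Prod.fst h
        simp only at this
        omega
      rw [e4, e5] at h3
      simpa using h3
    | succ k ih =>
      intro hk
      push_cast at hk ⊢
      have ih := ih (by omega)
      have h3 := hdm (x + k + 1, c)
      unfold dg at h3
      simp only at h3
      rw [hm0 (2 * (x + k + 1), 2 * c + 1) (by simp), hm0 (2 * (x + k + 1), 2 * c - 1) (by simp)]
        at h3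
      have e1 : (2 * (x + k + 1) - 1 : ℤ) = 2 * (x + k) + 1 := by ring
      have e4 : id1 (x, c) (x + k + 1, c) = 0 := by
        unfold id1
        rw [if_neg]
        intro h
        have := congrArg Prod.fst h
        simp only at this
        omega
      have e5 : id1 (y, c) (x + k + 1, c) = 0 := by
        unfold id1
        rw [if_neg]
        intro h
        have := congrArg Prod.fst h
        simp only at this
        omega
      rw [e1, ih, e4, e5] at h3
      rw [show x + ((k : ℤ) + 1) = x + k + 1 by ring]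
      generalize m (2 * (x + k + 1) + 1, 2 * c) = z at h3 ⊢
      revert z
      decide
  have hm1 : m (2 * s - 1, 2 * c) = 1 := by
    have := hmk (s - 1 - x).toNat (by omega)
    rw [Int.toNat_of_nonneg (by omega)] at this
    rwa [show 2 * (x + (s - 1 - x)) + 1 = 2 * s - 1 by ring] at this
  have h3 := hS (s, c) (s, c + 1) (by unfold IsUnit4; simp [Prod.ext_iff])
  have e6 : ((s, c) : ℤ × ℤ) + (s, c + 1) - (1, 1) = (2 * s - 1, 2 * c) := by
    refine Prod.ext ?_ ?_ <;> simp only [Prod.mk_add_mk, Prod.mk_sub_mk] <;> ring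
  rw [e6, hn0, hm1] at h3
  have h4 : S (s, c + 1) = S g := by
    refine colour_path (n := fun l => n l + m l) hS ?_ hd
    intro l hl1 hl2
    rw [mem_BP] at hl1
    have e7 : n l = 0 := by
      by_contra h; exact hl2 (mem_inter.1 (hn _ h)).1
    rw [e7, hm0 l (by omega), add_zero]
  have h5 : S (s, c) = S g := hout _ _ (by unfold Out; simp) hg
  rw [h4, h5, zmod2_add_self] at h3
  revert h3; decide

/-- three closed edges around `w`, and two closed dual paths above the row of `w` from the two faces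
above `w` to the outside of the box separate `w` from all other vertices of its row and below -/
theorem sep_cap {a b c d : ℤ} {ω : Finset (ℤ × ℤ)} {w u : ℤ × ℤ} (hw : inB a b (c + 1) d w)
    (hu : inB a b c d u) (huw : u.2 ≤ w.2) (hne : u ≠ w)
    (h1 : ((2 * w.1 - 1, 2 * w.2) : ℤ × ℤ) ∉ ω) (h2 : ((2 * w.1 + 1, 2 * w.2) : ℤ × ℤ) ∉ ω)
    (h3 : ((2 * w.1, 2 * w.2 - 1) : ℤ × ℤ) ∉ ω) {g g' : ℤ × ℤ}
    (hg : Out a b c d g) (hg' : Out a b c d g')
    (hL : Co (du (BP a b c d w.2) ω) (w.1, w.2 + 1) g)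
    (hR : Co (du (BP a b c d w.2) ω) (w.1 + 1, w.2 + 1) g') :
    ¬ Co (ω ∩ Bx a b c d) w u := by
  intro hco
  unfold inB at hw hu
  set R : Finset (ℤ × ℤ) := (Bx a b c d).filter (fun l => l.2 ≤ 2 * w.2 - 1) with hRdef
  have hmR : ∀ l, l ∈ R ↔ l ∈ Bx a b c d ∧ l.2 ≤ 2 * w.2 - 1 := by
    intro l; rw [hRdef, mem_filter]
  have hRB : R ⊆ Bx a b c d := filter_subset _ _
  -- vertical moves
  have hver : ∀ (i j : ℤ) (m : ℕ), a ≤ i → i ≤ b → c ≤ j → j + m ≤ w.2 → w.2 ≤ d →
      Co R (i, j) (i, j + m) := by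
    intro i j m hi1 hi2 hj
    induction m with
    | zero => intro _ _; simpa using Co.refl R (i, j)
    | succ m ih =>
      intro h h'
      push_cast at h ⊢
      refine (ih (by omega) h').tail ⟨?_, ?_⟩
      · unfold IsUnit4
        simp only [Prod.ext_iff, Prod.fst_sub, Prod.snd_sub]
        omega
      · rw [hmR, mem_Bx]
        simp only [Prod.mk_add_mk]
        omega
  have hhor : ∀ (i j : ℤ) (m : ℕ), a ≤ i → i + m ≤ b → c ≤ j → j ≤ w.2 - 1 →
      Co R (i, j) (i + m, j) := by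
    intro i j m hi1
    induction m with
    | zero => intro _ _ _; simpa using Co.refl R (i, j)
    | succ m ih =>
      intro h hj hj'
      push_cast at h ⊢
      refine (ih (by omega) hj hj').tail ⟨?_, ?_⟩
      · unfold IsUnit4
        simp only [Prod.ext_iff, Prod.fst_sub, Prod.snd_sub]
        omega
      · rw [hmR, mem_Bx]
        simp only [Prod.mk_add_mk]
        omega
  have hdown : ∀ v : ℤ × ℤ, a ≤ v.1 → v.1 ≤ b → c ≤ v.2 → v.2 ≤ w.2 → Co R (v.1, c) v := by
    intro v i1 i2 i3 i4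
    have := hver v.1 c (v.2 - c).toNat i1 i2 le_rfl (by omega) (by omega)
    rw [Int.toNat_of_nonneg (by omega)] at this
    rwa [show c + (v.2 - c) = v.2 by ring] at this
  have hrow : ∀ i j : ℤ, a ≤ i → i ≤ j → j ≤ b → Co R (i, c) (j, c) := by
    intro i j i1 i2 i3
    have := hhor i c (j - i).toNat i1 (by omega) le_rfl (by omega)
    rw [Int.toNat_of_nonneg (by omega)] at this
    rwa [show i + (j - i) = j by ring] at this
  have hwu : Co R w u := by
    refine (hdown w (by omega) (by omega) (by omega) le_rfl).symm.trans ?_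
    refine Co.trans ?_ (hdown u (by omega) (by omega) (by omega) huw)
    rcases le_total w.1 u.1 with h | h
    · exact hrow _ _ (by omega) h (by omega)
    · exact (hrow _ _ (by omega) h (by omega)).symm
  obtain ⟨n, m, S, hn, hm, hdm, hS, hout⟩ := two_paths hco hRB hwu
  have hn0 : ∀ l, l ∉ ω → n l = 0 := fun l hl => by
    by_contra h; exact hl (mem_inter.1 (hn _ h)).1
  have hm0 : ∀ l : ℤ × ℤ, 2 * w.2 ≤ l.2 → m l = 0 := fun l hl => by
    by_contra h
    have := (hmR _).1 (hm _ h)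
    omega
  have hm1 : m (2 * w.1, 2 * w.2 - 1) = 1 := by
    have h3 := hdm w
    unfold dg at h3
    rw [hm0 (2 * w.1 + 1, 2 * w.2) le_rfl, hm0 (2 * w.1 - 1, 2 * w.2) le_rfl,
      hm0 (2 * w.1, 2 * w.2 + 1) (by simp)] at h3
    have e4 : id1 w w = 1 := by simp [id1]
    have e5 : id1 u w = 0 := by
      unfold id1
      rw [if_neg]
      exact fun h => hne h.symm
    rw [e4, e5] at h3
    simpa using h3
  have hz : ∀ x y : ZMod 2, x + y = 0 → x = y := by decide
  have q1 := hS (w.1, w.2) (w.1 + 1, w.2) (by unfold IsUnit4; simp [Prod.ext_iff])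
  have e1 : ((w.1, w.2) : ℤ × ℤ) + (w.1 + 1, w.2) - (1, 1) = (2 * w.1, 2 * w.2 - 1) := by
    refine Prod.ext ?_ ?_ <;> simp only [Prod.mk_add_mk, Prod.mk_sub_mk] <;> ring
  rw [e1, hn0 _ h3, hm1, zero_add] at q1
  have q2 := hS (w.1, w.2) (w.1, w.2 + 1) (by unfold IsUnit4; simp [Prod.ext_iff])
  have e2 : ((w.1, w.2) : ℤ × ℤ) + (w.1, w.2 + 1) - (1, 1) = (2 * w.1 - 1, 2 * w.2) := by
    refine Prod.ext ?_ ?_ <;> simp only [Prod.mk_add_mk, Prod.mk_sub_mk] <;> ring
  rw [e2, hn0 _ h1, hm0 _ le_rfl, zero_add] at q2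
  have q3 := hS (w.1 + 1, w.2) (w.1 + 1, w.2 + 1) (by unfold IsUnit4; simp [Prod.ext_iff])
  have e3 : ((w.1 + 1, w.2) : ℤ × ℤ) + (w.1 + 1, w.2 + 1) - (1, 1) = (2 * w.1 + 1, 2 * w.2) := by
    refine Prod.ext ?_ ?_ <;> simp only [Prod.mk_add_mk, Prod.mk_sub_mk] <;> ring
  rw [e3, hn0 _ h2, hm0 _ le_rfl, zero_add] at q3
  have key : ∀ l ∈ BP a b c d w.2, l ∉ ω → n l + m l = 0 := by
    intro l hl1 hl2
    rw [mem_BP] at hl1
    rw [hn0 _ hl2, hm0 l (by omega), add_zero]
  have q4 : S (w.1, w.2 + 1) = S g := colour_path (n := fun l => n l + m l) hS key hL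
  have q5 : S (w.1 + 1, w.2 + 1) = S g' := colour_path (n := fun l => n l + m l) hS key hR
  have q6 : S g = S g' := hout _ _ hg hg'
  rw [hz _ _ q2, hz _ _ q3, q4, q5, q6, zmod2_add_self] at q1
  revert q1; decide

end Pool.Agent.H60.Q1
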