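import Mathlib
import Pool.Agent.H60.Q1.Sep
import Pool.Agent.H60.Q1.Count

set_option autoImplicit false
open Finset

/-!
# Universal half-plane exponents, upper bounds (`p = 1/2`)

`OA x n ω` : open arm from the vertex `x` to distance `n` inside the half plane above the row of `x`;
`DA x n s ω` : closed dual arm from the face `s` (row of faces above `x`) to distance `n` inside the
half plane (strictly above the row of `x`).

* `half_two` : `P(Two s x n) ≤ C / n` (open arm from `x`, dual arm from the face next to `x`);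
* `half_three` : `P(Three x n) ≤ C / n^2` (dual arm, open arm from `x`, dual arm).
-/

namespace Pool.Agent.H60.Q1

open Pool.Agent.H75.Perc Pool.Agent.H75.TwoArm Pool.Agent.H75.Four Pool.Agent.H49.Perc

/-- the half box above `x` -/
noncomputable def HB (x : ℤ × ℤ) (n : ℤ) : Finset (ℤ × ℤ) := Bx (x.1 - n) (x.1 + n) x.2 (x.2 + n)

/-- the half box above `x` without its bottom row -/
noncomputable def HP (x : ℤ × ℤ) (n : ℤ) : Finset (ℤ × ℤ) :=
  BP (x.1 - n) (x.1 + n) x.2 (x.2 + n) x.2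

/-- open arm in the half box above `x` -/
def OA (x : ℤ × ℤ) (n : ℤ) (ω : Finset (ℤ × ℤ)) : Prop :=
  ∃ v : ℤ × ℤ, (n ≤ |v.1 - x.1| ∨ n ≤ |v.2 - x.2|) ∧ Co (ω ∩ HB x n) x v

/-- dual arm from the face `x + s` in the half box above `x`, off the bottom row -/
def DA (x : ℤ × ℤ) (n : ℤ) (s : ℤ × ℤ) (ω : Finset (ℤ × ℤ)) : Prop :=
  ∃ g : ℤ × ℤ, Out (x.1 - n) (x.1 + n) x.2 (x.2 + n) g ∧ Co (du (HP x n) ω) (x + s) g

/-- two arms at the boundary point `x`: open arm from `x`, dual arm from the boundary face on the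
left (`s = 0`) or on the right (`s = 1`) of `x` -/
def Two (s : ℤ) (x : ℤ × ℤ) (n : ℤ) (ω : Finset (ℤ × ℤ)) : Prop :=
  OA x n ω ∧ ((2 * (x.1 + s) - 1, 2 * x.2) : ℤ × ℤ) ∉ ω ∧ DA x n (s, 1) ω

/-- three arms at the boundary point `x`: dual, open, dual -/
def Three (x : ℤ × ℤ) (n : ℤ) (ω : Finset (ℤ × ℤ)) : Prop :=
  OA x n ω ∧ (((2 * x.1 - 1, 2 * x.2) : ℤ × ℤ) ∉ ω ∧ DA x n (0, 1) ω) ∧
    ((2 * x.1 + 1, 2 * x.2) : ℤ × ℤ) ∉ ω ∧ DA x n (1, 1) ω

lemma mem_HB {x : ℤ × ℤ} {n : ℤ} {l : ℤ × ℤ} : l ∈ HB x n ↔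
    (2 * (x.1 - n) ≤ l.1 ∧ l.1 ≤ 2 * (x.1 + n)) ∧ (2 * x.2 ≤ l.2 ∧ l.2 ≤ 2 * (x.2 + n)) ∧
      (l.1 + l.2) % 2 = 1 := mem_Bx

lemma mem_HP {x : ℤ × ℤ} {n : ℤ} {l : ℤ × ℤ} : l ∈ HP x n ↔ l ∈ HB x n ∧ 2 * x.2 + 1 ≤ l.2 := mem_BP

lemma mem_du_iff {E ω : Finset (ℤ × ℤ)} {l : ℤ × ℤ} :
    l ∈ du E ω ↔ ((l.1 - 1, l.2 - 1) : ℤ × ℤ) ∈ E ∧ ((l.1 - 1, l.2 - 1) : ℤ × ℤ) ∉ ω := by
  unfold du
  rw [mem_map]
  constructor
  · rintro ⟨e, he, rfl⟩
    have : (((sh1 e).1 - 1, (sh1 e).2 - 1) : ℤ × ℤ) = e := by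
      refine Prod.ext ?_ ?_ <;> simp [sh1]
    rw [this]
    exact mem_sdiff.1 he
  · intro h
    exact ⟨(l.1 - 1, l.2 - 1), mem_sdiff.2 h, by refine Prod.ext ?_ ?_ <;> simp [sh1]⟩

/-! ### Stopping arms at the boundary of a box -/

/-- a dual path stopped at the exit of a box -/
lemma dual_exit {E ω : Finset (ℤ × ℤ)} {a b c d : ℤ} (hE : ∀ e ∈ E, (e.1 + e.2) % 2 = 1)
    {s g : ℤ × ℤ} (h : Co (du E ω) s g) (hs : ¬ Out a b c d s) (hg : Out a b c d g) :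
    ∃ g', Out a b c d g' ∧ Co (du (E ∩ Bx a b c d) ω) s g' := by
  have hB : ∀ y z : ℤ × ℤ, Ad (du E ω) y z → ¬ Out a b c d z ∨ ¬ Out a b c d y →
      Ad (du (E ∩ Bx a b c d) ω) y z := by
    intro y z hyz hz
    refine ⟨hyz.1, ?_⟩
    have h1 := mem_du_iff.1 hyz.2
    rw [mem_du_iff]
    refine ⟨mem_inter.2 ⟨h1.1, ?_⟩, h1.2⟩
    have h2 := unit_cases hyz.1
    have h3 := hE _ h1.1
    rw [mem_Bx]
    unfold Out at hz
    simp only [Prod.fst_add, Prod.snd_add] at h3 ⊢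
    omega
  obtain ⟨z, z', hz, hz', hzz, hX, -⟩ := exit_co (X := fun f => ¬ Out a b c d f) h hs
    (not_not.2 hg)
  refine ⟨z', not_not.1 hz', ?_⟩
  have key : ∀ z, CoX (du E ω) (fun f => ¬ Out a b c d f) s z →
      Co (du (E ∩ Bx a b c d) ω) s z := by
    intro z hz
    induction hz with
    | refl => exact Co.refl _ _
    | tail _ hbc ih => exact ih.tail (hB _ _ hbc.1 (Or.inl hbc.2))
  exact (key z hX).tail (hB _ _ hzz (Or.inr hz))

/-- an open path stopped at the exit of a box -/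
lemma open_exit {ω : Finset (ℤ × ℤ)} {o s v : ℤ × ℤ} {M : ℤ}
    (h : Co ω s v) (hs : |s.1 - o.1| < M ∧ |s.2 - o.2| < M)
    (hv : M ≤ |v.1 - o.1| ∨ M ≤ |v.2 - o.2|) :
    ∃ v' : ℤ × ℤ, (M ≤ |v'.1 - o.1| ∨ M ≤ |v'.2 - o.2|) ∧
      Co (ω ∩ Bx (o.1 - M) (o.1 + M) (o.2 - M) (o.2 + M)) s v' := by
  obtain ⟨z, z', hz, hz', hzz, hX, -⟩ :=
    exit_co (X := fun z => |z.1 - o.1| < M ∧ |z.2 - o.2| < M) h hs (by omega)
  refine ⟨z', by omega, ?_⟩
  have hin : ∀ z : ℤ × ℤ, (|z.1 - o.1| < M ∧ |z.2 - o.2| < M) →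
      inB (o.1 - M) (o.1 + M) (o.2 - M) (o.2 + M) z := by
    intro z hz
    rw [abs_lt, abs_lt] at hz
    unfold inB
    omega
  have h1 := CoX.box (a := o.1 - M) (b := o.1 + M) (c := o.2 - M) (d := o.2 + M) hin hX hs
  refine h1.tail ⟨hzz.1, mem_inter.2 ⟨hzz.2, ?_⟩⟩
  have h2 := unit_cases hzz.1
  have hz2 := hin z hz
  refine add_mem_Bx hzz.1 hz2 ?_
  rw [abs_lt, abs_lt] at hz
  unfold inB
  omega

/-! ### Locality -/

lemma OA_inter {x : ℤ × ℤ} {n : ℤ} {ω : Finset (ℤ × ℤ)} : OA x n (ω ∩ HB x n) ↔ OA x n ω := by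
  unfold OA
  rw [inter_assoc, inter_self]

lemma du_inter {E F ω : Finset (ℤ × ℤ)} (h : E ⊆ F) : du E (ω ∩ F) = du E ω := by
  ext l
  rw [mem_du_iff, mem_du_iff]
  constructor
  · rintro ⟨h1, h2⟩
    exact ⟨h1, fun h3 => h2 (mem_inter.2 ⟨h3, h h1⟩)⟩
  · rintro ⟨h1, h2⟩
    exact ⟨h1, fun h3 => h2 (mem_inter.1 h3).1⟩

lemma HP_sub (x : ℤ × ℤ) (n : ℤ) : HP x n ⊆ HB x n := fun _ hl => (mem_HP.1 hl).1

lemma DA_inter {x s : ℤ × ℤ} {n : ℤ} {ω : Finset (ℤ × ℤ)} :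
    DA x n s (ω ∩ HB x n) ↔ DA x n s ω := by
  unfold DA
  rw [du_inter (HP_sub x n)]

lemma base_mem {x : ℤ × ℤ} {n : ℤ} (hn : 1 ≤ n) :
    ((2 * x.1 + 1, 2 * x.2) : ℤ × ℤ) ∈ HB x n ∧ ((2 * x.1 - 1, 2 * x.2) : ℤ × ℤ) ∈ HB x n := by
  rw [mem_HB, mem_HB]
  simp only
  omega

lemma Two_inter {s : ℤ} (hs : s = 0 ∨ s = 1) {x : ℤ × ℤ} {n : ℤ} (hn : 1 ≤ n)
    {ω : Finset (ℤ × ℤ)} : Two s x n (ω ∩ HB x n) ↔ Two s x n ω := by
  unfold Two
  rw [OA_inter, DA_inter, mem_inter]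
  have h1 : ((2 * (x.1 + s) - 1, 2 * x.2) : ℤ × ℤ) ∈ HB x n := by
    rw [mem_HB]
    simp only
    omega
  tauto

lemma Three_inter {x : ℤ × ℤ} {n : ℤ} (hn : 1 ≤ n) {ω : Finset (ℤ × ℤ)} :
    Three x n (ω ∩ HB x n) ↔ Three x n ω := by
  unfold Three
  rw [OA_inter, DA_inter, DA_inter, mem_inter, mem_inter]
  have := base_mem (x := x) hn
  tauto

/-! ### Translation -/

lemma mem_HB_tr {x t : ℤ × ℤ} {n : ℤ} (e : ℤ × ℤ) :
    e ∈ HB (x + t) n ↔ (syT t).G' e ∈ HB x n := by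
  rw [mem_HB, mem_HB]
  unfold syT
  simp only [Prod.fst_add, Prod.snd_add]
  omega

lemma mem_HP_tr {x t : ℤ × ℤ} {n : ℤ} (e : ℤ × ℤ) :
    e ∈ HP (x + t) n ↔ (syT t).G' e ∈ HP x n := by
  rw [mem_HP, mem_HP, mem_HB_tr]
  refine and_congr_right fun _ => ?_
  unfold syT
  simp only [Prod.snd_add]
  omega

lemma OA_tr {x t : ℤ × ℤ} {n : ℤ} {ω : Finset (ℤ × ℤ)} :
    OA (x + t) n (ω.map (syT t).G) ↔ OA x n ω := by
  unfold OA
  rw [(syT t).map_inter ω (E1 := HB x n) (E2 := HB (x + t) n) mem_HB_tr]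
  constructor
  · rintro ⟨v, hv, hc⟩
    refine ⟨v - t, ?_, ?_⟩
    · simp only [Prod.fst_add, Prod.snd_add, Prod.fst_sub, Prod.snd_sub] at hv ⊢
      rwa [show v.1 - t.1 - x.1 = v.1 - (x.1 + t.1) by ring,
        show v.2 - t.2 - x.2 = v.2 - (x.2 + t.2) by ring]
    · rw [← (syT t).co_iff]
      unfold syT at hc ⊢
      simp only at hc ⊢
      rwa [sub_add_cancel]
  · rintro ⟨v, hv, hc⟩
    refine ⟨v + t, ?_, ?_⟩
    · simp only [Prod.fst_add, Prod.snd_add] at hv ⊢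
      rwa [show v.1 + t.1 - (x.1 + t.1) = v.1 - x.1 by ring,
        show v.2 + t.2 - (x.2 + t.2) = v.2 - x.2 by ring]
    · rw [← (syT t).co_iff] at hc
      exact hc

lemma du_tr {E1 E2 ω : Finset (ℤ × ℤ)} {t : ℤ × ℤ} (hE : ∀ e, e ∈ E2 ↔ (syT t).G' e ∈ E1) :
    du E2 (ω.map (syT t).G) = (du E1 ω).map (syT t).G := by
  ext l
  rw [mem_du_iff, (syT t).mem_map, (syT t).mem_map, hE, mem_du_iff]
  have : (syT t).G' (l.1 - 1, l.2 - 1) = (((syT t).G' l).1 - 1, ((syT t).G' l).2 - 1) := by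
    unfold syT
    refine Prod.ext ?_ ?_ <;> simp only <;> ring
  rw [this]

lemma DA_tr {x t s : ℤ × ℤ} {n : ℤ} {ω : Finset (ℤ × ℤ)} :
    DA (x + t) n s (ω.map (syT t).G) ↔ DA x n s ω := by
  unfold DA
  rw [du_tr (E1 := HP x n) (E2 := HP (x + t) n) mem_HP_tr]
  constructor
  · rintro ⟨v, hv, hc⟩
    refine ⟨v - t, ?_, ?_⟩
    · unfold Out at hv ⊢
      simp only [Prod.fst_add, Prod.snd_add, Prod.fst_sub, Prod.snd_sub] at hv ⊢
      omega
    · rw [← (syT t).co_iff]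
      unfold syT at hc ⊢
      simp only at hc ⊢
      rwa [sub_add_cancel, add_right_comm]
  · rintro ⟨v, hv, hc⟩
    refine ⟨v + t, ?_, ?_⟩
    · unfold Out at hv ⊢
      simp only [Prod.fst_add, Prod.snd_add] at hv ⊢
      omega
    · rw [← (syT t).co_iff] at hc
      have e : (syT t).g (x + s) = x + t + s := by
        unfold syT
        simp only
        rw [add_right_comm]
      rw [e] at hc
      exact hc

lemma lab_tr {t : ℤ × ℤ} {a b : ℤ} {ω : Finset (ℤ × ℤ)} :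
    ((a + 2 * t.1, b + 2 * t.2) : ℤ × ℤ) ∈ ω.map (syT t).G ↔ ((a, b) : ℤ × ℤ) ∈ ω := by
  rw [(syT t).mem_map]
  have : (syT t).G' (a + 2 * t.1, b + 2 * t.2) = (a, b) := by
    unfold syT
    refine Prod.ext ?_ ?_ <;> simp only <;> ring
  rw [this]

lemma Two_tr {s : ℤ} {x t : ℤ × ℤ} {n : ℤ} {ω : Finset (ℤ × ℤ)} :
    Two s (x + t) n (ω.map (syT t).G) ↔ Two s x n ω := by
  unfold Two
  rw [OA_tr, DA_tr]
  have e : ((2 * ((x + t).1 + s) - 1, 2 * (x + t).2) : ℤ × ℤ) =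
      (2 * (x.1 + s) - 1 + 2 * t.1, 2 * x.2 + 2 * t.2) := by
    refine Prod.ext ?_ ?_ <;> simp only [Prod.fst_add, Prod.snd_add] <;> ring
  rw [e, lab_tr]

lemma Three_tr {x t : ℤ × ℤ} {n : ℤ} {ω : Finset (ℤ × ℤ)} :
    Three (x + t) n (ω.map (syT t).G) ↔ Three x n ω := by
  unfold Three
  rw [OA_tr, DA_tr, DA_tr]
  have e : ((2 * (x + t).1 + 1, 2 * (x + t).2) : ℤ × ℤ) =
      (2 * x.1 + 1 + 2 * t.1, 2 * x.2 + 2 * t.2) := by
    refine Prod.ext ?_ ?_ <;> simp only [Prod.fst_add, Prod.snd_add] <;> ring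
  have e' : ((2 * (x + t).1 - 1, 2 * (x + t).2) : ℤ × ℤ) =
      (2 * x.1 - 1 + 2 * t.1, 2 * x.2 + 2 * t.2) := by
    refine Prod.ext ?_ ?_ <;> simp only [Prod.fst_add, Prod.snd_add] <;> ring
  rw [e, e', lab_tr, lab_tr]

lemma HB_odd {x : ℤ × ℤ} {n : ℤ} : ∀ e ∈ HB x n, (e.1 + e.2) % 2 = 1 := fun _ he =>
  (mem_HB.1 he).2.2

/-- the probability does not depend on the point and on the domain -/
lemma Pr_Two {s : ℤ} (hs : s = 0 ∨ s = 1) {x : ℤ × ℤ} {n : ℤ} (hn : 1 ≤ n) {E : Finset (ℤ × ℤ)}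
    (h : HB x n ⊆ E) : Pr E (Two s x n) = Pr (HB 0 n) (Two s 0 n) := by
  rw [Pr_congr (B := fun ω => Two s x n (ω ∩ HB x n)) fun ω _ => (Two_inter hs hn).symm,
    Pr_restrict h]
  have h1 := (syT x).Pr (E1 := HB 0 n) (E2 := HB x n) (fun e => by
    have := mem_HB_tr (x := 0) (t := x) (n := n) e
    rwa [zero_add] at this) (Two s x n)
  rw [h1]
  refine Pr_congr fun ω _ => ?_
  have := Two_tr (s := s) (x := 0) (t := x) (n := n) (ω := ω)
  rwa [zero_add] at this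

lemma Pr_Three {x : ℤ × ℤ} {n : ℤ} (hn : 1 ≤ n) {E : Finset (ℤ × ℤ)} (h : HB x n ⊆ E) :
    Pr E (Three x n) = Pr (HB 0 n) (Three 0 n) := by
  rw [Pr_congr (B := fun ω => Three x n (ω ∩ HB x n)) fun ω _ => (Three_inter hn).symm,
    Pr_restrict h]
  have h1 := (syT x).Pr (E1 := HB 0 n) (E2 := HB x n) (fun e => by
    have := mem_HB_tr (x := 0) (t := x) (n := n) e
    rwa [zero_add] at this) (Three x n)
  rw [h1]
  refine Pr_congr fun ω _ => ?_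
  have := Three_tr (x := 0) (t := x) (n := n) (ω := ω)
  rwa [zero_add] at this

/-! ### The arms in a common box -/

lemma du_mono {E F ω : Finset (ℤ × ℤ)} (h : E ⊆ F) : du E ω ⊆ du F ω := by
  intro l hl
  rw [mem_du_iff] at hl ⊢
  exact ⟨h hl.1, hl.2⟩

lemma DA.box {x s : ℤ × ℤ} {n : ℤ} {ω : Finset (ℤ × ℤ)} (h : DA x n s ω) {a b c d : ℤ}
    (ha : x.1 - n ≤ a) (hb : b ≤ x.1 + n) (hd : d ≤ x.2 + n) (hs1 : 1 ≤ s.2)
    (hs : ¬ Out a b c d (x + s)) :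
    ∃ g, Out a b c d g ∧ Co (du (BP a b c d x.2) ω) (x + s) g := by
  obtain ⟨g, hg, hco⟩ := h
  by_cases hout : Out a b c d g
  · obtain ⟨g', h1, h2⟩ := dual_exit (fun e he => HB_odd e (HP_sub _ _ he)) hco hs hout
    refine ⟨g', h1, h2.mono (du_mono ?_)⟩
    intro l hl
    rw [mem_inter, mem_HP] at hl
    rw [mem_BP]
    exact ⟨hl.2, hl.1.2⟩
  · exfalso
    -- the path never reaches the row of `x`
    have key : ∀ f, Co (du (HP x n) ω) (x + s) f → x.2 + 1 ≤ f.2 := by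
      intro f hf
      induction hf with
      | refl => simp only [Prod.snd_add]; omega
      | tail _ hbc _ =>
        have h1 := unit_cases hbc.1
        have h2 := mem_HP.1 (mem_du_iff.1 hbc.2).1
        simp only [Prod.fst_add, Prod.snd_add] at h2
        omega
    have h3 := key g hco
    unfold Out at hg hout
    omega

/-! ### Natural forms: the domain agrees with a half plane near `x` -/

/-- `E` has no labels below the row of `x` in the ball of radius `n` about `x` -/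
def Above (x : ℤ × ℤ) (n : ℤ) (E : Finset (ℤ × ℤ)) : Prop :=
  ∀ l ∈ E, |l.1 - 2 * x.1| ≤ 2 * n → |l.2 - 2 * x.2| ≤ 2 * n → 2 * x.2 ≤ l.2

/-- an open path from `x` to distance `n` gives an arm in the half box -/
lemma OA_of {x : ℤ × ℤ} {n : ℤ} (hn : 1 ≤ n) {ω : Finset (ℤ × ℤ)} (hω : Above x n ω) {v : ℤ × ℤ}
    (h : Co ω x v) (hv : n ≤ |v.1 - x.1| ∨ n ≤ |v.2 - x.2|) : OA x n ω := by
  obtain ⟨v', h1, h2⟩ := open_exit (o := x) (M := n) h (by simp; omega) hv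
  refine ⟨v', h1, h2.mono ?_⟩
  intro l hl
  rw [mem_inter, mem_Bx] at hl
  rw [mem_inter, mem_HB]
  have := hω l hl.1 (by rw [abs_le]; omega) (by rw [abs_le]; omega)
  exact ⟨hl.1, by omega⟩

/-- a dual path from a boundary face to distance `n` gives a dual arm in the half box -/
lemma DA_of {x : ℤ × ℤ} {n : ℤ} (hn : 1 ≤ n) {E ω : Finset (ℤ × ℤ)}
    (hodd : ∀ e ∈ E, (e.1 + e.2) % 2 = 1) (hE : Above x n E) {s : ℤ} (hs1 : 1 - n ≤ s)
    (hs2 : s ≤ n) {g : ℤ × ℤ} (h : Co (du E ω) (x.1 + s, x.2) g)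
    (hg : Out (x.1 - n) (x.1 + n) (x.2 - n) (x.2 + n) g) :
    ((2 * (x.1 + s) - 1, 2 * x.2) : ℤ × ℤ) ∉ ω ∧ DA x n (s, 1) ω := by
  obtain ⟨g', h1, h2⟩ := dual_exit hodd h (by unfold Out; simp only; omega) hg
  set F := E ∩ Bx (x.1 - n) (x.1 + n) (x.2 - n) (x.2 + n) with hF
  have hFl : ∀ l ∈ F, l ∈ HB x n := by
    intro l hl
    rw [hF, mem_inter, mem_Bx] at hl
    have := hE l hl.1 (by rw [abs_le]; omega) (by rw [abs_le]; omega)
    rw [mem_HB]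
    omega
  have e0 : x + ((s, 1) : ℤ × ℤ) = (x.1 + s, x.2 + 1) := by
    refine Prod.ext ?_ ?_ <;> simp
  have key : ∀ f, Co (du F ω) (x.1 + s, x.2) f → f = (x.1 + s, x.2) ∨
      (((2 * (x.1 + s) - 1, 2 * x.2) : ℤ × ℤ) ∉ ω ∧ x.2 ≤ f.2 ∧
        Co (du (HP x n) ω) (x + (s, 1)) (f.1, max f.2 (x.2 + 1))) := by
    intro f hf
    induction hf with
    | refl => exact Or.inl rfl
    | @tail y z _ hyz ih =>
      right
      have h3 := unit_cases hyz.1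
      have h4 := mem_du_iff.1 hyz.2
      have h5 := mem_HB.1 (hFl _ h4.1)
      simp only [Prod.fst_add, Prod.snd_add] at h4 h5
      rcases ih with ih | ⟨ih1, ih2, ih3⟩
      · rw [ih] at h3 h4 h5
        simp only at h3 h4 h5
        have hz : z = (x.1 + s, x.2 + 1) := by
          refine Prod.ext ?_ ?_ <;> simp only <;> omega
        rw [hz] at h4 ⊢
        refine ⟨?_, by simp, ?_⟩
        · have h6 := h4.2
          simp only at h6
          rwa [show x.1 + s + (x.1 + s) - 1 = 2 * (x.1 + s) - 1 by ring,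
            show x.2 + (x.2 + 1) - 1 = 2 * x.2 by ring] at h6
        · rw [e0]
          simp only [max_self]
          exact Co.refl _ _
      · refine ⟨ih1, by omega, ?_⟩
        by_cases h7 : y.2 = x.2 ∨ z.2 = x.2
        · have h8 : ((z.1, max z.2 (x.2 + 1)) : ℤ × ℤ) = (y.1, max y.2 (x.2 + 1)) := by
            refine Prod.ext ?_ ?_ <;> simp only <;> omega
          rw [h8]
          exact ih3
        · have h8 : ((z.1, max z.2 (x.2 + 1)) : ℤ × ℤ) = z := by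
            refine Prod.ext ?_ ?_ <;> simp only <;> omega
          have h9 : ((y.1, max y.2 (x.2 + 1)) : ℤ × ℤ) = y := by
            refine Prod.ext ?_ ?_ <;> simp only <;> omega
          rw [h8]
          rw [h9] at ih3
          refine ih3.tail ⟨hyz.1, ?_⟩
          rw [mem_du_iff, mem_HP]
          refine ⟨⟨hFl _ (mem_du_iff.1 hyz.2).1, ?_⟩, (mem_du_iff.1 hyz.2).2⟩
          simp only [Prod.snd_add]
          omega
  rcases key g' h2 with h3 | ⟨h3, h4, h5⟩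
  · exfalso
    rw [h3] at h1
    unfold Out at h1
    simp only at h1
    omega
  · refine ⟨h3, _, ?_, h5⟩
    unfold Out at h1 ⊢
    simp only
    omega

end Pool.Agent.H60.Q1
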