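import Mathlib
import Pool.Agent.H60.Q1.Half

set_option autoImplicit false
open Finset

/-! The upper bounds `C / n` and `C / n^2` for two and three arms in the half plane. -/

namespace Pool.Agent.H60.Q1

open Pool.Agent.H75.Perc Pool.Agent.H75.TwoArm Pool.Agent.H75.Four Pool.Agent.H49.Perc

lemma OA.box {x : ℤ × ℤ} {n m : ℤ} {ω : Finset (ℤ × ℤ)} (h : OA x n ω) (hm : 1 ≤ m)
    (hmn : 5 * m ≤ n) (hx1 : |x.1| ≤ m) (hx2 : |x.2| ≤ m) :
    ∃ v : ℤ × ℤ, (4 * m ≤ |v.1 - ((0, 0) : ℤ × ℤ).1| ∨ 4 * m ≤ |v.2 - ((0, 0) : ℤ × ℤ).2|) ∧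
      Co (ω ∩ HB x n ∩ Bx (-(4 * m)) (4 * m) (-(4 * m)) (4 * m)) x v := by
  obtain ⟨v, hv, hco⟩ := h
  have h1 := open_exit (o := (0, 0)) (M := 4 * m) hco
    (by simp only [sub_zero]; constructor <;> omega)
    (by
      simp only [sub_zero]
      rcases hv with hv | hv
      · left
        have := abs_sub v.1 x.1
        omega
      · right
        have := abs_sub v.2 x.2
        omega)
  obtain ⟨v', hv', hco'⟩ := h1
  refine ⟨v', hv', hco'.mono ?_⟩
  simp only [zero_sub, zero_add]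
  exact subset_rfl

/-- **half plane, two arms**: `P ≤ C / n` -/
theorem half_two : ∃ C : ℝ, 0 < C ∧ ∀ s : ℤ, (s = 0 ∨ s = 1) → ∀ (x : ℤ × ℤ) (n : ℤ), 1 ≤ n →
    ∀ E : Finset (ℤ × ℤ), HB x n ⊆ E → Pr E (Two s x n) ≤ C / n := by
  obtain ⟨C, hC, hcount⟩ := count_le
  refine ⟨5 * C + 5, by positivity, fun s hs x n hn E hE => ?_⟩
  rw [Pr_Two hs hn hE]
  set p := Pr (HB 0 n) (Two s 0 n) with hp
  have hp0 : 0 ≤ p := Pr_nonneg _ _
  have hp1 : p ≤ 1 := Pr_le_one _ _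
  have hnR : (1 : ℝ) ≤ n := by exact_mod_cast hn
  rw [le_div_iff₀ (by linarith)]
  by_cases hn5 : n < 5
  · have h5 : (n : ℝ) < 5 := by exact_mod_cast hn5
    nlinarith
  set m := n / 5 with hm
  have hm1 : 1 ≤ m := by omega
  have h5m : 5 * m ≤ n := by omega
  have h := hcount ℤ (Bx (-(n + m)) (n + m) 0 n) (Bx (-(4 * m)) (4 * m) 0 (4 * m))
    (fun e he => (mem_Bx.1 he).2.2) (0, 0) m hm1 (Icc (-m) m) (fun t => (t, 0))
    (fun t => Two s (t, 0) n)
    (by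
      intro t ht
      rw [mem_Icc] at ht
      simp only [sub_zero]
      rw [abs_le, abs_zero]
      omega)
    (by
      intro ω _ t ht h
      rw [mem_Icc] at ht
      obtain ⟨v, hv, hco⟩ := h.1.box hm1 h5m (by rw [abs_le]; exact ht)
        (by rw [abs_zero]; omega)
      refine ⟨v, hv, hco.mono ?_⟩
      intro l hl
      rw [mem_inter, mem_inter, mem_HB, mem_Bx] at hl
      rw [mem_inter, mem_Bx]
      simp only at hl
      refine ⟨hl.1.1, ?_⟩
      omega)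
    (by
      have key : ∀ ω, ∀ t ∈ Icc (-m) m, ∀ t' ∈ Icc (-m) m, t < t' → Two s (t, 0) n ω →
          Two s (t', 0) n ω → ¬ Co (ω ∩ Bx (-(4 * m)) (4 * m) 0 (4 * m)) (t, 0) (t', 0) := by
        intro ω t ht t' ht' htt h h'
        rw [mem_Icc] at ht ht'
        rcases hs with rfl | rfl
        · obtain ⟨g, hg, hd⟩ := h'.2.2.box (a := -(4 * m)) (b := 4 * m) (c := 0) (d := 4 * m)
            (by simp only; omega) (by simp only; omega) (by simp only; omega)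
            (by simp only; omega) (by unfold Out; simp only [Prod.mk_add_mk]; omega)
          have h2 := h'.2.1
          rw [add_zero] at h2
          simp only [Prod.mk_add_mk, add_zero] at hd
          exact sep_row (by omega) htt le_rfl (by omega) (by omega) h2 hg hd
        · obtain ⟨g, hg, hd⟩ := h.2.2.box (a := -(4 * m)) (b := 4 * m) (c := 0) (d := 4 * m)
            (by simp only; omega) (by simp only; omega) (by simp only; omega)
            (by simp only; omega) (by unfold Out; simp only [Prod.mk_add_mk]; omega)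
          have h2 := h.2.1
          simp only [Prod.mk_add_mk] at hd
          exact sep_row (s := t + 1) (by omega) (by omega) (by omega) (by omega) (by omega) h2 hg hd
      intro ω _ t ht t' ht' hne h h'
      rcases lt_or_gt_of_ne hne with h1 | h1
      · exact key ω t ht t' ht' h1 h h'
      · exact fun hco => key ω t' ht' t ht h1 h' h hco.symm)
  have h2 : ∀ t ∈ Icc (-m) m, Pr (Bx (-(n + m)) (n + m) 0 n) (Two s (t, 0) n) = p := by
    intro t ht
    rw [mem_Icc] at ht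
    refine Pr_Two hs hn ?_
    unfold HB
    refine Bx_sub ?_ ?_ ?_ ?_ <;> simp only <;> omega
  rw [sum_congr rfl h2, sum_const, Int.card_Icc, nsmul_eq_mul] at h
  have h3 : (((m + 1 - -m).toNat : ℕ) : ℝ) = 2 * m + 1 := by
    have : (((m + 1 - -m).toNat : ℕ) : ℤ) = 2 * m + 1 := by omega
    exact_mod_cast this
  rw [h3] at h
  have h4 : (n : ℝ) ≤ 5 * (2 * m + 1) := by
    have : n ≤ 5 * (2 * m + 1) := by omega
    exact_mod_cast this
  nlinarith

lemma Pr_notin (l : ℤ × ℤ) : Pr {l} (fun ω => l ∉ ω) = 1 / 2 := by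
  classical
  rw [Pr_eq]
  have h1 : ((({l} : Finset (ℤ × ℤ)).powerset).filter (fun ω => l ∉ ω)) = {∅} := by
    ext ω
    rw [mem_filter, mem_powerset, subset_singleton_iff, mem_singleton]
    constructor
    · rintro ⟨h1 | h1, h2⟩
      · exact h1
      · exact absurd (by rw [h1]; exact mem_singleton_self l) h2
    · intro h1
      rw [h1]
      exact ⟨Or.inl rfl, notMem_empty l⟩
  rw [h1, card_singleton, card_singleton]
  norm_num

/-- **half plane, three arms**: `P ≤ C / n^2` -/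
theorem half_three : ∃ C : ℝ, 0 < C ∧ ∀ (x : ℤ × ℤ) (n : ℤ), 1 ≤ n → ∀ E : Finset (ℤ × ℤ),
    HB x n ⊆ E → Pr E (Three x n) ≤ C / n ^ 2 := by
  obtain ⟨C, hC, hcount⟩ := count_le
  refine ⟨50 * C + 25, by positivity, fun x n hn E hE => ?_⟩
  rw [Pr_Three hn hE]
  set p := Pr (HB 0 n) (Three 0 n) with hp
  have hp0 : 0 ≤ p := Pr_nonneg _ _
  have hp1 : p ≤ 1 := Pr_le_one _ _
  have hnR : (1 : ℝ) ≤ n := by exact_mod_cast hn
  rw [le_div_iff₀ (by positivity)]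
  by_cases hn5 : n < 5
  · have h5 : (n : ℝ) ≤ 5 := by exact_mod_cast hn5.le
    have h25 : (n : ℝ) ^ 2 ≤ 25 := by nlinarith
    have : p * (n : ℝ) ^ 2 ≤ 1 * 25 := mul_le_mul hp1 h25 (by positivity) (by norm_num)
    linarith
  set m := n / 5 with hm
  have hm1 : 1 ≤ m := by omega
  have h5m : 5 * m ≤ n := by omega
  set G := Bx (-(n + m + 1)) (n + m + 1) (-(n + m + 1)) (n + m + 1) with hG
  have h := hcount (ℤ × ℤ) G (Bx (-(4 * m)) (4 * m) (-(4 * m)) (4 * m))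
    (fun e he => (mem_Bx.1 he).2.2) (0, 0) m hm1 (Icc (-m) m ×ˢ Icc (-m) m) (fun z => z)
    (fun z ω => ((2 * z.1, 2 * z.2 - 1) : ℤ × ℤ) ∉ ω ∧ Three z n ω)
    (by
      intro z hz
      rw [mem_product, mem_Icc, mem_Icc] at hz
      simp only [sub_zero]
      rw [abs_le, abs_le]
      exact hz)
    (by
      intro ω _ z hz h
      rw [mem_product, mem_Icc, mem_Icc] at hz
      obtain ⟨v, hv, hco⟩ := h.2.1.box hm1 h5m (by rw [abs_le]; exact hz.1)
        (by rw [abs_le]; exact hz.2)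
      refine ⟨v, hv, hco.mono ?_⟩
      intro l hl
      rw [mem_inter, mem_inter] at hl
      rw [mem_inter]
      exact ⟨hl.1.1, hl.2⟩)
    (by
      have key : ∀ ω, ∀ z ∈ Icc (-m) m ×ˢ Icc (-m) m, ∀ u ∈ Icc (-m) m ×ˢ Icc (-m) m,
          u.2 ≤ z.2 → u ≠ z → ((2 * z.1, 2 * z.2 - 1) : ℤ × ℤ) ∉ ω → Three z n ω →
          ¬ Co (ω ∩ Bx (-(4 * m)) (4 * m) (-(4 * m)) (4 * m)) z u := by
        intro ω z hz u hu huz hne h1 h2
        rw [mem_product, mem_Icc, mem_Icc] at hz hu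
        obtain ⟨-, ⟨h3, h4⟩, h5, h6⟩ := h2
        obtain ⟨g, hg, hd⟩ := h4.box (a := -(4 * m)) (b := 4 * m) (c := -(4 * m)) (d := 4 * m)
          (by omega) (by omega) (by omega) (by simp only; omega)
          (by unfold Out; simp only [Prod.fst_add, Prod.snd_add]; omega)
        obtain ⟨g', hg', hd'⟩ := h6.box (a := -(4 * m)) (b := 4 * m) (c := -(4 * m)) (d := 4 * m)
          (by omega) (by omega) (by omega) (by simp only; omega)
          (by unfold Out; simp only [Prod.fst_add, Prod.snd_add]; omega)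
        have e1 : z + ((0, 1) : ℤ × ℤ) = (z.1, z.2 + 1) := by
          refine Prod.ext ?_ ?_ <;> simp
        have e2 : z + ((1, 1) : ℤ × ℤ) = (z.1 + 1, z.2 + 1) := by
          refine Prod.ext ?_ ?_ <;> simp
        rw [e1] at hd
        rw [e2] at hd'
        exact sep_cap (by unfold inB; omega) (by unfold inB; omega) huz hne h3 h5 h1 hg hg' hd hd'
      intro ω _ z hz u hu hne h h'
      rcases le_total u.2 z.2 with h1 | h1
      · exact key ω z hz u hu h1 hne.symm h.1 h.2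
      · exact fun hco => key ω u hu z hz h1 hne h'.1 h'.2 hco.symm)
  have h2 : ∀ z ∈ Icc (-m) m ×ˢ Icc (-m) m,
      Pr G (fun ω => ((2 * z.1, 2 * z.2 - 1) : ℤ × ℤ) ∉ ω ∧ Three z n ω) = 1 / 2 * p := by
    intro z hz
    rw [mem_product, mem_Icc, mem_Icc] at hz
    have h3 : HB z n ⊆ G := by
      unfold HB
      refine Bx_sub ?_ ?_ ?_ ?_ <;> omega
    have h4 : ({(2 * z.1, 2 * z.2 - 1)} : Finset (ℤ × ℤ)) ⊆ G := by
      rw [singleton_subset_iff, hG, mem_Bx]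
      simp only
      omega
    have h5 := Pr_indep h4 h3 (by
      rw [disjoint_singleton_left, mem_HB]
      simp only
      omega) (fun ω => ((2 * z.1, 2 * z.2 - 1) : ℤ × ℤ) ∉ ω) (Three z n)
    rw [Pr_notin, Pr_Three hn subset_rfl] at h5
    rw [← h5]
    refine Pr_congr fun ω _ => ?_
    rw [Three_inter hn, mem_inter]
    simp only [mem_singleton, and_true]
  rw [sum_congr rfl h2, sum_const, card_product, Int.card_Icc, nsmul_eq_mul] at h
  have h3 : ((((m + 1 - -m).toNat * (m + 1 - -m).toNat : ℕ)) : ℝ) = (2 * m + 1) ^ 2 := by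
    have : (((m + 1 - -m).toNat : ℕ) : ℤ) = 2 * m + 1 := by omega
    have h4 : (((m + 1 - -m).toNat : ℕ) : ℝ) = 2 * m + 1 := by exact_mod_cast this
    rw [Nat.cast_mul, h4]
    ring
  rw [h3] at h
  have hmR : (1 : ℝ) ≤ m := by exact_mod_cast hm1
  have h4 : (n : ℝ) ≤ 5 * (2 * m + 1) := by
    have : n ≤ 5 * (2 * m + 1) := by omega
    exact_mod_cast this
  have h5 : (n : ℝ) ^ 2 ≤ 25 * (2 * m + 1) ^ 2 := by nlinarith
  have h6 : p * (n : ℝ) ^ 2 ≤ p * (25 * (2 * m + 1) ^ 2) := mul_le_mul_of_nonneg_left h5 hp0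
  nlinarith

/-! ### Natural forms -/

/-- **two arms at a flat free boundary**: `E` is the half plane above the row of `x` in the ball of
radius `n` about `x`; open arm from `x` to distance `n` and dual arm from the boundary face next to
`x` (`s = 0` left, `s = 1` right). -/
theorem half_two_free : ∃ C : ℝ, 0 < C ∧ ∀ s : ℤ, (s = 0 ∨ s = 1) → ∀ (x : ℤ × ℤ) (n : ℤ), 1 ≤ n →
    ∀ E : Finset (ℤ × ℤ), (∀ e ∈ E, (e.1 + e.2) % 2 = 1) → HB x n ⊆ E → Above x n E →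
    Pr E (fun ω => (∃ v : ℤ × ℤ, (n ≤ |v.1 - x.1| ∨ n ≤ |v.2 - x.2|) ∧ Co ω x v) ∧
      ∃ g, Out (x.1 - n) (x.1 + n) (x.2 - n) (x.2 + n) g ∧ Co (du E ω) (x.1 + s, x.2) g) ≤
      C / n := by
  obtain ⟨C, hC, h⟩ := half_two
  refine ⟨C, hC, fun s hs x n hn E hodd hE hA => ?_⟩
  refine (Pr_mono fun ω hω h1 => ?_).trans (h s hs x n hn E hE)
  obtain ⟨⟨v, hv, hco⟩, g, hg, hd⟩ := h1
  obtain ⟨h2, h3⟩ := DA_of hn hodd hA (by omega) (by omega) hd hg
  exact ⟨OA_of hn (fun l hl => hA l (hω hl)) hco hv, h2, h3⟩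

/-- **three arms at a flat free boundary**: dual, open, dual. -/
theorem half_three_free : ∃ C : ℝ, 0 < C ∧ ∀ (x : ℤ × ℤ) (n : ℤ), 1 ≤ n →
    ∀ E : Finset (ℤ × ℤ), (∀ e ∈ E, (e.1 + e.2) % 2 = 1) → HB x n ⊆ E → Above x n E →
    Pr E (fun ω => (∃ v : ℤ × ℤ, (n ≤ |v.1 - x.1| ∨ n ≤ |v.2 - x.2|) ∧ Co ω x v) ∧
      (∃ g, Out (x.1 - n) (x.1 + n) (x.2 - n) (x.2 + n) g ∧ Co (du E ω) (x.1, x.2) g) ∧
      ∃ g, Out (x.1 - n) (x.1 + n) (x.2 - n) (x.2 + n) g ∧ Co (du E ω) (x.1 + 1, x.2) g) ≤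
      C / n ^ 2 := by
  obtain ⟨C, hC, h⟩ := half_three
  refine ⟨C, hC, fun x n hn E hodd hE hA => ?_⟩
  refine (Pr_mono fun ω hω h1 => ?_).trans (h x n hn E hE)
  obtain ⟨⟨v, hv, hco⟩, ⟨g, hg, hd⟩, g', hg', hd'⟩ := h1
  obtain ⟨h2, h3⟩ := DA_of (s := 0) hn hodd hA (by omega) (by omega) (by rwa [add_zero]) hg
  obtain ⟨h4, h5⟩ := DA_of (s := 1) hn hodd hA (by omega) (by omega) hd' hg'
  refine ⟨OA_of hn (fun l hl => hA l (hω hl)) hco hv, ⟨?_, h3⟩, ?_, h5⟩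
  · rwa [add_zero] at h2
  · rwa [show 2 * (x.1 + 1) - 1 = 2 * x.1 + 1 by ring] at h4

/-- the dual of the dual is the translated configuration -/
lemma co_du_du {E ω : Finset (ℤ × ℤ)} (hω : ω ⊆ E) {u v : ℤ × ℤ} (h : Co ω u v) :
    Co (du (E.map sh1) (du E ω)) (u + (1, 1)) (v + (1, 1)) := by
  induction h with
  | refl => exact Co.refl _ _
  | @tail y z _ hyz ih =>
    refine ih.tail ⟨?_, ?_⟩
    · rw [add_sub_add_right_eq_sub]; exact hyz.1
    · have h1 : y + (1, 1) + (z + (1, 1)) = sh1 (sh1 (y + z)) := by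
        refine Prod.ext ?_ ?_ <;>
        simp only [sh1, Function.Embedding.coeFn_mk, Prod.fst_add, Prod.snd_add] <;> ring
      rw [h1]
      unfold du
      rw [mem_map', mem_sdiff, mem_map', mem_map']
      refine ⟨hω hyz.2, fun h => ?_⟩
      exact (mem_sdiff.1 h).2 hyz.2

/-- **two arms at a flat wired boundary** (colours exchanged): `E.map sh1` is the half plane above the
row of the face `x`; dual arm from the face `x` and open arm from the boundary vertex below it, on the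
left (`s = 0`) or on the right (`s = 1`). -/
theorem half_two_wired : ∃ C : ℝ, 0 < C ∧ ∀ s : ℤ, (s = 0 ∨ s = 1) → ∀ (x : ℤ × ℤ) (n : ℤ), 1 ≤ n →
    ∀ E : Finset (ℤ × ℤ), (∀ e ∈ E, (e.1 + e.2) % 2 = 1) → HB x n ⊆ E.map sh1 →
    Above x n (E.map sh1) →
    Pr E (fun ω => (∃ g : ℤ × ℤ, (n ≤ |g.1 - x.1| ∨ n ≤ |g.2 - x.2|) ∧ Co (du E ω) x g) ∧
      ∃ v, Out (x.1 - n) (x.1 + n) (x.2 - n) (x.2 + n) (v + (1, 1)) ∧
        Co ω (x.1 + s - 1, x.2 - 1) v) ≤ C / n := by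
  obtain ⟨C, hC, h⟩ := half_two_free
  refine ⟨C, hC, fun s hs x n hn E hodd hE hA => ?_⟩
  have hodd' : ∀ e ∈ E.map sh1, (e.1 + e.2) % 2 = 1 := by
    intro e he
    rw [mem_map] at he
    obtain ⟨l, hl, rfl⟩ := he
    have := hodd l hl
    simp only [sh1, Function.Embedding.coeFn_mk]
    omega
  have h1 := h s hs x n hn (E.map sh1) hodd' hE hA
  rw [← Pr_du] at h1
  refine (Pr_mono fun ω hω h2 => ?_).trans h1
  obtain ⟨h3, v, hv, hco⟩ := h2
  refine ⟨h3, v + (1, 1), hv, ?_⟩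
  have h4 := co_du_du hω hco
  have e : ((x.1 + s - 1, x.2 - 1) : ℤ × ℤ) + (1, 1) = (x.1 + s, x.2) := by
    refine Prod.ext ?_ ?_ <;> simp
  rwa [e] at h4

/-- **three arms at a flat wired boundary** (colours exchanged): open, dual, open. -/
theorem half_three_wired : ∃ C : ℝ, 0 < C ∧ ∀ (x : ℤ × ℤ) (n : ℤ), 1 ≤ n →
    ∀ E : Finset (ℤ × ℤ), (∀ e ∈ E, (e.1 + e.2) % 2 = 1) → HB x n ⊆ E.map sh1 →
    Above x n (E.map sh1) →
    Pr E (fun ω => (∃ g : ℤ × ℤ, (n ≤ |g.1 - x.1| ∨ n ≤ |g.2 - x.2|) ∧ Co (du E ω) x g) ∧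
      (∃ v, Out (x.1 - n) (x.1 + n) (x.2 - n) (x.2 + n) (v + (1, 1)) ∧
        Co ω (x.1 - 1, x.2 - 1) v) ∧
      ∃ v, Out (x.1 - n) (x.1 + n) (x.2 - n) (x.2 + n) (v + (1, 1)) ∧
        Co ω (x.1, x.2 - 1) v) ≤ C / n ^ 2 := by
  obtain ⟨C, hC, h⟩ := half_three_free
  refine ⟨C, hC, fun x n hn E hodd hE hA => ?_⟩
  have hodd' : ∀ e ∈ E.map sh1, (e.1 + e.2) % 2 = 1 := by
    intro e he
    rw [mem_map] at he
    obtain ⟨l, hl, rfl⟩ := he
    have := hodd l hl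
    simp only [sh1, Function.Embedding.coeFn_mk]
    omega
  have h1 := h x n hn (E.map sh1) hodd' hE hA
  rw [← Pr_du] at h1
  refine (Pr_mono fun ω hω h2 => ?_).trans h1
  obtain ⟨h3, ⟨v, hv, hco⟩, v', hv', hco'⟩ := h2
  have h4 := co_du_du hω hco
  have h5 := co_du_du hω hco'
  have e : ((x.1 - 1, x.2 - 1) : ℤ × ℤ) + (1, 1) = (x.1, x.2) := by
    refine Prod.ext ?_ ?_ <;> simp
  have e' : ((x.1, x.2 - 1) : ℤ × ℤ) + (1, 1) = (x.1 + 1, x.2) := by
    refine Prod.ext ?_ ?_ <;> simp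
  rw [e] at h4
  rw [e'] at h5
  exact ⟨h3, ⟨_, hv, h4⟩, _, hv', h5⟩

end Pool.Agent.H60.Q1
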