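import Mathlib
import Pool.Agent.H60.Q1.HalfArms

set_option autoImplicit false
open Finset

/-!
# Universal half-plane exponents at diagonal walls

The domain is `{x + y ≥ const}` near the boundary point `x` (flat walls of the tile frame). The boundary
faces next to `x` are `x + (0,1)` (upper left) and `x + (1,0)` (lower right).

* `diag_two` : open arm from `x` and dual arm from one of the two faces: `P ≤ C / n`;
* `diag_three` : dual, open, dual: `P ≤ C / n^2`;
* `diag_two_dual`, `diag_three_dual` : colours exchanged.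
-/

namespace Pool.Agent.H60.Q1

open Pool.Agent.H75.Perc Pool.Agent.H75.TwoArm Pool.Agent.H75.Four Pool.Agent.H75.Four.PivAux
  Pool.Agent.H49.Perc

/-- the labels of the box on the side `x + y ≥ k` of the diagonal -/
noncomputable def DX (a b c d k : ℤ) : Finset (ℤ × ℤ) :=
  (Bx a b c d).filter (fun l => 2 * k + 1 ≤ l.1 + l.2)

lemma mem_DX {a b c d k : ℤ} {l : ℤ × ℤ} : l ∈ DX a b c d k ↔ l ∈ Bx a b c d ∧ 2 * k + 1 ≤ l.1 + l.2 := by
  unfold DX; rw [mem_filter]

/-- two closed edges below `w`, and two closed dual paths above the diagonal of `w` separate `w` from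
all other vertices on its diagonal and below -/
theorem sep_cap_diag {a b c d : ℤ} {ω : Finset (ℤ × ℤ)} {w u : ℤ × ℤ} (hw : inB a b c d w)
    (hu : inB a b c d u) (huw : u.1 + u.2 ≤ w.1 + w.2) (hne : u ≠ w)
    (h1 : ((2 * w.1 - 1, 2 * w.2) : ℤ × ℤ) ∉ ω)
    (h3 : ((2 * w.1, 2 * w.2 - 1) : ℤ × ℤ) ∉ ω) {g g' : ℤ × ℤ}
    (hg : Out a b c d g) (hg' : Out a b c d g')
    (hL : Co (du (DX a b c d (w.1 + w.2)) ω) (w.1, w.2 + 1) g)
    (hR : Co (du (DX a b c d (w.1 + w.2)) ω) (w.1 + 1, w.2) g') :
    ¬ Co (ω ∩ Bx a b c d) w u := by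
  intro hco
  unfold inB at hw hu
  set R : Finset (ℤ × ℤ) := (Bx a b c d).filter (fun l => l.1 + l.2 ≤ 2 * (w.1 + w.2) - 1) with hRdef
  have hmR : ∀ l, l ∈ R ↔ l ∈ Bx a b c d ∧ l.1 + l.2 ≤ 2 * (w.1 + w.2) - 1 := by
    intro l; rw [hRdef, mem_filter]
  have hRB : R ⊆ Bx a b c d := filter_subset _ _
  have hver : ∀ (i j : ℤ) (m : ℕ), a ≤ i → i ≤ b → c ≤ j → j + m ≤ d → i + j + m ≤ w.1 + w.2 →
      Co R (i, j) (i, j + m) := by
    intro i j m hi1 hi2 hj
    induction m with
    | zero => intro _ _; simpa using Co.refl R (i, j)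
    | succ m ih =>
      intro h h'
      push_cast at h h' ⊢
      refine (ih (by omega) (by omega)).tail ⟨?_, ?_⟩
      · unfold IsUnit4
        simp only [Prod.ext_iff, Prod.fst_sub, Prod.snd_sub]
        omega
      · rw [hmR, mem_Bx]
        simp only [Prod.mk_add_mk]
        omega
  have hhor : ∀ (i j : ℤ) (m : ℕ), a ≤ i → i + m ≤ b → c ≤ j → j ≤ d → i + j + m ≤ w.1 + w.2 →
      Co R (i, j) (i + m, j) := by
    intro i j m hi1
    induction m with
    | zero => intro _ _ _ _; simpa using Co.refl R (i, j)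
    | succ m ih =>
      intro h hj hj' h'
      push_cast at h h' ⊢
      refine (ih (by omega) hj hj' (by omega)).tail ⟨?_, ?_⟩
      · unfold IsUnit4
        simp only [Prod.ext_iff, Prod.fst_sub, Prod.snd_sub]
        omega
      · rw [hmR, mem_Bx]
        simp only [Prod.mk_add_mk]
        omega
  have hcorner : ∀ v : ℤ × ℤ, ((a ≤ v.1 ∧ v.1 ≤ b) ∧ (c ≤ v.2 ∧ v.2 ≤ d)) →
      v.1 + v.2 ≤ w.1 + w.2 → Co R (a, c) v := by
    intro v hv hv'
    have q1 := hver a c (v.2 - c).toNat le_rfl (by omega) le_rfl (by omega) (by omega)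
    have q2 := hhor a v.2 (v.1 - a).toNat le_rfl (by omega) (by omega) (by omega) (by omega)
    rw [Int.toNat_of_nonneg (by omega)] at q1 q2
    rw [show c + (v.2 - c) = v.2 by ring] at q1
    rw [show a + (v.1 - a) = v.1 by ring] at q2
    exact q1.trans q2
  have hwu : Co R w u := (hcorner w hw le_rfl).symm.trans (hcorner u hu huw)
  obtain ⟨n, m, S, hn, hm, hdm, hS, hout⟩ := two_paths hco hRB hwu
  have hn0 : ∀ l, l ∉ ω → n l = 0 := fun l hl => by
    by_contra h; exact hl (mem_inter.1 (hn _ h)).1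
  have hm0 : ∀ l : ℤ × ℤ, 2 * (w.1 + w.2) ≤ l.1 + l.2 → m l = 0 := fun l hl => by
    by_contra h
    have := (hmR _).1 (hm _ h)
    omega
  have hm1 : m (2 * w.1 - 1, 2 * w.2) + m (2 * w.1, 2 * w.2 - 1) = 1 := by
    have h3 := hdm w
    unfold dg at h3
    rw [hm0 (2 * w.1 + 1, 2 * w.2) (by simp only; omega),
      hm0 (2 * w.1, 2 * w.2 + 1) (by simp only; omega)] at h3
    have e4 : id1 w w = 1 := by simp [id1]
    have e5 : id1 u w = 0 := by
      unfold id1
      rw [if_neg]
      exact fun h => hne h.symm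
    rw [e4, e5] at h3
    simpa using h3
  have q2 := hS (w.1, w.2) (w.1, w.2 + 1) (by unfold IsUnit4; simp [Prod.ext_iff])
  have e2 : ((w.1, w.2) : ℤ × ℤ) + (w.1, w.2 + 1) - (1, 1) = (2 * w.1 - 1, 2 * w.2) := by
    refine Prod.ext ?_ ?_ <;> simp only [Prod.mk_add_mk, Prod.mk_sub_mk] <;> ring
  rw [e2, hn0 _ h1, zero_add] at q2
  have q1 := hS (w.1, w.2) (w.1 + 1, w.2) (by unfold IsUnit4; simp [Prod.ext_iff])
  have e1 : ((w.1, w.2) : ℤ × ℤ) + (w.1 + 1, w.2) - (1, 1) = (2 * w.1, 2 * w.2 - 1) := by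
    refine Prod.ext ?_ ?_ <;> simp only [Prod.mk_add_mk, Prod.mk_sub_mk] <;> ring
  rw [e1, hn0 _ h3, zero_add] at q1
  have key : ∀ l ∈ DX a b c d (w.1 + w.2), l ∉ ω → n l + m l = 0 := by
    intro l hl1 hl2
    rw [mem_DX] at hl1
    rw [hn0 _ hl2, hm0 l (by omega), add_zero]
  have q4 : S (w.1, w.2 + 1) = S g := colour_path (n := fun l => n l + m l) hS key hL
  have q5 : S (w.1 + 1, w.2) = S g' := colour_path (n := fun l => n l + m l) hS key hR
  have q6 : S g = S g' := hout _ _ hg hg'
  rw [← q2, ← q1, q4, q5, q6] at hm1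
  generalize S (w.1, w.2) = s at hm1
  generalize S g' = t at hm1
  revert s t; decide

/-- A closed dual path from a boundary face between the points `x < y` of a diagonal wall to the outside
of the box separates `x` and `y`. -/
theorem sep_row_diag {a b c d k : ℤ} {ω : Finset (ℤ × ℤ)} {x y s : ℤ} (hx : a ≤ x) (hxs : x < s)
    (hsy : s ≤ y) (hy : y ≤ b) (hc : c ≤ k - y) (hd : k - x ≤ d) {g : ℤ × ℤ}
    (hg : Out a b c d g) (hdu : Co (du (DX a b c d k) ω) (s, k + 1 - s) g) :
    ¬ Co (ω ∩ DX a b c d k) (x, k - x) (y, k - y) := by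
  intro hco
  set R : Finset (ℤ × ℤ) := (Bx a b c d).filter (fun l => l.1 + l.2 = 2 * k - 1 ∧
    2 * x ≤ l.1 ∧ l.1 ≤ 2 * y - 1) with hR
  have hmR : ∀ l, l ∈ R ↔ l ∈ Bx a b c d ∧ (l.1 + l.2 = 2 * k - 1 ∧
    2 * x ≤ l.1 ∧ l.1 ≤ 2 * y - 1) := by
    intro l; rw [hR, mem_filter]
  have hRB : R ⊆ Bx a b c d := filter_subset _ _
  have hRco : ∀ m : ℕ, x + m ≤ y → Co R (x, k - x) (x + m, k - (x + m)) := by
    intro m
    induction m with
    | zero => intro _; simpa using Co.refl R (x, k - x)
    | succ m ih =>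
      intro h
      push_cast at h ⊢
      refine ((ih (by omega)).tail (c := (x + m, k - (x + m) - 1)) ⟨?_, ?_⟩).tail ⟨?_, ?_⟩
      · unfold IsUnit4
        simp only [Prod.ext_iff, Prod.fst_sub, Prod.snd_sub]
        omega
      · rw [hmR, mem_Bx]
        simp only [Prod.mk_add_mk]
        omega
      · unfold IsUnit4
        simp only [Prod.ext_iff, Prod.fst_sub, Prod.snd_sub]
        omega
      · rw [hmR, mem_Bx]
        simp only [Prod.mk_add_mk]
        omega
  have h2 : Co R (x, k - x) (y, k - y) := by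
    have := hRco (y - x).toNat (by omega)
    rw [Int.toNat_of_nonneg (by omega)] at this
    rwa [show x + (y - x) = y by ring] at this
  have hco' : Co (ω.filter (fun l => 2 * k + 1 ≤ l.1 + l.2) ∩ Bx a b c d) (x, k - x) (y, k - y) := by
    refine hco.mono ?_
    intro l hl
    rw [mem_inter, mem_DX] at hl
    rw [mem_inter, mem_filter]
    exact ⟨⟨hl.1, hl.2.2⟩, hl.2.1⟩
  obtain ⟨n, m, S, hn, hm, hdm, hS, hout⟩ := two_paths hco' hRB h2
  have hn0 : ∀ l : ℤ × ℤ, l.1 + l.2 ≤ 2 * k → n l = 0 := fun l hl => by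
    by_contra h
    have := (mem_filter.1 (mem_inter.1 (hn _ h)).1).2
    omega
  have hm0 : ∀ l : ℤ × ℤ, l.1 + l.2 ≠ 2 * k - 1 → m l = 0 := fun l hl => by
    by_contra h
    exact hl ((hmR _).1 (hm _ h)).2.1
  have hmk : ∀ i : ℕ, x + i + 1 ≤ y → m (2 * (x + i), 2 * (k - (x + i)) - 1) = 1 := by
    intro i
    induction i with
    | zero =>
      intro _
      have h3 := hdm (x, k - x)
      unfold dg at h3
      simp only at h3
      have e1 : m (2 * x - 1, 2 * (k - x)) = 0 := by
        by_contra h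
        have := (hmR _).1 (hm _ h)
        simp only at this
        omega
      rw [e1, hm0 (2 * x, 2 * (k - x) + 1) (by simp only; omega),
        hm0 (2 * x + 1, 2 * (k - x)) (by simp only; omega)] at h3
      have e4 : id1 (x, k - x) (x, k - x) = 1 := by simp [id1]
      have e5 : id1 (y, k - y) (x, k - x) = 0 := by
        unfold id1
        rw [if_neg]
        intro h
        have := congrArg Prod.fst h
        simp only at this
        omega
      rw [e4, e5] at h3
      simpa using h3
    | succ i ih =>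
      intro hk
      push_cast at hk ⊢
      have ih := ih (by omega)
      -- the lower vertex
      have h3 := hdm (x + i, k - (x + i) - 1)
      unfold dg at h3
      simp only at h3
      rw [hm0 (2 * (x + i) - 1, 2 * (k - (x + i) - 1)) (by simp only; omega),
        hm0 (2 * (x + i), 2 * (k - (x + i) - 1) - 1) (by simp only; omega)] at h3
      have e1 : (2 * (k - (x + i) - 1) + 1 : ℤ) = 2 * (k - (x + i)) - 1 := by ring
      have e4 : id1 (x, k - x) (x + i, k - (x + i) - 1) = 0 := by
        unfold id1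
        rw [if_neg]
        intro h
        have h5 := congrArg Prod.fst h
        have h6 := congrArg Prod.snd h
        simp only at h5 h6
        omega
      have e5 : id1 (y, k - y) (x + i, k - (x + i) - 1) = 0 := by
        unfold id1
        rw [if_neg]
        intro h
        have := congrArg Prod.fst h
        simp only at this
        omega
      rw [e1, ih, e4, e5] at h3
      -- the next vertex of the diagonal
      have h4 := hdm (x + i + 1, k - (x + i + 1))
      unfold dg at h4
      simp only at h4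
      rw [hm0 (2 * (x + i + 1) + 1, 2 * (k - (x + i + 1))) (by simp only; omega),
        hm0 (2 * (x + i + 1), 2 * (k - (x + i + 1)) + 1) (by simp only; omega)] at h4
      have e6 : ((2 * (x + i + 1) - 1, 2 * (k - (x + i + 1))) : ℤ × ℤ) =
          (2 * (x + i) + 1, 2 * (k - (x + i) - 1)) := by
        refine Prod.ext ?_ ?_ <;> simp only <;> ring
      have e7 : id1 (x, k - x) (x + i + 1, k - (x + i + 1)) = 0 := by
        unfold id1
        rw [if_neg]
        intro h
        have := congrArg Prod.fst h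
        simp only at this
        omega
      have e8 : id1 (y, k - y) (x + i + 1, k - (x + i + 1)) = 0 := by
        unfold id1
        rw [if_neg]
        intro h
        have := congrArg Prod.fst h
        simp only at this
        omega
      rw [e6, e7, e8] at h4
      rw [show x + ((i : ℤ) + 1) = x + i + 1 by ring]
      generalize m (2 * (x + i) + 1, 2 * (k - (x + i) - 1)) = z at h3 h4
      generalize m (2 * (x + i + 1), 2 * (k - (x + i + 1)) - 1) = z' at h4 ⊢
      revert z z'
      decide
  have hm1 : m (2 * (s - 1), 2 * (k - (s - 1)) - 1) = 1 := by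
    have := hmk (s - 1 - x).toNat (by omega)
    rw [Int.toNat_of_nonneg (by omega)] at this
    rwa [show x + (s - 1 - x) = s - 1 by ring] at this
  have h3 := hS (s - 1, k + 1 - s) (s, k + 1 - s) (by unfold IsUnit4; simp [Prod.ext_iff])
  have e6 : ((s - 1, k + 1 - s) : ℤ × ℤ) + (s, k + 1 - s) - (1, 1) =
      (2 * (s - 1), 2 * (k - (s - 1)) - 1) := by
    refine Prod.ext ?_ ?_ <;> simp only [Prod.mk_add_mk, Prod.mk_sub_mk] <;> ring
  rw [e6, hn0 _ (by simp only; omega), hm1] at h3
  have h4 : S (s, k + 1 - s) = S g := by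
    refine colour_path (n := fun l => n l + m l) hS ?_ hdu
    intro l hl1 hl2
    rw [mem_DX] at hl1
    have e7 : n l = 0 := by
      by_contra h; exact hl2 (mem_filter.1 (mem_inter.1 (hn _ h)).1).1
    rw [e7, hm0 l (by omega), add_zero]
  -- the faces below the staircase
  have hz : ∀ x y : ZMod 2, x + y = 0 → x = y := by decide
  have hleft : ∀ t : ℕ, S (s - 1 - t, k + 1 - s) = S (s - 1, k + 1 - s) := by
    intro t
    induction t with
    | zero => simp
    | succ t ih =>
      rw [← ih]
      apply hz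
      rw [hS _ _ (by
        unfold IsUnit4
        simp only [Prod.ext_iff, Prod.fst_sub, Prod.snd_sub]
        push_cast
        omega)]
      rw [hn0 _ (by simp only [Prod.mk_add_mk, Prod.mk_sub_mk]; push_cast; omega),
        hm0 _ (by simp only [Prod.mk_add_mk, Prod.mk_sub_mk]; push_cast; omega), add_zero]
  have h5 : S (s - 1, k + 1 - s) = S g := by
    rw [← hleft (s - 1 - a).toNat, Int.toNat_of_nonneg (by omega)]
    exact hout _ _ (by unfold Out; simp only; omega) hg
  rw [h4, h5, zmod2_add_self] at h3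
  revert h3; decide

end Pool.Agent.H60.Q1
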