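import Mathlib
import Pool.Agent.H75.Perc.Rect

namespace Pool.Agent.H75.TwoArm
end Pool.Agent.H75.TwoArm
namespace Pool.Agent.H75.Four
end Pool.Agent.H75.Four

set_option autoImplicit false
open Finset

/-!
# Half annuli at a flat wall (both orientations)

`ht κ v = v.2 + κ * v.1`, `κ = 0` (axis-parallel wall) or `κ = 1` (diagonal wall). The half plane of the
wall through `z` is `ht κ z ≤ ht κ v`. `AL κ z ρ R` : labels of the half annulus.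

* `PL` : in the half annulus, a path from the left wall to the right wall meets every path from the inner
  to the outer box.
-/

namespace Pool.Agent.H60.Q1

open Pool.Agent.H75.Perc Pool.Agent.H75.TwoArm Pool.Agent.H75.Four

/-- height above the wall -/
def ht (κ : ℤ) (v : ℤ × ℤ) : ℤ := v.2 + κ * v.1

/-- labels of the half box -/
noncomputable def HL (κ : ℤ) (z : ℤ × ℤ) (R : ℤ) : Finset (ℤ × ℤ) :=
  (Bx (z.1 - R) (z.1 + R) (z.2 - R) (z.2 + R)).filter (fun l => 2 * ht κ z ≤ ht κ l)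

/-- labels of the half annulus -/
noncomputable def AL (κ : ℤ) (z : ℤ × ℤ) (ρ R : ℤ) : Finset (ℤ × ℤ) :=
  HL κ z R \ Bx (z.1 - ρ) (z.1 + ρ) (z.2 - ρ) (z.2 + ρ)

lemma mem_HL {κ : ℤ} {z : ℤ × ℤ} {R : ℤ} {l : ℤ × ℤ} : l ∈ HL κ z R ↔
    ((2 * (z.1 - R) ≤ l.1 ∧ l.1 ≤ 2 * (z.1 + R)) ∧ (2 * (z.2 - R) ≤ l.2 ∧ l.2 ≤ 2 * (z.2 + R)) ∧
      (l.1 + l.2) % 2 = 1) ∧ 2 * (z.2 + κ * z.1) ≤ l.2 + κ * l.1 := by
  unfold HL ht; rw [mem_filter, mem_Bx]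

lemma mem_AL {κ : ℤ} {z : ℤ × ℤ} {ρ R : ℤ} {l : ℤ × ℤ} : l ∈ AL κ z ρ R ↔
    (((2 * (z.1 - R) ≤ l.1 ∧ l.1 ≤ 2 * (z.1 + R)) ∧ (2 * (z.2 - R) ≤ l.2 ∧ l.2 ≤ 2 * (z.2 + R)) ∧
      (l.1 + l.2) % 2 = 1) ∧ 2 * (z.2 + κ * z.1) ≤ l.2 + κ * l.1) ∧
    ¬ ((2 * (z.1 - ρ) ≤ l.1 ∧ l.1 ≤ 2 * (z.1 + ρ)) ∧ (2 * (z.2 - ρ) ≤ l.2 ∧ l.2 ≤ 2 * (z.2 + ρ)) ∧
      (l.1 + l.2) % 2 = 1) := by
  unfold AL; rw [mem_sdiff, mem_HL, mem_Bx]

/-- vertices of the half annulus -/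
def Reg (κ : ℤ) (z : ℤ × ℤ) (ρ R : ℤ) (w : ℤ × ℤ) : Prop :=
  ht κ z ≤ ht κ w ∧ (|w.1 - z.1| ≤ R ∧ |w.2 - z.2| ≤ R) ∧ (ρ ≤ |w.1 - z.1| ∨ ρ ≤ |w.2 - z.2|)

/-- wall vertices on the side `s` (`1` right, `-1` left) -/
def WS (κ : ℤ) (z : ℤ × ℤ) (s : ℤ) (w : ℤ × ℤ) : Prop := ht κ w = ht κ z ∧ 0 < s * (w.1 - z.1)

/-- near and far vertices -/
def Near (z : ℤ × ℤ) (ρ : ℤ) (u : ℤ × ℤ) : Prop := |u.1 - z.1| ≤ ρ ∧ |u.2 - z.2| ≤ ρ

def Far (z : ℤ × ℤ) (R : ℤ) (v : ℤ × ℤ) : Prop := R ≤ |v.1 - z.1| ∨ R ≤ |v.2 - z.2|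

lemma Ad.reg {κ : ℤ} (hκ : κ = 0 ∨ κ = 1) {z : ℤ × ℤ} {ρ R : ℤ} {η : Finset (ℤ × ℤ)}
    (hη : η ⊆ AL κ z ρ R) {u v : ℤ × ℤ} (h : Ad η u v) : Reg κ z ρ R u ∧ Reg κ z ρ R v := by
  have h1 := unit_cases h.1
  have h2 := mem_AL.1 (hη h.2)
  simp only [Prod.fst_add, Prod.snd_add] at h2
  unfold Reg ht
  simp only [abs_le, le_abs]
  rcases hκ with rfl | rfl <;> simp only [zero_mul, one_mul, add_zero] at h2 ⊢ <;> omega

lemma Co.reg {κ : ℤ} (hκ : κ = 0 ∨ κ = 1) {z : ℤ × ℤ} {ρ R : ℤ} {η : Finset (ℤ × ℤ)}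
    (hη : η ⊆ AL κ z ρ R) {u v : ℤ × ℤ} (h : Co η u v) (hne : u ≠ v) :
    Reg κ z ρ R u ∧ ∀ w, Co η u w → Reg κ z ρ R w := by
  have h0 : Reg κ z ρ R u := by
    rcases Relation.ReflTransGen.cases_head h with h1 | ⟨c, h1, -⟩
    · exact absurd h1 hne
    · exact (Ad.reg hκ hη h1).1
  refine ⟨h0, fun w hw => ?_⟩
  induction hw with
  | refl => exact h0
  | tail _ hbc _ => exact (Ad.reg hκ hη hbc).2

lemma Co.reg' {κ : ℤ} (hκ : κ = 0 ∨ κ = 1) {z : ℤ × ℤ} {ρ R : ℤ} {η : Finset (ℤ × ℤ)}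
    (hη : η ⊆ AL κ z ρ R) {u v : ℤ × ℤ} (h : Co η u v) (hu : Reg κ z ρ R u) : Reg κ z ρ R v := by
  by_cases h1 : u = v
  · rwa [← h1]
  · exact (Co.reg hκ hη h h1).2 v h

/-- paths as sequences of vertices of a set -/
def Pth (A : ℤ × ℤ → Prop) (p q : ℤ × ℤ) : Prop :=
  Relation.ReflTransGen (fun a b => IsUnit4 (b - a) ∧ A b) p q

lemma Pth.mono {A B : ℤ × ℤ → Prop} (h : ∀ w, A w → B w) {p q : ℤ × ℤ} (hp : Pth A p q) :
    Pth B p q := by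
  induction hp with
  | refl => exact Relation.ReflTransGen.refl
  | tail _ hbc ih => exact ih.tail ⟨hbc.1, h _ hbc.2⟩

lemma Pth.symm {A : ℤ × ℤ → Prop} {p q : ℤ × ℤ} (hp : Pth A p q) (h : A p) : Pth A q p := by
  have key : ∀ q, Pth A p q → A q ∧ Pth A q p := by
    intro q hq
    induction hq with
    | refl => exact ⟨h, Relation.ReflTransGen.refl⟩
    | @tail b c _ hbc ih =>
      refine ⟨hbc.2, Relation.ReflTransGen.head ⟨?_, ih.1⟩ ih.2⟩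
      have := isUnit4_neg hbc.1
      rwa [neg_sub] at this
  exact (key q hp).2

lemma Pth.king {A : ℤ × ℤ → Prop} {p q : ℤ × ℤ} (h : Pth A p q) :
    Relation.ReflTransGen (fun u v => King (v - u) ∧ A v) p q := by
  induction h with
  | refl => exact Relation.ReflTransGen.refl
  | tail _ hbc ih => exact ih.tail ⟨hbc.1.king, hbc.2⟩

lemma Co.pth {η : Finset (ℤ × ℤ)} {p q : ℤ × ℤ} (h : Co η p q) : Pth (fun w => Co η p w) p q := by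
  induction h with
  | refl => exact Relation.ReflTransGen.refl
  | tail hab hbc ih => exact ih.tail ⟨hbc.1, hab.tail hbc⟩

lemma line_v {A : ℤ × ℤ → Prop} {x y y' : ℤ} (hyy : y ≤ y')
    (h : ∀ t, y ≤ t → t ≤ y' → A (x, t)) : Pth A (x, y) (x, y') := by
  have key : ∀ n : ℕ, y + n ≤ y' → Pth A (x, y) (x, y + n) := by
    intro n
    induction n with
    | zero =>
      intro _
      rw [Nat.cast_zero, add_zero]
      exact Relation.ReflTransGen.refl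
    | succ n ih =>
      intro hn
      push_cast at hn ⊢
      refine (ih (by omega)).tail ⟨?_, h _ (by omega) (by omega)⟩
      unfold IsUnit4
      simp only [Prod.ext_iff, Prod.fst_sub, Prod.snd_sub]
      omega
  have := key (y' - y).toNat (by omega)
  rwa [Int.toNat_of_nonneg (by omega), show y + (y' - y) = y' by ring] at this

lemma line_h {A : ℤ × ℤ → Prop} {x x' y : ℤ} (hxx : x ≤ x')
    (h : ∀ t, x ≤ t → t ≤ x' → A (t, y)) : Pth A (x, y) (x', y) := by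
  have key : ∀ n : ℕ, x + n ≤ x' → Pth A (x, y) (x + n, y) := by
    intro n
    induction n with
    | zero =>
      intro _
      rw [Nat.cast_zero, add_zero]
      exact Relation.ReflTransGen.refl
    | succ n ih =>
      intro hn
      push_cast at hn ⊢
      refine (ih (by omega)).tail ⟨?_, h _ (by omega) (by omega)⟩
      unfold IsUnit4
      simp only [Prod.ext_iff, Prod.fst_sub, Prod.snd_sub]
      omega
  have := key (x' - x).toNat (by omega)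
  rwa [Int.toNat_of_nonneg (by omega), show x + (x' - x) = x' by ring] at this

/-- lines in any direction -/
lemma line_v' {A : ℤ × ℤ → Prop} {x y y' : ℤ}
    (h : ∀ t, min y y' ≤ t → t ≤ max y y' → A (x, t)) : Pth A (x, y) (x, y') := by
  rcases le_total y y' with h1 | h1
  · exact line_v h1 fun t h2 h3 => h t (by omega) (by omega)
  · exact (line_v h1 fun t h2 h3 => h t (by omega) (by omega)).symm (h _ (by omega) (by omega))

lemma line_h' {A : ℤ × ℤ → Prop} {x x' y : ℤ}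
    (h : ∀ t, min x x' ≤ t → t ≤ max x x' → A (t, y)) : Pth A (x, y) (x', y) := by
  rcases le_total x x' with h1 | h1
  · exact line_h h1 fun t h2 h3 => h t (by omega) (by omega)
  · exact (line_h h1 fun t h2 h3 => h t (by omega) (by omega)).symm (h _ (by omega) (by omega))

/-- crossing lemma, the vertical path may make king steps -/
lemma cross_set' {A B : ℤ × ℤ → Prop} {a b c d : ℤ} {p q r s : ℤ × ℤ}
    (hP : Pth A p q) (hp : A p)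
    (hQ : Relation.ReflTransGen (fun u v => King (v - u) ∧ B v) r s) (hr : B r)
    (hA : ∀ z, A z → c ≤ z.2 ∧ z.2 ≤ d) (hB : ∀ z, B z → a ≤ z.1 ∧ z.1 ≤ b)
    (hp1 : p.1 = a) (hq1 : q.1 = b) (hr2 : r.2 = c) (hs2 : s.2 = d) :
    ∃ z, A z ∧ B z := by
  have h1 : Relation.ReflTransGen (fun u v : ℤ × ℤ => King (v - u) ∧ B (v.2, v.1)) (r.2, r.1)
      (s.2, s.1) := by
    refine Relation.ReflTransGen.lift (fun u : ℤ × ℤ => ((u.2, u.1) : ℤ × ℤ)) ?_ _ _ hQ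
    intro u v h
    refine ⟨?_, h.2⟩
    have := h.1
    unfold King at this ⊢
    simp only [Prod.fst_sub, Prod.snd_sub] at this ⊢
    exact ⟨this.2, this.1⟩
  have h2 : Relation.ReflTransGen (fun u v : ℤ × ℤ => IsUnit4 (v - u) ∧ A (v.2, v.1)) (p.2, p.1)
      (q.2, q.1) := by
    refine Relation.ReflTransGen.lift (fun u : ℤ × ℤ => ((u.2, u.1) : ℤ × ℤ)) ?_ _ _ hP
    intro u v h
    refine ⟨?_, h.2⟩
    have h3 := unit_cases h.1
    unfold IsUnit4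
    simp only [Prod.ext_iff, Prod.fst_sub, Prod.snd_sub]
    omega
  obtain ⟨z, hz1, hz2⟩ := cross_set (A := fun v => B (v.2, v.1)) (B := fun v => A (v.2, v.1))
    (a := c) (b := d) (c := a) (d := b) h1 hr h2 hp (fun z hz => hB _ hz) (fun z hz => hA _ hz)
    hr2 hs2 hp1 hq1
  exact ⟨(z.2, z.1), hz2, hz1⟩

lemma PL_wall {κ : ℤ} (hκ : κ = 0 ∨ κ = 1) {z p : ℤ × ℤ} {ρ R s : ℤ} (hρ : 1 ≤ ρ)
    (hs : s = 1 ∨ s = -1) (rp : Reg κ z ρ R p) (hp : WS κ z s p) :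
    ρ ≤ s * (p.1 - z.1) ∧ s * (p.1 - z.1) ≤ R ∧ z.2 - R ≤ p.2 ∧ p.2 ≤ z.2 + R ∧
      p.2 = z.2 - κ * (p.1 - z.1) := by
  unfold WS ht at hp
  unfold Reg ht at rp
  simp only [abs_le, le_abs] at rp
  rcases hκ with rfl | rfl <;> rcases hs with rfl | rfl <;> omega

lemma PL_far {κ : ℤ} (hκ : κ = 0 ∨ κ = 1) {z v : ℤ × ℤ} {ρ R : ℤ} (hρ : 1 ≤ ρ)
    (rv : Reg κ z ρ R v) (hv : Far z R v) :
    (z.1 - R ≤ v.1 ∧ v.1 ≤ z.1 + R ∧ z.2 - R ≤ v.2 ∧ v.2 ≤ z.2 + R) ∧ (v.2 = z.2 + R ∨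
      v.1 = z.1 + R ∨ v.1 = z.1 - R) := by
  unfold Far at hv
  unfold Reg ht at rv
  simp only [abs_le, le_abs] at rv hv
  rcases hκ with rfl | rfl <;> omega

lemma PL_reg {κ : ℤ} (hκ : κ = 0 ∨ κ = 1) {z v : ℤ × ℤ} {ρ R : ℤ} (rv : Reg κ z ρ R v) :
    (z.1 - R ≤ v.1 ∧ v.1 ≤ z.1 + R ∧ z.2 - R ≤ v.2 ∧ v.2 ≤ z.2 + R) ∧
      ¬ (|v.1 - z.1| < ρ ∧ |v.2 - z.2| < ρ) ∧ (v.1 = z.1 → z.2 ≤ v.2) ∧
      z.2 - κ * (v.1 - z.1) ≤ v.2 := by
  unfold Reg ht at rv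
  simp only [abs_le, le_abs] at rv
  rcases hκ with rfl | rfl
  · refine ⟨by omega, ?_, by omega, by omega⟩
    rw [abs_lt, abs_lt]; omega
  · refine ⟨by omega, ?_, by omega, by omega⟩
    rw [abs_lt, abs_lt]; omega

/-- the radial part -/
lemma PL_rad {z : ℤ × ℤ} {ρ R : ℤ} (hρ : 1 ≤ ρ) (_hρR : ρ ≤ R)
    {B : ℤ × ℤ → Prop} {u v : ℤ × ℤ} (hB : Pth B u v) (hBu : B u)
    (hu : Near z ρ u)
    (hv : (z.1 - R ≤ v.1 ∧ v.1 ≤ z.1 + R ∧ z.2 - R ≤ v.2 ∧ v.2 ≤ z.2 + R) ∧ (v.2 = z.2 + R ∨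
      v.1 = z.1 + R ∨ v.1 = z.1 - R)) :
    ∃ s : ℤ × ℤ, s.2 = z.2 + R + 1 ∧
      Relation.ReflTransGen (fun u v => King (v - u) ∧ (fun w : ℤ × ℤ => B w ∨
        (|w.1 - z.1| < ρ ∧ |w.2 - z.2| < ρ) ∨
        (w.1 = z.1 ∧ w.2 ≤ z.2) ∨ ((z.1 - R - 1 ≤ w.1 ∧ w.1 ≤ z.1 + R + 1) ∧ w.2 = z.2 + R + 1) ∨
        ((w.1 = z.1 - R - 1 ∨ w.1 = z.1 + R + 1) ∧ z.2 - R - 1 < w.2)) v) (z.1, z.2 - R - 1) s := by
  set B' : ℤ × ℤ → Prop := fun w => B w ∨ (|w.1 - z.1| < ρ ∧ |w.2 - z.2| < ρ) ∨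
    (w.1 = z.1 ∧ w.2 ≤ z.2) ∨ ((z.1 - R - 1 ≤ w.1 ∧ w.1 ≤ z.1 + R + 1) ∧ w.2 = z.2 + R + 1) ∨
    ((w.1 = z.1 - R - 1 ∨ w.1 = z.1 + R + 1) ∧ z.2 - R - 1 < w.2) with hB'
  have hin : ∀ x y : ℤ, |x - z.1| < ρ → |y - z.2| < ρ → B' (x, y) := fun x y h1 h2 =>
    Or.inr (Or.inl ⟨h1, h2⟩)
  have s1 : Pth B' (z.1, z.2 - R - 1) (z.1, z.2) :=
    line_v (by omega) fun t h1 h2 => Or.inr (Or.inr (Or.inl ⟨rfl, h2⟩))
  obtain ⟨u1, u2, hu1, hu2, hk⟩ : ∃ u1 u2 : ℤ, |u1 - z.1| < ρ ∧ |u2 - z.2| < ρ ∧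
      King (u - (u1, u2)) := by
    unfold Near at hu
    rw [abs_le, abs_le] at hu
    refine ⟨max (z.1 - ρ + 1) (min u.1 (z.1 + ρ - 1)), max (z.2 - ρ + 1) (min u.2 (z.2 + ρ - 1)),
      ?_, ?_, ?_⟩
    · rw [abs_lt]; omega
    · rw [abs_lt]; omega
    · unfold King
      simp only [Prod.fst_sub, Prod.snd_sub]
      omega
  have s2 : Pth B' (z.1, z.2) (u1, z.2) := line_h' fun t h1 h2 => hin _ _
    (by rw [abs_lt] at hu1 ⊢; omega) (by rw [abs_lt]; omega)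
  have s3 : Pth B' (u1, z.2) (u1, u2) := line_v' fun t h1 h2 => hin _ _
    hu1 (by rw [abs_lt] at hu2 ⊢; omega)
  have s4 : Relation.ReflTransGen (fun u v => King (v - u) ∧ B' v) (u1, u2) u :=
    Relation.ReflTransGen.single ⟨hk, Or.inl hBu⟩
  have s5 : Pth B' u v := hB.mono fun w hw => Or.inl hw
  have s6 : ∃ s : ℤ × ℤ, s.2 = z.2 + R + 1 ∧ Pth B' v s := by
    obtain ⟨hv1, hv2⟩ := hv
    rcases hv2 with h | h | h
    · refine ⟨(v.1, z.2 + R + 1), rfl, Relation.ReflTransGen.single ⟨?_, ?_⟩⟩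
      · unfold IsUnit4
        simp only [Prod.ext_iff, Prod.fst_sub, Prod.snd_sub]
        omega
      · exact Or.inr (Or.inr (Or.inr (Or.inl ⟨by simp only; omega, rfl⟩)))
    · refine ⟨(z.1 + R + 1, z.2 + R + 1), rfl, ?_⟩
      refine Relation.ReflTransGen.head (b := (z.1 + R + 1, v.2)) ⟨?_, ?_⟩ ?_
      · unfold IsUnit4
        simp only [Prod.ext_iff, Prod.fst_sub, Prod.snd_sub]
        omega
      · exact Or.inr (Or.inr (Or.inr (Or.inr ⟨Or.inr rfl, by simp only; omega⟩)))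
      · exact line_v (by omega) fun t h1 h2 =>
          Or.inr (Or.inr (Or.inr (Or.inr ⟨Or.inr rfl, by simp only; omega⟩)))
    · refine ⟨(z.1 - R - 1, z.2 + R + 1), rfl, ?_⟩
      refine Relation.ReflTransGen.head (b := (z.1 - R - 1, v.2)) ⟨?_, ?_⟩ ?_
      · unfold IsUnit4
        simp only [Prod.ext_iff, Prod.fst_sub, Prod.snd_sub]
        omega
      · exact Or.inr (Or.inr (Or.inr (Or.inr ⟨Or.inl rfl, by simp only; omega⟩)))
      · exact line_v (by omega) fun t h1 h2 =>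
          Or.inr (Or.inr (Or.inr (Or.inr ⟨Or.inl rfl, by simp only; omega⟩)))
  obtain ⟨s, hs, s6⟩ := s6
  exact ⟨s, hs, ((((s1.king.trans s2.king).trans s3.king).trans s4).trans s5.king).trans s6.king⟩

/-- the part along the wall -/
lemma PL_lat {z : ℤ × ℤ} {R : ℤ}
    {A : ℤ × ℤ → Prop} {p p' : ℤ × ℤ} (hA : Pth A p p') (hAp : A p) (hAp' : A p')
    (hp : z.1 - R ≤ p.1 ∧ z.2 - R ≤ p.2) (hp' : p'.1 ≤ z.1 + R ∧ z.2 - R ≤ p'.2) :
    Pth (fun w => A w ∨ (w.2 = z.2 - R - 1 ∧ (w.1 ≤ p.1 ∨ p'.1 ≤ w.1)) ∨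
    (w.1 = p.1 ∧ z.2 - R - 1 ≤ w.2 ∧ w.2 < p.2) ∨ (w.1 = p'.1 ∧ z.2 - R - 1 ≤ w.2 ∧ w.2 < p'.2))
    (z.1 - R - 1, z.2 - R - 1) (z.1 + R + 1, z.2 - R - 1) := by
  set A' : ℤ × ℤ → Prop := fun w => A w ∨ (w.2 = z.2 - R - 1 ∧ (w.1 ≤ p.1 ∨ p'.1 ≤ w.1)) ∨
    (w.1 = p.1 ∧ z.2 - R - 1 ≤ w.2 ∧ w.2 < p.2) ∨ (w.1 = p'.1 ∧ z.2 - R - 1 ≤ w.2 ∧ w.2 < p'.2)
    with hA'
  have s1 : Pth A' (z.1 - R - 1, z.2 - R - 1) (p.1, z.2 - R - 1) :=
    line_h (by omega) fun t h1 h2 => Or.inr (Or.inl ⟨rfl, Or.inl h2⟩)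
  have s2 : Pth A' (p.1, z.2 - R - 1) (p.1, p.2) := by
    refine line_v (by omega) fun t h1 h2 => ?_
    rcases lt_or_eq_of_le h2 with h3 | h3
    · exact Or.inr (Or.inr (Or.inl ⟨rfl, h1, h3⟩))
    · rw [h3]; exact Or.inl hAp
  have s3 : Pth A' p p' := hA.mono fun w hw => Or.inl hw
  have s4 : Pth A' (p'.1, z.2 - R - 1) (p'.1, p'.2) := by
    refine line_v (by omega) fun t h1 h2 => ?_
    rcases lt_or_eq_of_le h2 with h3 | h3
    · exact Or.inr (Or.inr (Or.inr ⟨rfl, h1, h3⟩))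
    · rw [h3]; exact Or.inl hAp'
  have s5 : Pth A' (p'.1, z.2 - R - 1) (z.1 + R + 1, z.2 - R - 1) :=
    line_h (by omega) fun t h1 h2 => Or.inr (Or.inl ⟨rfl, Or.inr h1⟩)
  exact ((s1.trans s2).trans s3).trans
    ((s4.symm (Or.inr (Or.inl ⟨rfl, Or.inr le_rfl⟩))).trans s5)

lemma Pth.last {A : ℤ × ℤ → Prop} {p q : ℤ × ℤ} (h : Pth A p q) (hp : A p) : A q := by
  rcases Relation.ReflTransGen.cases_tail h with h | ⟨c, -, h⟩
  · rw [h]; exact hp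
  · exact h.2

/-- **planarity of the half annulus** -/
theorem PL {κ : ℤ} (hκ : κ = 0 ∨ κ = 1) {z : ℤ × ℤ} {ρ R : ℤ} (hρ : 1 ≤ ρ)
    {A B : ℤ × ℤ → Prop} {p p' u v : ℤ × ℤ} (hA : Pth A p p') (hAp : A p) (hB : Pth B u v) (hBu : B u)
    (hAr : ∀ w, A w → Reg κ z ρ R w) (hBr : ∀ w, B w → Reg κ z ρ R w)
    (hp : WS κ z (-1) p) (hp' : WS κ z 1 p') (hu : Near z ρ u) (hv : Far z R v) :
    ∃ w, A w ∧ B w := by
  have hAp' : A p' := hA.last hAp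
  have hBv : B v := hB.last hBu
  have hP := PL_wall hκ hρ (Or.inr rfl) (hAr p hAp) hp
  have hP' := PL_wall hκ hρ (Or.inl rfl) (hAr p' hAp') hp'
  have hV := PL_far hκ hρ (hBr v hBv) hv
  have hρR : ρ ≤ R := by omega
  have e1 := PL_lat (z := z) (R := R) hA hAp hAp' (by omega) (by omega)
  obtain ⟨s, hs2, e2⟩ := PL_rad hρ hρR hB hBu hu hV
  clear hV hp hp' hu hv
  have hAb : ∀ w, A w → z.2 - R - 1 ≤ w.2 ∧ w.2 ≤ z.2 + R + 1 := fun w h => by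
    have := (PL_reg hκ (hAr w h)).1
    omega
  have hBb : ∀ w, B w → z.1 - R - 1 ≤ w.1 ∧ w.1 ≤ z.1 + R + 1 := fun w h => by
    have := (PL_reg hκ (hBr w h)).1
    omega
  obtain ⟨w, hw1, hw2⟩ := cross_set' (a := z.1 - R - 1) (b := z.1 + R + 1) (c := z.2 - R - 1)
    (d := z.2 + R + 1) e1 (Or.inr (Or.inl ⟨rfl, Or.inl (by simp only; omega)⟩)) e2
    (Or.inr (Or.inr (Or.inl ⟨rfl, by simp only; omega⟩)))
    (by
      rintro w (h | h | h | h)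
      · exact hAb w h
      · omega
      · omega
      · omega)
    (by
      rintro w (h | h | h | h | h)
      · exact hBb w h
      · rw [abs_lt, abs_lt] at h
        omega
      · omega
      · omega
      · omega)
    rfl rfl rfl hs2
  rcases hw1 with h | h | h | h
  · rcases hw2 with h' | h' | h' | h' | h'
    · exact ⟨w, h, h'⟩
    all_goals exfalso
    all_goals have h1 := PL_reg hκ (hAr w h)
    · exact h1.2.1 h'
    · refine h1.2.1 ⟨?_, ?_⟩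
      · rw [abs_lt]; omega
      · rw [abs_lt]; omega
    · omega
    · omega
  all_goals exfalso
  · rcases hw2 with h' | h' | h' | h' | h'
    · have h1 := (PL_reg hκ (hBr w h')).1
      omega
    · rw [abs_lt, abs_lt] at h'
      omega
    · omega
    · omega
    · omega
  · obtain ⟨hP1, hP2, hP3, hP4, hP5⟩ := hP
    clear hP'
    rcases hw2 with h' | h' | h' | h' | h'
    · have h1 := (PL_reg hκ (hBr w h')).2.2.2
      rw [h.1] at h1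
      omega
    · rw [abs_lt, abs_lt] at h'
      omega
    · omega
    · omega
    · omega
  · obtain ⟨hP1, hP2, hP3, hP4, hP5⟩ := hP'
    clear hP
    rcases hw2 with h' | h' | h' | h' | h'
    · have h1 := (PL_reg hκ (hBr w h')).2.2.2
      rw [h.1] at h1
      omega
    · rw [abs_lt, abs_lt] at h'
      omega
    · omega
    · omega
    · omega

end Pool.Agent.H60.Q1
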