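import Mathlib
import Pool.Agent.H60.Q1.Count
import Pool.Agent.H99.NC.PrP

set_option autoImplicit false
open Finset

/-!
# Exploration of the clusters of a set of vertices inside a set of labels; conditional Harris inequality

* `Cl W a η w` : `w` is joined to a vertex of `W` by open labels of `a`;
* `Ux W a η` : the labels of `a` with an end in this set of vertices (a stopping set);
* `fresh_iff` : off the cluster, the connections inside `a` are those by fresh labels;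
* `cond_harris`, `cond_harris_not` : Harris inequality for the fresh labels.
-/

namespace Pool.Agent.H60.Q1

open Pool.Agent.H75.Perc Pool.Agent.H75.TwoArm Pool.Agent.H75.Four Pool.Agent.H99.NC

lemma ends_of {y z : ℤ × ℤ} (h : IsUnit4 (z - y)) :
    (eu (y + z) = y ∧ ev (y + z) = z) ∨ (eu (y + z) = z ∧ ev (y + z) = y) := by
  have h1 := unit_cases h
  unfold eu ev
  simp only [Prod.ext_iff, Prod.fst_add, Prod.snd_add]
  omega

/-- vertices joined to `W` inside `a` -/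
def Cl (W : ℤ × ℤ → Prop) (a η : Finset (ℤ × ℤ)) (w : ℤ × ℤ) : Prop :=
  ∃ w0, W w0 ∧ Co (η ∩ a) w0 w

open Classical in
/-- labels of `a` with an end in the cluster of `W` -/
noncomputable def Ux (W : ℤ × ℤ → Prop) (a η : Finset (ℤ × ℤ)) : Finset (ℤ × ℤ) :=
  a.filter (fun l => Cl W a η (eu l) ∨ Cl W a η (ev l))

variable {W : ℤ × ℤ → Prop} {a η ω ω' : Finset (ℤ × ℤ)}

lemma Cl.self {w : ℤ × ℤ} (h : W w) : Cl W a η w := ⟨w, h, Co.refl _ _⟩

lemma Cl.trans {u v : ℤ × ℤ} (h : Cl W a η u) (h' : Co (η ∩ a) u v) : Cl W a η v := by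
  obtain ⟨w0, h1, h2⟩ := h
  exact ⟨w0, h1, Relation.ReflTransGen.trans h2 h'⟩

lemma Cl.back {u v : ℤ × ℤ} (h : Cl W a η v) (h' : Co (η ∩ a) u v) : Cl W a η u := h.trans h'.symm

lemma mem_Ux {l : ℤ × ℤ} : l ∈ Ux W a η ↔ l ∈ a ∧ (Cl W a η (eu l) ∨ Cl W a η (ev l)) := by
  classical
  unfold Ux
  rw [mem_filter]

lemma mem_Ux_of {u v : ℤ × ℤ} (h : IsUnit4 (v - u)) : u + v ∈ Ux W a η ↔
    u + v ∈ a ∧ (Cl W a η u ∨ Cl W a η v) := by
  rw [mem_Ux]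
  rcases ends_of h with ⟨h1, h2⟩ | ⟨h1, h2⟩ <;> rw [h1, h2]
  tauto

lemma Ux_sub : Ux W a η ⊆ a := fun _ hl => (mem_Ux.1 hl).1

lemma Cl_mix {w : ℤ × ℤ} : Cl W a (mix (Ux W a ω) ω ω') w ↔ Cl W a ω w := by
  constructor
  · rintro ⟨w0, h0, h⟩
    induction h with
    | refl => exact Cl.self h0
    | @tail b c _ hbc ih =>
      obtain ⟨h1, h2⟩ := mem_inter.1 hbc.2
      have h3 : b + c ∈ Ux W a ω := (mem_Ux_of hbc.1).2 ⟨h2, Or.inl ih⟩
      rw [mem_mix] at h1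
      have h4 : b + c ∈ ω := by tauto
      exact ih.trans (Co.refl _ _ |>.tail ⟨hbc.1, mem_inter.2 ⟨h4, h2⟩⟩)
  · rintro ⟨w0, h0, h⟩
    refine ⟨w0, h0, ?_⟩
    induction h with
    | refl => exact Co.refl _ _
    | @tail b c hab hbc ih =>
      obtain ⟨h1, h2⟩ := mem_inter.1 hbc.2
      have h3 : b + c ∈ Ux W a ω := (mem_Ux_of hbc.1).2 ⟨h2, Or.inl ⟨w0, h0, hab⟩⟩
      refine ih.tail ⟨hbc.1, mem_inter.2 ⟨?_, h2⟩⟩
      rw [mem_mix]
      exact Or.inl ⟨h1, h3⟩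

lemma Ux_mix : Ux W a (mix (Ux W a ω) ω ω') = Ux W a ω := by
  ext l
  rw [mem_Ux, mem_Ux, Cl_mix, Cl_mix]

/-- off the cluster the connections are by fresh labels -/
lemma fresh_iff {u v : ℤ × ℤ} (hu : ¬ Cl W a ω u) :
    Co (mix (Ux W a ω) ω ω' ∩ a) u v ↔ Co (ω' ∩ (a \ Ux W a ω)) u v := by
  constructor
  · intro h
    induction h with
    | refl => exact Co.refl _ _
    | @tail b c hab hbc ih =>
      obtain ⟨h1, h2⟩ := mem_inter.1 hbc.2
      have hb : ¬ Cl W a ω b := fun h => hu (Cl_mix.1 ((Cl_mix (ω' := ω').2 h).back hab))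
      have hc : ¬ Cl W a ω c := fun h =>
        hu (Cl_mix.1 ((Cl_mix (ω' := ω').2 h).back (Relation.ReflTransGen.tail hab hbc)))
      have h3 : b + c ∉ Ux W a ω := by
        rw [mem_Ux_of hbc.1]
        tauto
      rw [mem_mix] at h1
      refine ih.tail ⟨hbc.1, mem_inter.2 ⟨by tauto, mem_sdiff.2 ⟨h2, h3⟩⟩⟩
  · intro h
    refine h.mono fun l hl => ?_
    obtain ⟨h1, h2⟩ := mem_inter.1 hl
    obtain ⟨h3, h4⟩ := mem_sdiff.1 h2
    exact mem_inter.2 ⟨mem_mix.2 (Or.inr ⟨h1, h4⟩), h3⟩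

lemma fresh_self {u v : ℤ × ℤ} (hu : ¬ Cl W a ω u) :
    Co (ω ∩ a) u v ↔ Co (ω ∩ (a \ Ux W a ω)) u v := by
  have h := fresh_iff (ω' := ω) (v := v) hu
  have h1 : mix (Ux W a ω) ω ω = ω := by
    ext l
    rw [mem_mix]
    tauto
  rwa [h1] at h

/-! ### conditional Harris -/

variable {α : Type*} [DecidableEq α]

theorem cond_harris {q : α → ℝ} (hq : Pb q) (E : Finset α) (U : Finset α → Finset α)
    (hU : ∀ ω ω', ω ⊆ E → ω' ⊆ E → U (mix (U ω) ω ω') = U ω)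
    (A B : Finset α → Prop) (A' B' : Finset α → Finset α → Prop)
    (hA : ∀ ω ω', ω ⊆ E → ω' ⊆ E → (A (mix (U ω) ω ω') ↔ A' ω ω'))
    (hB : ∀ ω ω', ω ⊆ E → ω' ⊆ E → (B (mix (U ω) ω ω') ↔ B' ω ω'))
    (iA : ∀ ω, Inc (A' ω)) (iB : ∀ ω, Inc (B' ω)) {c : ℝ}
    (hc : ∀ ω, ω ⊆ E → c ≤ PrP q E (B' ω)) :
    c * PrP q E A ≤ PrP q E (fun ω => A ω ∧ B ω) := by
  have h1 : PrP q E A = Ex q E (fun ω => PrP q E (A' ω)) := by
    unfold PrP
    rw [← Ex_resample1 q E U hU (fun ω => ind (A ω))]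
    exact Ex_congr fun ω hω => Ex_congr fun ω' hω' => ind_congr (hA ω ω' hω hω')
  have h2 : PrP q E (fun ω => A ω ∧ B ω) = Ex q E (fun ω => PrP q E (fun ω' => A' ω ω' ∧ B' ω ω')) := by
    unfold PrP
    rw [← Ex_resample1 q E U hU (fun ω => ind (A ω ∧ B ω))]
    exact Ex_congr fun ω hω => Ex_congr fun ω' hω' =>
      ind_congr (and_congr (hA ω ω' hω hω') (hB ω ω' hω hω'))
  rw [h1, h2, ← Ex_smul]
  refine Ex_mono hq fun ω hω => ?_
  have h3 := PrP_harris hq E (iA ω) (iB ω)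
  have h4 := mul_le_mul_of_nonneg_right (hc ω hω) (PrP_nonneg hq E (A' ω))
  linarith [mul_comm (PrP q E (A' ω)) (PrP q E (B' ω))]

theorem cond_harris_not {q : α → ℝ} (hq : Pb q) (E : Finset α) (U : Finset α → Finset α)
    (hU : ∀ ω ω', ω ⊆ E → ω' ⊆ E → U (mix (U ω) ω ω') = U ω)
    (A B : Finset α → Prop) (A' B' : Finset α → Finset α → Prop)
    (hA : ∀ ω ω', ω ⊆ E → ω' ⊆ E → (A (mix (U ω) ω ω') ↔ A' ω ω'))
    (hB : ∀ ω ω', ω ⊆ E → ω' ⊆ E → (B (mix (U ω) ω ω') ↔ B' ω ω'))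
    (iA : ∀ ω, Inc (A' ω)) (iB : ∀ ω, Inc (B' ω)) {δ : ℝ}
    (hc : ∀ ω, ω ⊆ E → PrP q E (fun ω' => ¬ B' ω ω') ≤ δ) :
    PrP q E (fun ω => A ω ∧ ¬ B ω) ≤ δ * PrP q E A := by
  have h1 := cond_harris hq E U hU A B A' B' hA hB iA iB (c := 1 - δ) (fun ω hω => by
    have h2 := hc ω hω
    rw [PrP_not] at h2
    linarith)
  have h3 : PrP q E A = PrP q E (fun ω => A ω ∧ B ω) + PrP q E (fun ω => A ω ∧ ¬ B ω) := by
    rw [← PrP_add_disj (fun ω _ h h' => h'.2 h.2)]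
    exact PrP_congr fun ω _ => by tauto
  linarith

end Pool.Agent.H60.Q1
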