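import Mathlib
import Pool.Agent.H60.Q1.Expl

set_option autoImplicit false
open Finset

/-! Counting, general densities: windows with pairwise disconnected open arms. -/

namespace Pool.Agent.H60.Q1

open Pool.Agent.H75.Perc Pool.Agent.H75.TwoArm Pool.Agent.H75.Four Pool.Agent.H49.Perc
open Pool.Agent.H99.NC

open Classical in
lemma sum_ind {ι : Type*} (T : Finset ι) (P : ι → Prop) :
    ∑ x ∈ T, ind (P x) = ((T.filter P).card : ℝ) := by
  rw [card_eq_sum_ones, sum_filter]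
  push_cast
  exact sum_congr rfl fun x _ => by unfold ind; split_ifs <;> rfl

open Classical in
/-- the expected number of occurrences from the tail of the number of occurrences -/
theorem sum_PrP_le {ι α : Type*} [DecidableEq α] {q : α → ℝ} (hq : Pb q) (T : Finset ι)
    (E : Finset α) (A : ι → Finset α → Prop) {r : ℝ} (h0 : 0 ≤ r) (h1 : r < 1)
    (h : ∀ k : ℕ, PrP q E (fun ω => ∃ t, t ⊆ T ∧ t.card = k ∧ ∀ x ∈ t, A x ω) ≤ r ^ k) :
    ∑ x ∈ T, PrP q E (A x) ≤ r / (1 - r) := by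
  have e2 : ∀ ω, ∑ x ∈ T, ind (A x ω) =
      ∑ k ∈ range T.card, ind (k + 1 ≤ (T.filter (fun x => A x ω)).card) := by
    intro ω
    have h2 : (T.filter (fun x => A x ω)).card ≤ T.card := card_filter_le _ _
    have h3 : (range T.card).filter (fun k => k + 1 ≤ (T.filter (fun x => A x ω)).card) =
        range (T.filter (fun x => A x ω)).card := by
      ext k
      rw [mem_filter, mem_range, mem_range]
      omega
    rw [sum_ind, sum_ind]
    congr 1
    conv_lhs => rw [← card_range (T.filter (fun x => A x ω)).card, ← h3]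
    congr!
  have e3 : ∑ x ∈ T, PrP q E (A x) = ∑ k ∈ range T.card,
      PrP q E (fun ω => k + 1 ≤ (T.filter (fun x => A x ω)).card) := by
    unfold PrP
    rw [← Ex_sum, ← Ex_sum]
    exact Ex_congr fun ω _ => e2 ω
  rw [e3]
  have h6 : ∀ k ∈ range T.card, PrP q E (fun ω => k + 1 ≤ (T.filter (fun x => A x ω)).card) ≤
      r ^ (k + 1) := by
    intro k _
    refine le_trans (PrP_mono hq fun ω _ h7 => ?_) (h (k + 1))
    obtain ⟨t, ht1, ht2⟩ := exists_subset_card_eq h7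
    exact ⟨t, ht1.trans (filter_subset _ _), ht2, fun x hx => (mem_filter.1 (ht1 hx)).2⟩
  refine (sum_le_sum h6).trans ?_
  have h8 : ∑ k ∈ range T.card, r ^ (k + 1) = r * ∑ k ∈ range T.card, r ^ k := by
    rw [mul_sum]
    exact sum_congr rfl fun k _ => by ring
  have h9 := mul_neg_geom_sum r T.card
  have h10 : (0 : ℝ) < 1 - r := by linarith
  rw [h8, le_div_iff₀ h10]
  have h11 : (0 : ℝ) ≤ r ^ T.card := pow_nonneg h0 _
  calc (r * ∑ k ∈ range T.card, r ^ k) * (1 - r) = r * ((1 - r) * ∑ k ∈ range T.card, r ^ k) := by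
        ring
    _ = r * (1 - r ^ T.card) := by rw [h9]
    _ ≤ r * 1 := mul_le_mul_of_nonneg_left (by linarith) h0
    _ = r := mul_one r

/-- Windows `V x` of a ball whose points have open arms inside `Λ` and which are pairwise not
connected in `Λ`: their expected number is bounded by the probability of one arm. -/
theorem count_win {ι : Type*} {q : ℤ × ℤ → ℝ} (hq : Pb q) (E Λ : Finset (ℤ × ℤ)) (o : ℤ × ℤ)
    (ρ M : ℤ) {r : ℝ} (hr : PrP q E (Arm1 o ρ M) ≤ r) (hr1 : r < 1) (T : Finset ι)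
    (V : ι → ℤ × ℤ → Prop) (A : ι → Finset (ℤ × ℤ) → Prop)
    (hV : ∀ x ∈ T, ∀ u, V x u → |u.1 - o.1| ≤ ρ ∧ |u.2 - o.2| ≤ ρ)
    (hfar : ∀ ω, ω ⊆ E → ∀ x ∈ T, A x ω → ∃ u v : ℤ × ℤ, V x u ∧
      (M ≤ |v.1 - o.1| ∨ M ≤ |v.2 - o.2|) ∧ Co (ω ∩ Λ) u v)
    (hsep : ∀ ω, ω ⊆ E → ∀ x ∈ T, ∀ y ∈ T, x ≠ y → A x ω → A y ω → ∀ u v, V x u → V y v →
      ¬ Co (ω ∩ Λ) u v) :
    ∑ x ∈ T, PrP q E (A x) ≤ r / (1 - r) := by
  classical
  have hr0 : 0 ≤ r := (PrP_nonneg hq _ _).trans hr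
  refine sum_PrP_le hq T E A hr0 hr1 fun k => ?_
  refine le_trans (PrP_mono hq fun ω hω h3 => ?_) ((PrP_Arms_le hq E (Arm1_inc o ρ M) k).trans
    (pow_le_pow_left₀ (PrP_nonneg hq _ _) hr k))
  obtain ⟨t, ht1, ht2, ht3⟩ := h3
  set e := (t.equivFinOfCardEq ht2).symm with he
  have hex : ∀ i : Fin k, ∃ u v : ℤ × ℤ, V (e i) u ∧
      (M ≤ |v.1 - o.1| ∨ M ≤ |v.2 - o.2|) ∧ Co (ω ∩ Λ) u v := fun i =>
    hfar ω hω _ (ht1 (e i).2) (ht3 _ (e i).2)
  choose u v h1 h2 h3 using hex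
  refine ⟨fun i => cmp (ω ∩ Λ) (u i), fun i => (cmp_sub _ _).trans inter_subset_left, ?_, ?_⟩
  · intro i j hij
    have hne : ((e i : t) : ι) ≠ (e j : t) := fun h => hij (e.injective (Subtype.ext h))
    exact cmp_disj (hsep ω hω _ (ht1 (e i).2) _ (ht1 (e j).2) hne (ht3 _ (e i).2) (ht3 _ (e j).2)
      _ _ (h1 i) (h1 j))
  · intro i
    have hp := hV _ (ht1 (e i).2) _ (h1 i)
    exact ⟨_, v i, hp.1, hp.2, h2 i, cmp_co (h3 i)⟩

end Pool.Agent.H60.Q1
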