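import Mathlib
import Pool.Agent.H60.Q1.Ann
import Pool.Agent.H60.Q1.CountP
import Pool.Agent.H60.Q1.Half

set_option autoImplicit false
open Finset

/-!
# Three strands at a mark of a flat wall: the hooking and the capping lemma

`X2 κ z ρ R s ω` : some open cluster of the half annulus crosses it and does not touch the wall on the
side `s`. `main_ineq` (general densities): `P(X2) ≤ C P(Gw)` and `count_Gw`: the events `Gw` for windows
along the wall have bounded expected number.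
-/

namespace Pool.Agent.H60.Q1

open Pool.Agent.H75.Perc Pool.Agent.H75.TwoArm Pool.Agent.H75.Four Pool.Agent.H49.Perc
open Pool.Agent.H99.NC

/-- wall vertices of the half annulus, side `s` -/
def Wr (κ : ℤ) (z : ℤ × ℤ) (ρ R s : ℤ) (w : ℤ × ℤ) : Prop := WS κ z s w ∧ Reg κ z ρ R w

/-- an open cluster crosses the half annulus and does not touch the wall on the side `s` -/
def X2 (κ : ℤ) (z : ℤ × ℤ) (ρ R s : ℤ) (ω : Finset (ℤ × ℤ)) : Prop :=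
  ∃ u v, Near z ρ u ∧ Far z R v ∧ Co (ω ∩ AL κ z ρ R) u v ∧
    ¬ Cl (Wr κ z ρ R s) (AL κ z ρ R) ω u

/-- an open path of the half annulus from the left wall to the right wall -/
def RO (κ : ℤ) (z : ℤ × ℤ) (ρ R M : ℤ) (θ : Finset (ℤ × ℤ)) : Prop :=
  ∃ p p', WS κ z (-1) p ∧ WS κ z 1 p' ∧ |p.1 - z.1| ≤ M ∧ |p'.1 - z.1| ≤ M ∧
    Co (θ ∩ AL κ z ρ R) p p'

/-- the crossing cluster is hooked to the wall on the other side -/
def X2L (κ : ℤ) (z : ℤ × ℤ) (ρ R M s : ℤ) (ω : Finset (ℤ × ℤ)) : Prop :=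
  (∃ x v, Wr κ z ρ R (-s) x ∧ |x.1 - z.1| ≤ M ∧ Far z R v ∧ Co (ω ∩ AL κ z ρ R) x v) ∧
    ∀ x, Wr κ z ρ R (-s) x → ¬ Cl (Wr κ z ρ R s) (AL κ z ρ R) ω x

variable {κ : ℤ} {z : ℤ × ℤ} {ρ R M L s : ℤ} {ω ω' : Finset (ℤ × ℤ)}

lemma RO_inc : Inc (RO κ z ρ R M) := by
  rintro ω ω' h ⟨p, p', h1, h2, h3, h4, h5⟩
  exact ⟨p, p', h1, h2, h3, h4, h5.mono (inter_subset_inter_right h)⟩

lemma Cl.reg (hκ : κ = 0 ∨ κ = 1) {w : ℤ × ℤ} (h : Cl (Wr κ z ρ R s) (AL κ z ρ R) ω w) :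
    Reg κ z ρ R w := by
  obtain ⟨w0, h0, h1⟩ := h
  exact Co.reg' hκ inter_subset_right h1 h0.2

lemma near_ne_far (hρR : ρ < R) {u v : ℤ × ℤ} (hu : Near z ρ u) (hv : Far z R v) : u ≠ v := by
  rintro rfl
  unfold Near at hu
  unfold Far at hv
  omega

/-- planarity, for both sides -/
lemma PLs (hκ : κ = 0 ∨ κ = 1) (hρ : 1 ≤ ρ) (hs : s = 1 ∨ s = -1)
    {A B : ℤ × ℤ → Prop} {p p' u v : ℤ × ℤ} (hA : Pth A p p') (hAp : A p) (hB : Pth B u v) (hBu : B u)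
    (hAr : ∀ w, A w → Reg κ z ρ R w) (hBr : ∀ w, B w → Reg κ z ρ R w)
    (hp : WS κ z s p) (hp' : WS κ z (-s) p') (hu : Near z ρ u) (hv : Far z R v) :
    ∃ w, A w ∧ B w := by
  rcases hs with rfl | rfl
  · exact PL hκ hρ (hA.symm hAp) (hA.last hAp) hB hBu hAr hBr hp' hp hu hv
  · exact PL hκ hρ hA hAp hB hBu hAr hBr hp (by simpa using hp') hu hv

/-- a path from the wall `s` to the wall `-s`, with one jump, meets every crossing cluster -/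
lemma PLc (hκ : κ = 0 ∨ κ = 1) (hρ : 1 ≤ ρ) (hρR : ρ < R) (hs : s = 1 ∨ s = -1)
    {u v x y y' : ℤ × ℤ} (hu : Near z ρ u) (hv : Far z R v) (huv : Co (ω ∩ AL κ z ρ R) u v)
    (hx : WS κ z (-s) x) (hy : Cl (Wr κ z ρ R s) (AL κ z ρ R) ω y)
    (hyy : y = y' ∨ IsUnit4 (y' - y)) (hry : Reg κ z ρ R y')
    (hyx : Co (ω ∩ AL κ z ρ R) x y') :
    Cl (Wr κ z ρ R s) (AL κ z ρ R) ω u ∨ Co (ω ∩ AL κ z ρ R) x u := by
  obtain ⟨w0, hw0, hw⟩ := hy
  have hne := near_ne_far hρR hu hv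
  have hBr := (Co.reg hκ inter_subset_right huv hne).2
  have hrx : Reg κ z ρ R x := Co.reg' hκ inter_subset_right hyx.symm hry
  set A : ℤ × ℤ → Prop := fun w => Cl (Wr κ z ρ R s) (AL κ z ρ R) ω w ∨ Co (ω ∩ AL κ z ρ R) x w
    with hA
  have hAr : ∀ w, A w → Reg κ z ρ R w := by
    rintro w (h | h)
    · exact h.reg hκ
    · exact Co.reg' hκ inter_subset_right h hrx
  have p1 : Pth A w0 y := (Co.pth hw).mono fun w h => Or.inl ⟨w0, hw0, h⟩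
  have p2 : Pth A y' x := by
    refine (Co.pth hyx.symm).mono fun w h => Or.inr ?_
    exact Relation.ReflTransGen.trans hyx h
  have p3 : Pth A w0 x := by
    rcases hyy with rfl | h
    · exact p1.trans p2
    · exact (p1.tail ⟨h, Or.inr hyx⟩).trans p2
  obtain ⟨w, h1 | h1, h2⟩ := PLs hκ hρ hs (B := fun w => Co (ω ∩ AL κ z ρ R) u w) p3
    (Or.inl (Cl.self hw0)) (Co.pth huv) (Co.refl _ _) hAr hBr hw0.1 hx hu hv
  · exact Or.inl (h1.back h2)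
  · exact Or.inr (Relation.ReflTransGen.trans h1 h2.symm)

/-- **hooking lemma** -/
theorem hook (hκ : κ = 0 ∨ κ = 1) (hρ : 1 ≤ ρ) (hρR : ρ < R) (hs : s = 1 ∨ s = -1)
    (h : X2 κ z ρ R s ω)
    (hR : RO κ z ρ R M (ω ∪ Ux (Wr κ z ρ R s) (AL κ z ρ R) ω)) : X2L κ z ρ R M s ω := by
  obtain ⟨u, v, hu, hv, huv, hcu⟩ := h
  obtain ⟨p, p', hp, hp', hpM, hpM', hpp⟩ := hR
  set a := AL κ z ρ R with ha
  set θ := ω ∪ Ux (Wr κ z ρ R s) a ω with hθ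
  -- the ends of the ring
  obtain ⟨y, x, hy, hx, hyM, hxM, hxy⟩ : ∃ y x, WS κ z s y ∧ WS κ z (-s) x ∧ |y.1 - z.1| ≤ M ∧
      |x.1 - z.1| ≤ M ∧ Co (θ ∩ a) x y := by
    rcases hs with rfl | rfl
    · exact ⟨p', p, hp', hp, hpM', hpM, hpp⟩
    · exact ⟨p, p', hp, by simpa using hp', hpM, hpM', hpp.symm⟩
  have hxyne : x ≠ y := by
    rintro rfl
    unfold WS at hx hy
    have := hx.2
    rw [neg_mul] at this
    omega
  obtain ⟨hrx, hrw⟩ := Co.reg hκ (inter_subset_right) hxy hxyne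
  have hry := hrw y hxy
  have hfree : ∀ x, Wr κ z ρ R (-s) x → ¬ Cl (Wr κ z ρ R s) a ω x ∨ Co (ω ∩ a) x u := by
    intro x hx
    by_contra hcon
    push_neg at hcon
    rcases PLc hκ hρ hρR hs hu hv huv hx.1 hcon.1 (Or.inl rfl) hx.2 (Co.refl _ _) with h | h
    · exact hcu h
    · exact hcon.2 h
  have hfree' : ∀ x, Wr κ z ρ R (-s) x → ¬ Cl (Wr κ z ρ R s) a ω x := by
    intro x hx hc
    rcases hfree x hx with h | h
    · exact h hc
    · exact hcu (hc.trans h)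
  refine ⟨⟨x, v, ⟨hx, hrx⟩, hxM, hv, ?_⟩, hfree'⟩
  by_contra hcon
  have hxu : ¬ Co (ω ∩ a) x u := fun h => hcon (Relation.ReflTransGen.trans h huv)
  -- walk along the ring
  have key : ∀ w, Co (θ ∩ a) x w → Co (ω ∩ a) x w ∧ ¬ Cl (Wr κ z ρ R s) a ω w := by
    intro w hw
    induction hw with
    | refl => exact ⟨Co.refl _ _, hfree' x ⟨hx, hrx⟩⟩
    | @tail b c hab hbc ih =>
      obtain ⟨h1, h2⟩ := mem_inter.1 hbc.2
      have hc : ¬ Cl (Wr κ z ρ R s) a ω c := by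
        intro hc
        rcases PLc hκ hρ hρR hs hu hv huv hx hc (Or.inr (by
          have := isUnit4_neg hbc.1
          rwa [neg_sub] at this)) (hrw b hab) ih.1 with h | h
        · exact hcu h
        · exact hxu h
      have h3 : b + c ∈ ω := by
        rcases mem_union.1 h1 with h | h
        · exact h
        · exfalso
          rcases ((mem_Ux_of hbc.1).1 h).2 with h | h
          · exact ih.2 h
          · exact hc h
      exact ⟨ih.1.tail ⟨hbc.1, mem_inter.2 ⟨h3, h2⟩⟩, hc⟩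
  exact (key y hxy).2 (Cl.self ⟨hy, hry⟩)

/-! ### the capping lemma -/

/-- the window `ρ ≤ |x - z| ≤ M` on the side `-s` is joined to distance `R` and not to the wall at
distance at least `L` on the side `s`, in the half box -/
def Gw (κ : ℤ) (z : ℤ × ℤ) (ρ R M L s : ℤ) (ω : Finset (ℤ × ℤ)) : Prop :=
  (∃ x v, WS κ z (-s) x ∧ ρ ≤ |x.1 - z.1| ∧ |x.1 - z.1| ≤ M ∧ Far z R v ∧
    Co (ω ∩ HL κ z R) x v) ∧
  ∀ x w, WS κ z (-s) x → ρ ≤ |x.1 - z.1| → |x.1 - z.1| ≤ M → WS κ z s w → L ≤ |w.1 - z.1| →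
    ¬ Co (ω ∩ HL κ z R) x w

/-- the window as a set of vertices -/
def Vw (κ : ℤ) (z : ℤ × ℤ) (ρ R M s : ℤ) (x : ℤ × ℤ) : Prop :=
  Wr κ z ρ R (-s) x ∧ |x.1 - z.1| ≤ M

lemma AL_sub_HL : AL κ z ρ R ⊆ HL κ z R := sdiff_subset

lemma wall_reg (hκ : κ = 0 ∨ κ = 1) {t : ℤ} {x : ℤ × ℤ} (hx : WS κ z t x) (h1 : ρ ≤ |x.1 - z.1|)
    (h2 : |x.1 - z.1| ≤ R) : Reg κ z ρ R x := by
  unfold WS ht at hx
  unfold Reg ht
  have h0 := abs_nonneg (x.1 - z.1)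
  rcases hκ with rfl | rfl
  · refine ⟨by omega, ⟨h2, ?_⟩, Or.inl h1⟩
    rw [show x.2 - z.2 = 0 by omega, abs_zero]
    omega
  · refine ⟨by omega, ⟨h2, ?_⟩, Or.inl h1⟩
    rw [show x.2 - z.2 = -(x.1 - z.1) by omega, abs_neg]
    exact h2

lemma reg_wall (hκ : κ = 0 ∨ κ = 1) (hρ : 1 ≤ ρ) {t : ℤ} {x : ℤ × ℤ} (hx : WS κ z t x)
    (h : Reg κ z ρ R x) : ρ ≤ |x.1 - z.1| := by
  unfold WS ht at hx
  unfold Reg ht at h
  rcases hκ with rfl | rfl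
  · rcases h.2.2 with h1 | h1
    · exact h1
    · rw [show x.2 - z.2 = 0 by omega, abs_zero] at h1
      omega
  · rcases h.2.2 with h1 | h1
    · exact h1
    · rw [show x.2 - z.2 = -(x.1 - z.1) by omega, abs_neg] at h1
      exact h1

theorem cap (hκ : κ = 0 ∨ κ = 1) (hρ : 1 ≤ ρ) (hMR : M ≤ R) (hL : ρ < L)
    (h : X2L κ z ρ R M s ω) (hc : ¬ Arm1 z ρ L ω') :
    Gw κ z ρ R M L s (mix (Ux (Vw κ z ρ R M s) (AL κ z ρ R) ω) ω ω') := by
  obtain ⟨⟨x, v, hx, hxM, hv, hxv⟩, hsep⟩ := h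
  set a := AL κ z ρ R with ha
  set V := Vw κ z ρ R M s with hV
  refine ⟨?_, ?_⟩
  · obtain ⟨x', hx', hx'v⟩ := (Cl_mix (W := V) (a := a) (ω := ω) (ω' := ω')).2
      (⟨x, ⟨hx, hxM⟩, hxv⟩ : Cl V a ω v)
    exact ⟨x', v, hx'.1.1, reg_wall hκ hρ hx'.1.1 hx'.1.2, hx'.2, hv,
      hx'v.mono (inter_subset_inter_left AL_sub_HL)⟩
  · intro x w hx1 hx2 hx3 hw1 hw2 hxw
    have hxV : V x := ⟨⟨hx1, wall_reg hκ hx1 hx2 (hx3.trans hMR)⟩, hx3⟩
    have key : ∀ y, Co (mix (Ux V a ω) ω ω' ∩ HL κ z R) x y →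
        Cl V a ω y ∨ ∃ y0, Near z ρ y0 ∧ Co ω' y0 y := by
      intro y hy
      induction hy with
      | refl => exact Or.inl (Cl.self hxV)
      | @tail b c hab hbc ih =>
        obtain ⟨h1, h2⟩ := mem_inter.1 hbc.2
        by_cases hla : b + c ∈ a
        · rcases ih with ih | ⟨y0, hy0, ih⟩
          · have h3 : b + c ∈ Ux V a ω := (mem_Ux_of hbc.1).2 ⟨hla, Or.inl ih⟩
            rw [mem_mix] at h1
            have h4 : b + c ∈ ω := h1.elim (fun h => h.1) fun h => absurd h3 h.2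
            exact Or.inl (ih.trans ((Co.refl _ _).tail ⟨hbc.1, mem_inter.2 ⟨h4, hla⟩⟩))
          · by_cases hUU : b + c ∈ Ux V a ω
            · rcases ((mem_Ux_of hbc.1).1 hUU).2 with h5 | h5
              · rw [mem_mix] at h1
                have h4 : b + c ∈ ω := h1.elim (fun h => h.1) fun h => absurd hUU h.2
                exact Or.inl (h5.trans ((Co.refl _ _).tail ⟨hbc.1, mem_inter.2 ⟨h4, hla⟩⟩))
              · exact Or.inl h5
            · rw [mem_mix] at h1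
              exact Or.inr ⟨y0, hy0, ih.tail ⟨hbc.1, h1.elim (fun h => absurd h.2 hUU)
                fun h => h.1⟩⟩
        · refine Or.inr ⟨c, ?_, Co.refl _ _⟩
          have h3 : b + c ∈ Bx (z.1 - ρ) (z.1 + ρ) (z.2 - ρ) (z.2 + ρ) := by
            by_contra h3
            exact hla (mem_sdiff.2 ⟨h2, h3⟩)
          rw [mem_Bx] at h3
          have h4 := unit_cases hbc.1
          simp only [Prod.fst_add, Prod.snd_add] at h3
          unfold Near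
          rw [abs_le, abs_le]
          omega
    rcases key w hxw with h1 | ⟨y0, hy0, h1⟩
    · obtain ⟨x0, hx0, h2⟩ := h1
      have hrw : Reg κ z ρ R w := Co.reg' hκ inter_subset_right h2 hx0.1.2
      exact hsep x0 hx0.1 ⟨w, ⟨hw1, hrw⟩, h2.symm⟩
    · exact hc ⟨y0, w, hy0.1, hy0.2, Or.inl hw2, h1⟩

/-! ### probabilities -/

theorem stage1 {q : ℤ × ℤ → ℝ} (hq : Pb q) (E : Finset (ℤ × ℤ)) (hκ : κ = 0 ∨ κ = 1)
    (hρ : 1 ≤ ρ) (hρR : ρ < R) (hs : s = 1 ∨ s = -1) {c : ℝ}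
    (hc : c ≤ PrP q E (RO κ z ρ R M)) :
    c * PrP q E (X2 κ z ρ R s) ≤ PrP q E (X2L κ z ρ R M s) := by
  set W := Wr κ z ρ R s with hW
  set a := AL κ z ρ R with ha
  refine (cond_harris hq E (Ux W a) (fun ω ω' _ _ => Ux_mix) (X2 κ z ρ R s)
    (fun ω => RO κ z ρ R M (ω ∪ Ux W a ω))
    (fun ω ω' => ∃ u v, (Near z ρ u ∧ Far z R v ∧ ¬ Cl W a ω u) ∧
      Co (ω' ∩ (a \ Ux W a ω)) u v)
    (fun ω ω' => RO κ z ρ R M (ω' ∪ Ux W a ω)) ?_ ?_ ?_ ?_ ?_).trans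
    (PrP_mono hq fun ω _ h => hook hκ hρ hρR hs h.1 h.2)
  · intro ω ω' _ _
    unfold X2
    constructor
    · rintro ⟨u, v, h1, h2, h3, h4⟩
      rw [Cl_mix] at h4
      exact ⟨u, v, ⟨h1, h2, h4⟩, (fresh_iff h4).1 h3⟩
    · rintro ⟨u, v, ⟨h1, h2, h4⟩, h3⟩
      refine ⟨u, v, h1, h2, (fresh_iff h4).2 h3, ?_⟩
      rwa [Cl_mix]
  · intro ω ω' _ _
    rw [Ux_mix]
    have : mix (Ux W a ω) ω ω' ∪ Ux W a ω = ω' ∪ Ux W a ω := by
      ext l
      rw [mem_union, mem_union, mem_mix]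
      by_cases hl : l ∈ Ux W a ω
      · exact ⟨fun _ => Or.inr hl, fun _ => Or.inr hl⟩
      · exact ⟨fun h => h.elim (fun h => h.elim (fun h => absurd h.2 hl) fun h => Or.inl h.1)
          fun h => absurd h hl, fun h => h.elim (fun h => Or.inl (Or.inr ⟨h, hl⟩))
          fun h => absurd h hl⟩
    rw [this]
  · rintro ω ω1 ω2 h ⟨u, v, h1, h2⟩
    exact ⟨u, v, h1, h2.mono (inter_subset_inter_right h)⟩
  · intro ω ω1 ω2 h h1
    exact RO_inc _ _ (union_subset_union_left h) h1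
  · intro ω _
    exact hc.trans (PrP_mono hq fun ω' _ h => RO_inc _ _ subset_union_left h)

theorem stage2 {q : ℤ × ℤ → ℝ} (hq : Pb q) (E : Finset (ℤ × ℤ)) (hκ : κ = 0 ∨ κ = 1)
    (hρ : 1 ≤ ρ) (hMR : M ≤ R) (hL : ρ < L) {c : ℝ}
    (hc : c ≤ PrP q E (fun ω => ¬ Arm1 z ρ L ω)) :
    PrP q E (X2L κ z ρ R M s) * c ≤ PrP q E (Gw κ z ρ R M L s) :=
  resampleP hq E (Ux (Vw κ z ρ R M s) (AL κ z ρ R)) (fun ω ω' _ _ => Ux_mix) _ _
    (fun _ ω' => ¬ Arm1 z ρ L ω') c (fun _ _ _ => hc)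
    (fun _ _ _ _ h h' => cap hκ hρ hMR hL h h')

/-- points of the wall -/
def wp (κ : ℤ) (o : ℤ × ℤ) (t : ℤ) : ℤ × ℤ := (o.1 + t, o.2 - κ * t)

/-- the windows along the wall -/
theorem count_Gw {q : ℤ × ℤ → ℝ} (hq : Pb q) (E : Finset (ℤ × ℤ)) (hκ : κ = 0 ∨ κ = 1)
    (hs : s = 1 ∨ s = -1) {o : ℤ × ℤ} {N R0 : ℤ} (hL : 0 < L) (hM : 0 ≤ M) (hN : 0 ≤ N) (hNR : N + M < R0)
    (hR : R0 + N ≤ R) {r : ℝ}
    (hr : PrP q E (Arm1 o (N + M) R0) ≤ r) (hr1 : r < 1) (T : Finset ℤ) (hT : ∀ t ∈ T, |t| ≤ N)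
    (hTd : ∀ t ∈ T, ∀ t' ∈ T, t < t' → M + L ≤ t' - t) :
    ∑ t ∈ T, PrP q E (Gw κ (wp κ o t) ρ R M L s) ≤ r / (1 - r) := by
  have hΛ : ∀ t ∈ T, HL κ o R0 ⊆ HL κ (wp κ o t) R := by
    intro t ht l hl
    have h1 := hT t ht
    rw [abs_le] at h1
    rw [mem_HL] at hl ⊢
    unfold wp
    simp only
    rcases hκ with rfl | rfl <;> omega
  refine count_win hq E (HL κ o R0) o (N + M) R0 hr hr1 T
    (fun t u => WS κ (wp κ o t) (-s) u ∧ ρ ≤ |u.1 - (wp κ o t).1| ∧ |u.1 - (wp κ o t).1| ≤ M) _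
    ?_ ?_ ?_
  · rintro t ht u ⟨h1, -, h3⟩
    have h4 := hT t ht
    unfold WS Q1.ht wp at h1
    unfold wp at h3
    simp only [abs_le] at h1 h3 h4 ⊢
    rcases hκ with rfl | rfl
    · constructor <;> constructor <;> omega
    · constructor <;> constructor <;> omega
  · rintro ω - t ht ⟨⟨x, v, h1, h2, h3, h4, h5⟩, -⟩
    have h6 := hT t ht
    have hx : |x.1 - o.1| < R0 ∧ |x.2 - o.2| < R0 := by
      unfold WS Q1.ht wp at h1
      unfold wp at h3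
      simp only [abs_le, abs_lt] at h1 h3 h6 ⊢
      rcases hκ with rfl | rfl
      · constructor <;> constructor <;> omega
      · constructor <;> constructor <;> omega
    have hv : R0 ≤ |v.1 - o.1| ∨ R0 ≤ |v.2 - o.2| := by
      unfold Far wp at h4
      simp only [le_abs, abs_le] at h4 h6 ⊢
      rcases hκ with rfl | rfl <;> omega
    obtain ⟨v', hv', hc⟩ := open_exit h5 hx hv
    refine ⟨x, v', ⟨h1, h2, h3⟩, hv', hc.mono ?_⟩
    intro l hl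
    obtain ⟨hl1, hl2⟩ := mem_inter.1 hl
    obtain ⟨hl3, hl4⟩ := mem_inter.1 hl1
    refine mem_inter.2 ⟨hl3, ?_⟩
    rw [mem_Bx] at hl2
    rw [mem_HL] at hl4 ⊢
    unfold wp at hl4
    simp only at hl4
    rcases hκ with rfl | rfl <;> omega
  · rintro ω - t ht t' ht' hne hA hA' u v ⟨hu1, hu2, hu3⟩ ⟨hv1, hv2, hv3⟩ huv
    have aux : ∀ t ∈ T, ∀ t' ∈ T, t < t' → ∀ u v : ℤ × ℤ,
        (WS κ (wp κ o t) (-s) u ∧ ρ ≤ |u.1 - (wp κ o t).1| ∧ |u.1 - (wp κ o t).1| ≤ M) →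
        (WS κ (wp κ o t') (-s) v ∧ ρ ≤ |v.1 - (wp κ o t').1| ∧ |v.1 - (wp κ o t').1| ≤ M) →
        Gw κ (wp κ o t) ρ R M L s ω → Gw κ (wp κ o t') ρ R M L s ω →
        ¬ Co (ω ∩ HL κ o R0) u v := by
      rintro t ht t' ht' hlt u v ⟨hu1, hu2, hu3⟩ ⟨hv1, hv2, hv3⟩ hA hA' huv
      have hd := hTd t ht t' ht' hlt
      rcases hs with rfl | rfl
      · -- the side `s = 1` is the right wall: use the left window
        refine hA.2 u v hu1 hu2 hu3 ?_ ?_ (huv.mono (inter_subset_inter_left (hΛ t ht)))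
        · unfold WS Q1.ht wp at hu1 hv1 ⊢
          unfold wp at hv3
          simp only [abs_le] at hu1 hv1 hv3 ⊢
          rcases hκ with rfl | rfl
          · constructor <;> omega
          · constructor <;> omega
        · unfold wp at hv3 ⊢
          simp only [abs_le, le_abs] at hv3 ⊢
          omega
      · refine hA'.2 v u hv1 hv2 hv3 ?_ ?_ (huv.symm.mono (inter_subset_inter_left (hΛ t' ht')))
        · unfold WS Q1.ht wp at hu1 hv1 ⊢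
          unfold wp at hu3
          simp only [abs_le] at hu1 hv1 hu3 ⊢
          rcases hκ with rfl | rfl
          · constructor <;> omega
          · constructor <;> omega
        · unfold wp at hu3 ⊢
          simp only [abs_le, le_abs] at hu3 ⊢
          omega
    rcases lt_or_gt_of_ne hne with h | h
    · exact aux t ht t' ht' h u v ⟨hu1, hu2, hu3⟩ ⟨hv1, hv2, hv3⟩ hA hA' huv
    · exact aux t' ht' t ht h v u ⟨hv1, hv2, hv3⟩ ⟨hu1, hu2, hu3⟩ hA' hA huv.symm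

/-- **window form of the universal exponent of three strands at a mark, general densities** -/
theorem sum_X2_le {q : ℤ × ℤ → ℝ} (hq : Pb q) (E : Finset (ℤ × ℤ)) (hκ : κ = 0 ∨ κ = 1)
    (hs : s = 1 ∨ s = -1) {o : ℤ × ℤ} {N R0 : ℤ} (hρ : 1 ≤ ρ) (hL : ρ < L)
    (hM : 0 ≤ M) (hN : 0 ≤ N) (hNR : N + M < R0) (hR : R0 + N ≤ R) (hρR : ρ < R) {r c1 c2 : ℝ}
    (hr : PrP q E (Arm1 o (N + M) R0) ≤ r) (hr1 : r < 1) (T : Finset ℤ) (hT : ∀ t ∈ T, |t| ≤ N)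
    (hTd : ∀ t ∈ T, ∀ t' ∈ T, t < t' → M + L ≤ t' - t) (hc1 : 0 < c1) (hc2 : 0 < c2)
    (h1 : ∀ t ∈ T, c1 ≤ PrP q E (RO κ (wp κ o t) ρ R M))
    (h2 : ∀ t ∈ T, c2 ≤ PrP q E (fun ω => ¬ Arm1 (wp κ o t) ρ L ω)) :
    ∑ t ∈ T, PrP q E (X2 κ (wp κ o t) ρ R s) ≤ r / (1 - r) / (c1 * c2) := by
  rw [le_div_iff₀ (by positivity), sum_mul]
  refine le_trans (sum_le_sum fun t ht => ?_)
    (count_Gw hq E hκ hs (ρ := ρ) (L := L) (by omega) hM hN hNR hR hr hr1 T hT hTd)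
  have e1 := stage1 hq E hκ hρ hρR hs (h1 t ht)
  have e2 := stage2 (s := s) hq E hκ hρ (by omega : M ≤ R) hL (h2 t ht)
  calc PrP q E (X2 κ (wp κ o t) ρ R s) * (c1 * c2) = c1 * PrP q E (X2 κ (wp κ o t) ρ R s) * c2 := by
        ring
    _ ≤ PrP q E (X2L κ (wp κ o t) ρ R M s) * c2 := mul_le_mul_of_nonneg_right e1 hc2.le
    _ ≤ _ := e2

end Pool.Agent.H60.Q1
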