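import Mathlib
import Pool.Agent.H60.Q1.Win
import Pool.Agent.H99.NC.RingP

set_option autoImplicit false
open Finset

/-! Open half rings at a flat wall: `RO_prob`, all densities at least one half. -/

namespace Pool.Agent.H60.Q1

open Pool.Agent.H75.Perc Pool.Agent.H75.TwoArm Pool.Agent.H75.Four Pool.Agent.H49.Perc
open Pool.Agent.H99.NC

/-- a path from above the wall to below the wall, stopped at the wall -/
lemma wall_exit {κ : ℤ} (hκ : κ = 0 ∨ κ = 1) {z y l : ℤ × ℤ} {θ : Finset (ℤ × ℤ)} (h : Co θ y l)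
    (hy : ht κ z < ht κ y) (hl : ht κ l ≤ ht κ z) :
    ∃ w, ht κ w = ht κ z ∧ Co (θ.filter (fun e => 2 * ht κ z ≤ ht κ e)) y w := by
  obtain ⟨v, v', hv, hv', hvv, hX, -⟩ := exit_co (X := fun v => ht κ z < ht κ v) h hy (by omega)
  have hstep : ∀ b c : ℤ × ℤ, Ad θ b c → ht κ z < ht κ b → ht κ z ≤ ht κ c ∧
      Ad (θ.filter (fun e => 2 * ht κ z ≤ ht κ e)) b c := by
    intro b c hbc hb
    have h1 := unit_cases hbc.1
    have h2 : ht κ z ≤ ht κ c := by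
      unfold ht at hb ⊢
      rcases hκ with rfl | rfl <;> omega
    refine ⟨h2, hbc.1, mem_filter.2 ⟨hbc.2, ?_⟩⟩
    unfold ht at hb h2 ⊢
    simp only [Prod.fst_add, Prod.snd_add]
    rcases hκ with rfl | rfl <;> omega
  have key : ∀ w, CoX θ (fun v => ht κ z < ht κ v) y w → ht κ z < ht κ w ∧
      Co (θ.filter (fun e => 2 * ht κ z ≤ ht κ e)) y w := by
    intro w hw
    induction hw with
    | refl => exact ⟨hy, Co.refl _ _⟩
    | tail _ hbc ih => exact ⟨hbc.2, ih.2.tail (hstep _ _ hbc.1 ih.1).2⟩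
  have h3 := hstep v v' hvv hv
  exact ⟨v', by omega, (key v hX).2.tail h3.2⟩

/-- the last label of a nontrivial path -/
lemma last_label {θ : Finset (ℤ × ℤ)} {y w : ℤ × ℤ} (h : Co θ y w) (hne : y ≠ w) :
    ∃ b, IsUnit4 (w - b) ∧ b + w ∈ θ := by
  rcases Relation.ReflTransGen.cases_tail h with h1 | ⟨b, -, h1⟩
  · exact absurd h1.symm hne
  · exact ⟨b, h1.1, h1.2⟩

lemma RO_of {κ : ℤ} (hκ : κ = 0 ∨ κ = 1) {z : ℤ × ℤ} {ρ R a : ℤ} (hρ : 1 ≤ ρ) (ha : ρ < a)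
    (hR : 3 * a ≤ R) {ω : Finset (ℤ × ℤ)}
    (hT : HC (z.1 - 2 * a) (z.1 + 3 * a) (z.2 + 2 * a) (z.2 + 3 * a) ω)
    (hL : VC (z.1 - 2 * a) (z.1 - a) (z.2 + κ * a) (z.2 + 3 * a) ω)
    (hRt : VC (z.1 + 2 * a) (z.1 + 3 * a) (z.2 - 3 * a * κ) (z.2 + 3 * a) ω) :
    RO κ z ρ R (3 * a) ω := by
  obtain ⟨t, t', t1, t2, t3, t4⟩ := hT
  obtain ⟨l, l', l1, l2, l3, l4⟩ := hL
  obtain ⟨r, r', r1, r2, r3, r4⟩ := hRt
  set BT := Bx (z.1 - 2 * a) (z.1 + 3 * a) (z.2 + 2 * a) (z.2 + 3 * a) with hBT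
  set BL := Bx (z.1 - 2 * a) (z.1 - a) (z.2 + κ * a) (z.2 + 3 * a) with hBL
  set BR' := Bx (z.1 + 2 * a) (z.1 + 3 * a) (z.2 - 3 * a * κ) (z.2 + 3 * a) with hBR
  obtain ⟨x, x1, x2⟩ := cross_co (a := z.1 - 2 * a) (b := z.1 + 3 * a) (c := z.2 + κ * a)
    (d := z.2 + 3 * a) (ω1 := ω ∩ BT) (ω2 := ω ∩ BL)
    (inter_subset_right.trans (Bx_sub le_rfl le_rfl (by rcases hκ with rfl | rfl <;> omega) le_rfl))
    (inter_subset_right.trans (Bx_sub le_rfl (by omega) le_rfl le_rfl))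
    (by unfold inB at t1 ⊢; rcases hκ with rfl | rfl <;> omega) (by unfold inB at l1 ⊢; omega)
    t4 l4 t2 t3 l2 l3
  obtain ⟨y, y1, y2⟩ := cross_co (a := z.1 - 2 * a) (b := z.1 + 3 * a) (c := z.2 - 3 * a * κ)
    (d := z.2 + 3 * a) (ω1 := ω ∩ BT) (ω2 := ω ∩ BR')
    (inter_subset_right.trans (Bx_sub le_rfl le_rfl (by rcases hκ with rfl | rfl <;> omega) le_rfl))
    (inter_subset_right.trans (Bx_sub (by omega) le_rfl le_rfl le_rfl))
    (by unfold inB at t1 ⊢; rcases hκ with rfl | rfl <;> omega) (by unfold inB at r1 ⊢; omega)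
    t4 r4 t2 t3 r2 r3
  have hyT : inB (z.1 - 2 * a) (z.1 + 3 * a) (z.2 + 2 * a) (z.2 + 3 * a) y :=
    y1.inB inter_subset_right t1
  have hyR : inB (z.1 + 2 * a) (z.1 + 3 * a) (z.2 - 3 * a * κ) (z.2 + 3 * a) y :=
    y2.inB inter_subset_right r1
  have hy : ht κ z < ht κ y := by
    unfold inB at hyT hyR
    unfold ht
    rcases hκ with rfl | rfl <;> omega
  -- the left part
  have c1 : Co (ω ∩ (BT ∪ BL)) y l := by
    have e1 : Co (ω ∩ (BT ∪ BL)) t y := y1.mono (inter_subset_inter_left subset_union_left)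
    have e2 : Co (ω ∩ (BT ∪ BL)) t x := x1.mono (inter_subset_inter_left subset_union_left)
    have e3 : Co (ω ∩ (BT ∪ BL)) l x := x2.mono (inter_subset_inter_left subset_union_right)
    exact (Relation.ReflTransGen.trans e1.symm e2).trans e3.symm
  have hl : ht κ l ≤ ht κ z := by
    unfold inB at l1
    unfold ht
    rcases hκ with rfl | rfl <;> omega
  have hr : ht κ r ≤ ht κ z := by
    unfold inB at r1
    unfold ht
    rcases hκ with rfl | rfl <;> omega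
  obtain ⟨w, hw, c2⟩ := wall_exit hκ c1 hy hl
  obtain ⟨w', hw', c3⟩ := wall_exit hκ y2.symm hy hr
  have hyw : y ≠ w := by rintro rfl; omega
  have hyw' : y ≠ w' := by rintro rfl; omega
  -- the positions of the ends
  have pw : z.1 - 2 * a ≤ w.1 ∧ w.1 ≤ z.1 - a := by
    obtain ⟨b, hb1, hb2⟩ := last_label c2 hyw
    have h1 := (mem_inter.1 (mem_filter.1 hb2).1).2
    have h2 := unit_cases hb1
    rw [mem_union, hBT, hBL, mem_Bx, mem_Bx] at h1
    simp only [Prod.fst_add, Prod.snd_add] at h1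
    unfold ht at hw
    rcases hκ with rfl | rfl <;> omega
  have pw' : z.1 + 2 * a ≤ w'.1 ∧ w'.1 ≤ z.1 + 3 * a := by
    obtain ⟨b, hb1, hb2⟩ := last_label c3 hyw'
    have h1 := (mem_inter.1 (mem_filter.1 hb2).1).2
    have h2 := unit_cases hb1
    rw [hBR, mem_Bx] at h1
    simp only [Prod.fst_add, Prod.snd_add] at h1
    omega
  refine ⟨w, w', ⟨hw, by omega⟩, ⟨hw', by omega⟩, by rw [abs_le]; omega, by rw [abs_le]; omega, ?_⟩
  refine Relation.ReflTransGen.trans (c2.symm.mono ?_) (c3.mono ?_)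
  · intro e he
    obtain ⟨h1, h2⟩ := mem_filter.1 he
    obtain ⟨h3, h4⟩ := mem_inter.1 h1
    refine mem_inter.2 ⟨h3, ?_⟩
    rw [mem_union, hBT, hBL, mem_Bx, mem_Bx] at h4
    unfold ht at h2
    rw [mem_AL]
    rcases hκ with rfl | rfl <;> omega
  · intro e he
    obtain ⟨h1, h2⟩ := mem_filter.1 he
    obtain ⟨h3, h4⟩ := mem_inter.1 h1
    refine mem_inter.2 ⟨h3, ?_⟩
    rw [hBR, mem_Bx] at h4
    unfold ht at h2
    rw [mem_AL]
    rcases hκ with rfl | rfl <;> omega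

/-- **open half rings**, all densities at least one half, every domain -/
theorem RO_prob : ∃ c : ℝ, 0 < c ∧ ∀ q : ℤ × ℤ → ℝ, Qh q → ∀ (κ : ℤ), (κ = 0 ∨ κ = 1) →
    ∀ (z : ℤ × ℤ) (ρ R a : ℤ) (E : Finset (ℤ × ℤ)), 1 ≤ ρ → ρ < a → 3 * a ≤ R →
    AL κ z ρ R ⊆ E → c ≤ PrP q E (RO κ z ρ R (3 * a)) := by
  obtain ⟨c, hc, h⟩ := rsw_q 6
  refine ⟨c * c * c, by positivity, fun q hq κ hκ z ρ R a E hρ ha hR hE => ?_⟩
  have hloc : ∀ ω : Finset (ℤ × ℤ), RO κ z ρ R (3 * a) ω ↔ RO κ z ρ R (3 * a) (ω ∩ AL κ z ρ R) := by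
    intro ω
    unfold RO
    rw [inter_assoc, inter_self]
  rw [PrP_local hE fun ω _ => hloc ω]
  set B := Bx (z.1 - 3 * a) (z.1 + 3 * a) (z.2 - 3 * a) (z.2 + 3 * a) with hB
  rw [← PrP_local (E := AL κ z ρ R ∪ B) subset_union_left fun ω _ => hloc ω]
  have h1 := (h q hq (AL κ z ρ R ∪ B) (z.1 - 2 * a) (z.1 + 3 * a) (z.2 + 2 * a) (z.2 + 3 * a)
    (by omega) (by omega) ((Bx_sub (by omega) le_rfl (by omega) le_rfl).trans
      subset_union_right)).1 (by push_cast; omega)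
  have h2 := (h q hq (AL κ z ρ R ∪ B) (z.1 - 2 * a) (z.1 - a) (z.2 + κ * a) (z.2 + 3 * a)
    (by omega) (by rcases hκ with rfl | rfl <;> omega)
    ((Bx_sub (by omega) (by omega) (by rcases hκ with rfl | rfl <;> omega) le_rfl).trans
      subset_union_right)).2 (by push_cast; rcases hκ with rfl | rfl <;> omega)
  have h3 := (h q hq (AL κ z ρ R ∪ B) (z.1 + 2 * a) (z.1 + 3 * a) (z.2 - 3 * a * κ) (z.2 + 3 * a)
    (by omega) (by rcases hκ with rfl | rfl <;> omega)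
    ((Bx_sub (by omega) le_rfl (by rcases hκ with rfl | rfl <;> omega) le_rfl).trans
      subset_union_right)).2 (by push_cast; rcases hκ with rfl | rfl <;> omega)
  have e1 := harris3P hq.pb (AL κ z ρ R ∪ B)
    (HC_inc (z.1 - 2 * a) (z.1 + 3 * a) (z.2 + 2 * a) (z.2 + 3 * a))
    (VC_inc (z.1 - 2 * a) (z.1 - a) (z.2 + κ * a) (z.2 + 3 * a))
    (VC_inc (z.1 + 2 * a) (z.1 + 3 * a) (z.2 - 3 * a * κ) (z.2 + 3 * a))
  have e2 := mul_le_mul (mul_le_mul h1 h2 hc.le (hc.le.trans h1)) h3 hc.le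
    (mul_nonneg (hc.le.trans h1) (hc.le.trans h2))
  exact (e2.trans e1).trans (PrP_mono hq.pb fun ω _ hh =>
    RO_of hκ hρ ha hR hh.1 hh.2.1 hh.2.2)

end Pool.Agent.H60.Q1
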