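import Mathlib
import Pool.Agent.H60.Q1.RingH

set_option autoImplicit false
open Finset

/-! Three strands at a mark of a flat wall: `P ≤ C ρ / R` (`p = 1/2`, both orientations). -/

namespace Pool.Agent.H60.Q1

open Pool.Agent.H75.Perc Pool.Agent.H75.TwoArm Pool.Agent.H75.Four Pool.Agent.H49.Perc
open Pool.Agent.H99.NC

lemma mem_AL_tr {κ : ℤ} (hκ : κ = 0 ∨ κ = 1) {z t : ℤ × ℤ} {ρ R : ℤ} (e : ℤ × ℤ) :
    e ∈ AL κ (z + t) ρ R ↔ (syT t).G' e ∈ AL κ z ρ R := by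
  rw [mem_AL, mem_AL]
  unfold syT
  simp only [Prod.fst_add, Prod.snd_add]
  rcases hκ with rfl | rfl <;> omega

lemma Wr_tr {κ : ℤ} {z t w : ℤ × ℤ} {ρ R s : ℤ} :
    Wr κ (z + t) ρ R s (w + t) ↔ Wr κ z ρ R s w := by
  unfold Wr WS Reg ht
  simp only [Prod.fst_add, Prod.snd_add, add_sub_add_right_eq_sub, mul_add]
  constructor
  · rintro ⟨⟨h1, h2⟩, h3, h4⟩
    exact ⟨⟨by linarith, h2⟩, by linarith, h4⟩
  · rintro ⟨⟨h1, h2⟩, h3, h4⟩
    exact ⟨⟨by linarith, h2⟩, by linarith, h4⟩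

lemma Cl_tr {W W' : ℤ × ℤ → Prop} {a a' ω : Finset (ℤ × ℤ)} {t w : ℤ × ℤ}
    (hW : ∀ w, W' (w + t) ↔ W w) (ha : ∀ e, e ∈ a' ↔ (syT t).G' e ∈ a) :
    Cl W' a' (ω.map (syT t).G) (w + t) ↔ Cl W a ω w := by
  unfold Cl
  rw [(syT t).map_inter ω ha]
  constructor
  · rintro ⟨w0, h0, h1⟩
    refine ⟨w0 - t, ?_, ?_⟩
    · rw [← hW, sub_add_cancel]; exact h0
    · rw [← (syT t).co_iff]
      unfold syT at h1 ⊢
      simp only at h1 ⊢
      rwa [sub_add_cancel]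
  · rintro ⟨w0, h0, h1⟩
    refine ⟨w0 + t, (hW w0).2 h0, ?_⟩
    rw [← (syT t).co_iff] at h1
    exact h1

lemma X2_tr {κ : ℤ} (hκ : κ = 0 ∨ κ = 1) {z t : ℤ × ℤ} {ρ R s : ℤ} {ω : Finset (ℤ × ℤ)} :
    X2 κ (z + t) ρ R s (ω.map (syT t).G) ↔ X2 κ z ρ R s ω := by
  unfold X2
  rw [(syT t).map_inter ω (mem_AL_tr hκ)]
  constructor
  · rintro ⟨u, v, h1, h2, h3, h4⟩
    refine ⟨u - t, v - t, ?_, ?_, ?_, ?_⟩
    · unfold Near at h1 ⊢
      simp only [Prod.fst_add, Prod.snd_add, Prod.fst_sub, Prod.snd_sub] at h1 ⊢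
      rwa [show u.1 - t.1 - z.1 = u.1 - (z.1 + t.1) by ring,
        show u.2 - t.2 - z.2 = u.2 - (z.2 + t.2) by ring]
    · unfold Far at h2 ⊢
      simp only [Prod.fst_add, Prod.snd_add, Prod.fst_sub, Prod.snd_sub] at h2 ⊢
      rwa [show v.1 - t.1 - z.1 = v.1 - (z.1 + t.1) by ring,
        show v.2 - t.2 - z.2 = v.2 - (z.2 + t.2) by ring]
    · rw [← (syT t).co_iff]
      unfold syT at h3 ⊢
      simp only at h3 ⊢
      rwa [sub_add_cancel, sub_add_cancel]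
    · rw [← Cl_tr (t := t) (fun w => Wr_tr) (mem_AL_tr hκ), sub_add_cancel]
      exact h4
  · rintro ⟨u, v, h1, h2, h3, h4⟩
    refine ⟨u + t, v + t, ?_, ?_, ?_, ?_⟩
    · unfold Near at h1 ⊢
      simp only [Prod.fst_add, Prod.snd_add, add_sub_add_right_eq_sub]
      exact h1
    · unfold Far at h2 ⊢
      simp only [Prod.fst_add, Prod.snd_add, add_sub_add_right_eq_sub]
      exact h2
    · rw [← (syT t).co_iff] at h3
      exact h3
    · rw [Cl_tr (t := t) (fun w => Wr_tr) (mem_AL_tr hκ)]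
      exact h4

lemma X2_inter {κ : ℤ} {z : ℤ × ℤ} {ρ R s : ℤ} {ω : Finset (ℤ × ℤ)} :
    X2 κ z ρ R s ω ↔ X2 κ z ρ R s (ω ∩ AL κ z ρ R) := by
  unfold X2 Cl
  rw [inter_assoc, inter_self]

/-- the probability does not depend on the point and on the domain -/
lemma Pr_X2 {κ : ℤ} (hκ : κ = 0 ∨ κ = 1) {z : ℤ × ℤ} {ρ R s : ℤ} {E : Finset (ℤ × ℤ)}
    (h : AL κ z ρ R ⊆ E) : Pr E (X2 κ z ρ R s) = Pr (AL κ 0 ρ R) (X2 κ 0 ρ R s) := by
  rw [Pr_congr (B := fun ω => X2 κ z ρ R s (ω ∩ AL κ z ρ R)) fun ω _ => X2_inter,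
    Pr_restrict h]
  have h1 := (syT z).Pr (E1 := AL κ 0 ρ R) (E2 := AL κ z ρ R) (fun e => by
    have := mem_AL_tr (κ := κ) hκ (z := 0) (t := z) (ρ := ρ) (R := R) e
    rwa [zero_add] at this) (X2 κ z ρ R s)
  rw [h1]
  refine Pr_congr fun ω _ => ?_
  have := X2_tr (κ := κ) hκ (s := s) (z := 0) (t := z) (ρ := ρ) (R := R) (ω := ω)
  rwa [zero_add] at this

lemma AL_odd {κ : ℤ} {z : ℤ × ℤ} {ρ R : ℤ} : ∀ e ∈ AL κ z ρ R, (e.1 + e.2) % 2 = 1 := fun _ he =>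
  (mem_AL.1 he).1.1.2.2

/-- **three strands at a mark of a flat wall**: an open cluster crosses the half annulus and does not
touch the wall on the side `s` -/
theorem half_X2 : ∃ C : ℝ, 0 < C ∧ ∀ κ : ℤ, (κ = 0 ∨ κ = 1) → ∀ s : ℤ, (s = 1 ∨ s = -1) →
    ∀ (z : ℤ × ℤ) (ρ R : ℤ), 1 ≤ ρ → ρ ≤ R → ∀ E : Finset (ℤ × ℤ), AL κ z ρ R ⊆ E →
    Pr E (X2 κ z ρ R s) ≤ C * ρ / R := by
  obtain ⟨c1, hc1, hRO⟩ := RO_prob
  obtain ⟨δ, hδ0, hδ1, hk⟩ := k_arms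
  set K : ℝ := (1 - δ) / (1 - (1 - δ)) / (c1 * δ) with hK
  have hK0 : 0 < K := by
    rw [hK]
    apply div_pos
    · apply div_pos <;> linarith
    · positivity
  have hq : Qh (fun _ => (1 : ℝ) / 2) := fun _ => by norm_num
  refine ⟨100 * K + 48, by positivity, fun κ hκ s hs z ρ R hρ hρR E hE => ?_⟩
  have hρ' : (1 : ℝ) ≤ ρ := by exact_mod_cast hρ
  have hR' : (ρ : ℝ) ≤ R := by exact_mod_cast hρR
  have hRpos : (0 : ℝ) < R := by linarith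
  by_cases hbig : R < 48 * ρ
  · refine (Pr_le_one _ _).trans ?_
    rw [le_div_iff₀ hRpos]
    have h1 : (R : ℝ) ≤ 48 * ρ := by exact_mod_cast hbig.le
    nlinarith
  push Not at hbig
  rw [Pr_X2 hκ hE]
  set N : ℤ := R / 10 with hN
  set k : ℕ := (N / (10 * ρ)).toNat with hk0
  set T : Finset ℤ := (range (k + 1)).image (fun i : ℕ => (i : ℤ) * (10 * ρ)) with hT
  set F : Finset (ℤ × ℤ) := T.biUnion (fun t => AL κ (wp κ 0 t) ρ R) with hF
  have hFodd : ∀ e ∈ F, (e.1 + e.2) % 2 = 1 := by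
    intro e he
    obtain ⟨t, -, ht⟩ := mem_biUnion.1 he
    exact AL_odd e ht
  have hkN : (k : ℤ) * (10 * ρ) ≤ N := by
    have h1 : 0 ≤ N / (10 * ρ) := Int.ediv_nonneg (by omega) (by omega)
    rw [hk0, Int.toNat_of_nonneg h1]
    exact Int.ediv_mul_le _ (by omega)
  have hTN : ∀ t ∈ T, |t| ≤ N := by
    intro t ht
    obtain ⟨i, hi, rfl⟩ := mem_image.1 ht
    rw [mem_range] at hi
    rw [abs_of_nonneg (by positivity)]
    refine le_trans ?_ hkN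
    exact mul_le_mul_of_nonneg_right (by omega) (by omega)
  have hTd : ∀ t ∈ T, ∀ t' ∈ T, t < t' → 3 * (2 * ρ) + 4 * ρ ≤ t' - t := by
    intro t ht t' ht' hlt
    obtain ⟨i, -, rfl⟩ := mem_image.1 ht
    obtain ⟨j, -, rfl⟩ := mem_image.1 ht'
    have h1 : (i : ℤ) < j := by
      by_contra h2
      push Not at h2
      have := mul_le_mul_of_nonneg_right h2 (by omega : (0 : ℤ) ≤ 10 * ρ)
      omega
    have h2 : ((i : ℤ) + 1) * (10 * ρ) ≤ j * (10 * ρ) :=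
      mul_le_mul_of_nonneg_right (by omega) (by omega)
    have h3 : ((i : ℤ) + 1) * (10 * ρ) = i * (10 * ρ) + 10 * ρ := by ring
    omega
  have harm : ∀ (x : ℤ × ℤ) (m : ℤ), 1 ≤ m → Pr F (Arm1 x m (4 * m)) ≤ 1 - δ := by
    intro x m hm
    have h1 := hk F hFodd x m hm 1 1
    rw [pow_one, mul_one, pow_one] at h1
    refine le_trans (Pr_mono fun ω _ h2 => ?_) h1
    refine ⟨fun _ => ω, fun _ => subset_rfl, fun i j hij => absurd (Subsingleton.elim i j) hij,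
      fun _ => h2⟩
  have main := sum_X2_le (s := s) hq.pb F hκ hs (o := 0) (N := N) (R0 := 4 * (N + 3 * (2 * ρ)))
    (ρ := ρ) (L := 4 * ρ) (M := 3 * (2 * ρ)) (R := R) (r := 1 - δ) (c1 := c1) (c2 := δ)
    hρ (by omega) (by omega) (by omega) (by omega) (by omega) (by omega)
    (by rw [PrP_half]; exact harm _ _ (by omega)) (by linarith) T hTN hTd hc1 hδ0
    (fun t ht => hRO _ hq κ hκ _ ρ R (2 * ρ) F hρ (by omega) (by omega) (by
      rw [hF]; exact subset_biUnion_of_mem (fun t => AL κ (wp κ 0 t) ρ R) ht))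
    (fun t _ => by
      rw [PrP_not, PrP_half]
      have := harm (wp κ 0 t) ρ hρ
      linarith)
  have hsum : ∑ t ∈ T, PrP (fun _ => (1 : ℝ) / 2) F (X2 κ (wp κ 0 t) ρ R s) =
      (k + 1) * Pr (AL κ 0 ρ R) (X2 κ 0 ρ R s) := by
    have h1 : ∀ t ∈ T, PrP (fun _ => (1 : ℝ) / 2) F (X2 κ (wp κ 0 t) ρ R s) =
        Pr (AL κ 0 ρ R) (X2 κ 0 ρ R s) := by
      intro t ht
      rw [PrP_half]
      exact Pr_X2 hκ (by
        rw [hF]; exact subset_biUnion_of_mem (fun t => AL κ (wp κ 0 t) ρ R) ht)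
    rw [sum_congr rfl h1, sum_const, nsmul_eq_mul]
    congr 1
    rw [hT, card_image_of_injective, card_range]
    · push_cast; ring
    · intro i j hij
      simp only at hij
      have := mul_right_cancel₀ (by omega : (10 * ρ : ℤ) ≠ 0) hij
      exact_mod_cast this
  rw [hsum, ← hK] at main
  have hk1 : (R : ℝ) < (k + 1) * (100 * ρ) := by
    have h1 : N < ((k : ℤ) + 1) * (10 * ρ) := by
      have h2 : 0 ≤ N / (10 * ρ) := Int.ediv_nonneg (by omega) (by omega)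
      rw [hk0, Int.toNat_of_nonneg h2]
      exact Int.lt_ediv_add_one_mul_self _ (by omega)
    have h2 : R < ((k : ℤ) + 1) * (100 * ρ) := by
      have h3 : ((k : ℤ) + 1) * (100 * ρ) = 10 * (((k : ℤ) + 1) * (10 * ρ)) := by ring
      omega
    exact_mod_cast h2
  have hP := Pr_nonneg (AL κ 0 ρ R) (X2 κ 0 ρ R s)
  rw [le_div_iff₀ hRpos]
  have h1 : Pr (AL κ 0 ρ R) (X2 κ 0 ρ R s) * R ≤
      Pr (AL κ 0 ρ R) (X2 κ 0 ρ R s) * ((k + 1) * (100 * ρ)) :=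
    mul_le_mul_of_nonneg_left hk1.le hP
  have h2 : Pr (AL κ 0 ρ R) (X2 κ 0 ρ R s) * ((k + 1) * (100 * ρ)) =
      ((k + 1) * Pr (AL κ 0 ρ R) (X2 κ 0 ρ R s)) * (100 * ρ) := by ring
  have h3 : ((k + 1) * Pr (AL κ 0 ρ R) (X2 κ 0 ρ R s)) * (100 * ρ) ≤ K * (100 * ρ) :=
    mul_le_mul_of_nonneg_right main (by linarith)
  nlinarith

end Pool.Agent.H60.Q1
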