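import Mathlib
import Pool.Agent.H60.Q1.X2H

set_option autoImplicit false
open Finset

/-!
# Four strands at a flat wall, soft bound

`X3 κ z ρ R ω` : an open cluster crosses the half annulus and touches the wall on no side. `X3_le`
(general densities): `P(X3) ≤ δ P(X2)` if the probability that there is no open half ring is at most `δ`.
`half_X3` : `P(X3) ≤ C (ρ/R)^(1+α)`, `α > 0`.
-/

namespace Pool.Agent.H60.Q1

open Pool.Agent.H75.Perc Pool.Agent.H75.TwoArm Pool.Agent.H75.Four Pool.Agent.H49.Perc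
open Pool.Agent.H99.NC

/-- an open cluster crosses the half annulus and does not touch the wall -/
def X3 (κ : ℤ) (z : ℤ × ℤ) (ρ R : ℤ) (ω : Finset (ℤ × ℤ)) : Prop :=
  ∃ u v, Near z ρ u ∧ Far z R v ∧ Co (ω ∩ AL κ z ρ R) u v ∧
    ¬ Cl (Wr κ z ρ R 1) (AL κ z ρ R) ω u ∧ ¬ Cl (Wr κ z ρ R (-1)) (AL κ z ρ R) ω u

variable {κ : ℤ} {z : ℤ × ℤ} {ρ R M L s : ℤ} {ω ω' : Finset (ℤ × ℤ)}

/-- hooking lemma, for a given crossing cluster -/
theorem hook' (hκ : κ = 0 ∨ κ = 1) (hρ : 1 ≤ ρ) (hρR : ρ < R) (hs : s = 1 ∨ s = -1) {u v : ℤ × ℤ}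
    (hu : Near z ρ u) (hv : Far z R v) (huv : Co (ω ∩ AL κ z ρ R) u v)
    (hcu : ¬ Cl (Wr κ z ρ R s) (AL κ z ρ R) ω u)
    (hR : RO κ z ρ R M (ω ∪ Ux (Wr κ z ρ R s) (AL κ z ρ R) ω)) :
    Cl (Wr κ z ρ R (-s)) (AL κ z ρ R) ω u := by
  obtain ⟨p, p', hp, hp', hpM, hpM', hpp⟩ := hR
  set a := AL κ z ρ R with ha
  set θ := ω ∪ Ux (Wr κ z ρ R s) a ω with hθ
  obtain ⟨y, x, hy, hx, hyM, hxM, hxy⟩ : ∃ y x, WS κ z s y ∧ WS κ z (-s) x ∧ |y.1 - z.1| ≤ M ∧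
      |x.1 - z.1| ≤ M ∧ Co (θ ∩ a) x y := by
    rcases hs with rfl | rfl
    · exact ⟨p', p, hp', hp, hpM', hpM, hpp⟩
    · exact ⟨p, p', hp, by simpa using hp', hpM, hpM', hpp.symm⟩
  have hxyne : x ≠ y := by
    rintro rfl
    unfold WS at hx hy
    have := hx.2
    rw [neg_mul] at this
    omega
  obtain ⟨hrx, hrw⟩ := Co.reg hκ (inter_subset_right) hxy hxyne
  have hry := hrw y hxy
  refine ⟨x, ⟨hx, hrx⟩, ?_⟩
  by_contra hxu
  have hxc : ¬ Cl (Wr κ z ρ R s) a ω x := by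
    intro hc
    rcases PLc hκ hρ hρR hs hu hv huv hx hc (Or.inl rfl) hrx (Co.refl _ _) with h | h
    · exact hcu h
    · exact hxu h
  have key : ∀ w, Co (θ ∩ a) x w → Co (ω ∩ a) x w ∧ ¬ Cl (Wr κ z ρ R s) a ω w := by
    intro w hw
    induction hw with
    | refl => exact ⟨Co.refl _ _, hxc⟩
    | @tail b c hab hbc ih =>
      obtain ⟨h1, h2⟩ := mem_inter.1 hbc.2
      have hc : ¬ Cl (Wr κ z ρ R s) a ω c := by
        intro hc
        rcases PLc hκ hρ hρR hs hu hv huv hx hc (Or.inr (by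
          have := isUnit4_neg hbc.1
          rwa [neg_sub] at this)) (hrw b hab) ih.1 with h | h
        · exact hcu h
        · exact hxu h
      have h3 : b + c ∈ ω := by
        rcases mem_union.1 h1 with h | h
        · exact h
        · exfalso
          rcases ((mem_Ux_of hbc.1).1 h).2 with h | h
          · exact ih.2 h
          · exact hc h
      exact ⟨ih.1.tail ⟨hbc.1, mem_inter.2 ⟨h3, h2⟩⟩, hc⟩
  exact (key y hxy).2 (Cl.self ⟨hy, hry⟩)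

/-- general densities: a third arm costs the probability that there is no half ring -/
theorem X3_le {q : ℤ × ℤ → ℝ} (hq : Pb q) (E : Finset (ℤ × ℤ)) (hκ : κ = 0 ∨ κ = 1)
    (hρ : 1 ≤ ρ) (hρR : ρ < R) {δ : ℝ}
    (hδ : PrP q E (fun ω => ¬ ∃ M, RO κ z ρ R M ω) ≤ δ) :
    PrP q E (X3 κ z ρ R) ≤ δ * PrP q E (X2 κ z ρ R 1) := by
  set W := Wr κ z ρ R 1 with hW
  set a := AL κ z ρ R with ha
  refine le_trans (PrP_mono hq fun ω _ h => ?_) (cond_harris_not hq E (Ux W a)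
    (fun ω ω' _ _ => Ux_mix) (X2 κ z ρ R 1)
    (fun ω => ∃ M, RO κ z ρ R M (ω ∪ Ux W a ω))
    (fun ω ω' => ∃ u v, (Near z ρ u ∧ Far z R v ∧ ¬ Cl W a ω u) ∧
      Co (ω' ∩ (a \ Ux W a ω)) u v)
    (fun ω ω' => ∃ M, RO κ z ρ R M (ω' ∪ Ux W a ω)) ?_ ?_ ?_ ?_ ?_)
  · obtain ⟨u, v, hu, hv, huv, h1, h2⟩ := h
    refine ⟨⟨u, v, hu, hv, huv, h1⟩, ?_⟩
    rintro ⟨M, hM⟩
    exact h2 (hook' hκ hρ hρR (Or.inl rfl) hu hv huv h1 hM)
  · intro ω ω' _ _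
    unfold X2
    constructor
    · rintro ⟨u, v, h1, h2, h3, h4⟩
      rw [Cl_mix] at h4
      exact ⟨u, v, ⟨h1, h2, h4⟩, (fresh_iff h4).1 h3⟩
    · rintro ⟨u, v, ⟨h1, h2, h4⟩, h3⟩
      refine ⟨u, v, h1, h2, (fresh_iff h4).2 h3, ?_⟩
      rwa [Cl_mix]
  · intro ω ω' _ _
    rw [Ux_mix]
    have : mix (Ux W a ω) ω ω' ∪ Ux W a ω = ω' ∪ Ux W a ω := by
      ext l
      rw [mem_union, mem_union, mem_mix]
      tauto
    rw [this]
  · rintro ω ω1 ω2 h ⟨u, v, h1, h2⟩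
    exact ⟨u, v, h1, h2.mono (inter_subset_inter_right h)⟩
  · rintro ω ω1 ω2 h ⟨M, h1⟩
    exact ⟨M, RO_inc _ _ (union_subset_union_left h) h1⟩
  · intro ω _
    refine le_trans (PrP_mono hq fun ω' _ h => ?_) hδ
    rintro ⟨M, h1⟩
    exact h ⟨M, RO_inc _ _ subset_union_left h1⟩

lemma RO_loc {ω : Finset (ℤ × ℤ)} :
    RO κ z ρ R M ω ↔ RO κ z ρ R M (ω ∩ AL κ z ρ R) := by
  unfold RO
  rw [inter_assoc, inter_self]

lemma AL_mono {ρ' R' : ℤ} (h1 : ρ ≤ ρ') (h2 : R' ≤ R) (hκ : κ = 0 ∨ κ = 1) :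
    AL κ z ρ' R' ⊆ AL κ z ρ R := by
  intro l hl
  rw [mem_AL] at hl ⊢
  rcases hκ with rfl | rfl <;> omega

/-- no open half ring at many scales -/
theorem no_rings : ∃ c : ℝ, 0 < c ∧ c < 1 ∧ ∀ q : ℤ × ℤ → ℝ, Qh q → ∀ (κ : ℤ), (κ = 0 ∨ κ = 1) →
    ∀ (z : ℤ × ℤ) (a : ℤ) (E : Finset (ℤ × ℤ)) (n : ℕ), 2 ≤ a →
    (∀ j < n, AL κ z (4 ^ j * a - 1) (3 * (4 ^ j * a)) ⊆ E) →
    PrP q E (fun ω => ∀ j < n, ¬ RO κ z (4 ^ j * a - 1) (3 * (4 ^ j * a)) (3 * (4 ^ j * a)) ω) ≤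
      (1 - c) ^ n := by
  obtain ⟨c, hc, h⟩ := RO_prob
  have hc1 : min c (1 / 2) ≤ c := min_le_left _ _
  refine ⟨min c (1 / 2), by positivity, lt_of_le_of_lt (min_le_right _ _) (by norm_num),
    fun q hq κ hκ z a E n ha hE => ?_⟩
  have hpow : ∀ j : ℕ, (1 : ℤ) ≤ 4 ^ j := fun j => one_le_pow₀ (by norm_num)
  induction n with
  | zero => simpa using PrP_le_one hq.pb E _
  | succ n ih =>
    have ih' := ih fun j hj => hE j (by omega)
    set m : ℤ := 4 ^ n * a with hm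
    set E1 := E ∩ Bx (z.1 - (m - 1)) (z.1 + (m - 1)) (z.2 - (m - 1)) (z.2 + (m - 1)) with hE1
    set A : Finset (ℤ × ℤ) → Prop := fun ω =>
      ∀ j < n, ¬ RO κ z (4 ^ j * a - 1) (3 * (4 ^ j * a)) (3 * (4 ^ j * a)) ω with hA
    have hA1 : ∀ ω : Finset (ℤ × ℤ), ω ⊆ E → (A ω ↔ A (ω ∩ E1)) := by
      intro ω hω
      refine forall_congr' fun j => forall_congr' fun hj => not_congr ?_
      rw [RO_loc, RO_loc (ω := ω ∩ E1)]
      have hjm : 4 * (4 ^ j * a) ≤ m := by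
        rw [hm, ← mul_assoc, mul_comm (4 : ℤ) (4 ^ j), ← pow_succ]
        exact mul_le_mul_of_nonneg_right (pow_le_pow_right₀ (by norm_num) (by omega)) (by omega)
      have hja : 2 ≤ 4 ^ j * a := by nlinarith [hpow j]
      have e1 : ω ∩ E1 ∩ AL κ z (4 ^ j * a - 1) (3 * (4 ^ j * a)) =
          ω ∩ AL κ z (4 ^ j * a - 1) (3 * (4 ^ j * a)) := by
        ext l
        simp only [mem_inter, hE1]
        constructor
        · rintro ⟨⟨h1, -⟩, h3⟩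
          exact ⟨h1, h3⟩
        · rintro ⟨h1, h3⟩
          refine ⟨⟨h1, hω h1, ?_⟩, h3⟩
          rw [mem_AL] at h3
          rw [mem_Bx]
          omega
      rw [e1]
    have hB1 : ∀ ω : Finset (ℤ × ℤ), RO κ z (m - 1) (3 * m) (3 * m) ω ↔
        RO κ z (m - 1) (3 * m) (3 * m) (ω \ E1) := by
      intro ω
      rw [RO_loc, RO_loc (ω := ω \ E1)]
      have e1 : (ω \ E1) ∩ AL κ z (m - 1) (3 * m) = ω ∩ AL κ z (m - 1) (3 * m) := by
        ext l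
        simp only [mem_inter, mem_sdiff, hE1]
        constructor
        · rintro ⟨⟨h1, -⟩, h3⟩
          exact ⟨h1, h3⟩
        · rintro ⟨h1, h3⟩
          refine ⟨⟨h1, ?_⟩, h3⟩
          rintro ⟨-, h4⟩
          rw [mem_AL] at h3
          rw [mem_Bx] at h4
          exact h3.2 h4
      rw [e1]
    have e1 : PrP q E (fun ω => ∀ j < n + 1,
        ¬ RO κ z (4 ^ j * a - 1) (3 * (4 ^ j * a)) (3 * (4 ^ j * a)) ω) =
        PrP q E (fun ω => A (ω ∩ E1) ∧ (fun ω => ¬ RO κ z (m - 1) (3 * m) (3 * m) ω) (ω \ E1)) := by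
      refine PrP_congr fun ω hω => ?_
      simp only
      rw [← hA1 ω hω, ← hB1 ω]
      constructor
      · intro h
        exact ⟨fun j hj => h j (by omega), h n (by omega)⟩
      · rintro ⟨h1, h2⟩ j hj
        rcases Nat.lt_succ_iff_lt_or_eq.1 hj with h3 | rfl
        · exact h1 j h3
        · exact h2
    have e2 := PrP_split q (E := E) (E1 := E1) inter_subset_left A
      (fun ω => ¬ RO κ z (m - 1) (3 * m) (3 * m) ω)
    rw [e1, e2, pow_succ]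
    have hm2 : 2 ≤ m := by rw [hm]; nlinarith [hpow n]
    refine mul_le_mul ?_ ?_ (PrP_nonneg hq.pb _ _) (pow_nonneg (by
      have := min_le_right c (1 / 2); linarith) n)
    · rw [← PrP_local (E := E) inter_subset_left hA1]
      exact ih'
    · rw [PrP_not]
      have h1 := h q hq κ hκ z (m - 1) (3 * m) m (E \ E1) (by omega) (by omega) le_rfl (by
        intro l hl
        refine mem_sdiff.2 ⟨hE n (by omega) hl, ?_⟩
        rw [hE1]
        intro h4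
        exact (mem_AL.1 hl).2 (mem_Bx.1 (mem_inter.1 h4).2))
      linarith

/-- from geometric decay to a power -/
lemma pow_le_rpow {δ : ℝ} (h0 : 0 < δ) (h1 : δ < 1) : ∃ α : ℝ, 0 < α ∧ ∀ (x : ℝ) (n : ℕ), 0 < x →
    x < 4 ^ (n + 1) → δ ^ n ≤ δ⁻¹ * x ^ (-α) := by
  have hl4 : 0 < Real.log 4 := Real.log_pos (by norm_num)
  have hld : Real.log δ < 0 := Real.log_neg h0 h1
  refine ⟨-Real.log δ / Real.log 4, div_pos (by linarith) hl4, fun x n hx hxn => ?_⟩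
  set α := -Real.log δ / Real.log 4 with hα
  have hαpos : 0 < α := div_pos (by linarith) hl4
  have h4 : (4 : ℝ) ^ (-α) = δ := by
    rw [Real.rpow_def_of_pos (by norm_num), hα]
    rw [show Real.log 4 * -(-Real.log δ / Real.log 4) = Real.log δ by field_simp]
    exact Real.exp_log h0
  have e1 : ((4 : ℝ) ^ (n + 1)) ^ (-α) = δ ^ (n + 1) := by
    rw [← Real.rpow_natCast, ← Real.rpow_mul (by norm_num), mul_comm, Real.rpow_mul (by norm_num),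
      h4, Real.rpow_natCast]
  have e2 : ((4 : ℝ) ^ (n + 1)) ^ (-α) ≤ x ^ (-α) :=
    Real.rpow_le_rpow_of_nonpos hx hxn.le (by linarith)
  rw [e1, pow_succ] at e2
  calc δ ^ n = δ⁻¹ * (δ ^ n * δ) := by field_simp
    _ ≤ δ⁻¹ * x ^ (-α) := mul_le_mul_of_nonneg_left e2 (by positivity)

/-- **four strands at a flat wall, soft bound** -/
theorem half_X3 : ∃ C α : ℝ, 0 < C ∧ 0 < α ∧ ∀ κ : ℤ, (κ = 0 ∨ κ = 1) →
    ∀ (z : ℤ × ℤ) (ρ R : ℤ), 1 ≤ ρ → ρ ≤ R → ∀ E : Finset (ℤ × ℤ), AL κ z ρ R ⊆ E →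
    Pr E (X3 κ z ρ R) ≤ C * ((ρ : ℝ) / R) ^ (1 + α) := by
  obtain ⟨C, hC, h2⟩ := half_X2
  obtain ⟨c, hc0, hc1, h3⟩ := no_rings
  obtain ⟨α, hα, h4⟩ := pow_le_rpow (δ := 1 - c) (by linarith) (by linarith)
  have hq : Qh (fun _ => (1 : ℝ) / 2) := fun _ => by norm_num
  have h24 : (1 : ℝ) ≤ (24 : ℝ) ^ (1 + α) :=
    Real.one_le_rpow (by norm_num) (by linarith)
  refine ⟨24 ^ (1 + α) * (1 + C * (1 - c)⁻¹), α, ?_, hα, fun κ hκ z ρ R hρ hρR E hE => ?_⟩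
  · have : 0 < (1 - c)⁻¹ := inv_pos.2 (by linarith)
    positivity
  have hinv : 0 < (1 - c)⁻¹ := inv_pos.2 (by linarith)
  have hρ' : (1 : ℝ) ≤ ρ := by exact_mod_cast hρ
  have hR' : (ρ : ℝ) ≤ R := by exact_mod_cast hρR
  have hRpos : (0 : ℝ) < R := by linarith
  have hx0 : 0 < (ρ : ℝ) / R := by positivity
  by_cases hbig : R < 24 * ρ
  · refine (Pr_le_one _ _).trans ?_
    have h5 : 1 ≤ 24 * ((ρ : ℝ) / R) := by
      rw [← mul_div_assoc, le_div_iff₀ hRpos]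
      have h1 : (R : ℝ) ≤ 24 * ρ := by exact_mod_cast hbig.le
      linarith
    have h6 : 1 ≤ (24 * ((ρ : ℝ) / R)) ^ (1 + α) := Real.one_le_rpow h5 (by linarith)
    rw [Real.mul_rpow (by norm_num) hx0.le] at h6
    have h7 : 0 < ((ρ : ℝ) / R) ^ (1 + α) := Real.rpow_pos_of_pos hx0 _
    have h8 : 0 ≤ C * (1 - c)⁻¹ := by positivity
    calc (1 : ℝ) ≤ 24 ^ (1 + α) * ((ρ : ℝ) / R) ^ (1 + α) * 1 := by rw [mul_one]; exact h6
      _ ≤ 24 ^ (1 + α) * ((ρ : ℝ) / R) ^ (1 + α) * (1 + C * (1 - c)⁻¹) :=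
        mul_le_mul_of_nonneg_left (by linarith) (by positivity)
      _ = _ := by ring
  push Not at hbig
  -- the number of scales
  obtain ⟨n, hn1, hn2⟩ : ∃ n : ℕ, 6 * (4 ^ n * ρ) ≤ R ∧ R < 6 * (4 ^ (n + 1) * ρ) := by
    have hex : ∃ n : ℕ, R < 6 * (4 ^ (n + 1) * ρ) := by
      obtain ⟨n, hn⟩ := pow_unbounded_of_one_lt R (by norm_num : (1 : ℤ) < 4)
      refine ⟨n, ?_⟩
      have h1 : (4 : ℤ) ^ n ≤ 4 ^ (n + 1) := pow_le_pow_right₀ (by norm_num) (by omega)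
      have h2 : (0 : ℤ) < 4 ^ (n + 1) := by positivity
      nlinarith
    classical
    refine ⟨Nat.find hex, ?_, Nat.find_spec hex⟩
    rcases Nat.eq_zero_or_pos (Nat.find hex) with h0 | h0
    · rw [h0]; omega
    · have := Nat.find_min hex (m := Nat.find hex - 1) (by omega)
      push Not at this
      rwa [Nat.sub_add_cancel h0] at this
  have hpow : ∀ j : ℕ, (1 : ℤ) ≤ 4 ^ j := fun j => one_le_pow₀ (by norm_num)
  have hrho : ∀ j < n + 1, 4 ^ j * (2 * ρ) - 1 ≥ ρ ∧ 3 * (4 ^ j * (2 * ρ)) ≤ R := by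
    intro j hj
    have h5 : (4 : ℤ) ^ j ≤ 4 ^ n := pow_le_pow_right₀ (by norm_num) (by omega)
    have h6 : 4 ^ j * ρ ≤ 4 ^ n * ρ := mul_le_mul_of_nonneg_right h5 (by omega)
    have h7 : 4 ^ j * (2 * ρ) = 2 * (4 ^ j * ρ) := by ring
    have h8 : 1 * ρ ≤ 4 ^ j * ρ := mul_le_mul_of_nonneg_right (hpow j) (by omega)
    constructor <;> omega
  have main := X3_le (κ := κ) (z := z) (ρ := ρ) (R := R) hq.pb E hκ hρ (by omega)
    (δ := (1 - c) ^ (n + 1)) (by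
      refine le_trans (PrP_mono hq.pb fun ω _ h => ?_) (h3 _ hq κ hκ z (2 * ρ) E (n + 1) (by omega)
        (fun j hj => (AL_mono (hrho j hj).1 (hrho j hj).2 hκ).trans hE))
      intro j hj hRO
      obtain ⟨p, p', q1, q2, q3, q4, q5⟩ := hRO
      exact h ⟨3 * (4 ^ j * (2 * ρ)), p, p', q1, q2, q3, q4, q5.mono (inter_subset_inter_left
        (AL_mono (hrho j hj).1 (hrho j hj).2 hκ))⟩)
  rw [PrP_half, PrP_half] at main
  have m2 := h2 κ hκ 1 (Or.inl rfl) z ρ R hρ hρR E hE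
  have hxR : (R : ℝ) / ρ < 4 ^ (n + 1 + 1 + 1) := by
    rw [div_lt_iff₀ (by linarith)]
    have h5 : R < 4 ^ (n + 1 + 1 + 1) * ρ := by
      have h6 : (4 : ℤ) ^ (n + 1 + 1 + 1) * ρ = 16 * (4 ^ (n + 1) * ρ) := by ring
      have h7 : 0 < 4 ^ (n + 1) * ρ := by positivity
      omega
    exact_mod_cast h5
  -- the power
  have h5 := h4 ((R : ℝ) / ρ / 4) (n + 1) (by positivity) (by
    rw [div_lt_iff₀ (by norm_num)]
    calc (R : ℝ) / ρ < 4 ^ (n + 1 + 1 + 1) := hxR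
      _ = 4 ^ (n + 1 + 1) * 4 := by ring)
  have e1 : ((R : ℝ) / ρ / 4) ^ (-α) = 4 ^ α * ((ρ : ℝ) / R) ^ α := by
    rw [Real.rpow_neg (by positivity), ← Real.inv_rpow (by positivity),
      show ((R : ℝ) / ρ / 4)⁻¹ = 4 * (ρ / R) by field_simp,
      Real.mul_rpow (by norm_num) hx0.le]
  rw [e1] at h5
  have e2 : ((ρ : ℝ) / R) ^ (1 + α) = (ρ / R) * (ρ / R) ^ α := by
    rw [Real.rpow_add hx0, Real.rpow_one]
  have hPα : 0 < ((ρ : ℝ) / R) ^ α := Real.rpow_pos_of_pos hx0 _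
  have h4α : (4 : ℝ) ^ α ≤ 24 ^ (1 + α) := by
    calc (4 : ℝ) ^ α ≤ 24 ^ α := Real.rpow_le_rpow (by norm_num) (by norm_num) hα.le
      _ ≤ 24 ^ (1 + α) := Real.rpow_le_rpow_of_exponent_le (by norm_num) (by linarith)
  have hP2 := Pr_nonneg E (X2 κ z ρ R 1)
  calc Pr E (X3 κ z ρ R) ≤ (1 - c) ^ (n + 1) * Pr E (X2 κ z ρ R 1) := main
    _ ≤ ((1 - c)⁻¹ * (4 ^ α * (ρ / R) ^ α)) * (C * ρ / R) :=
      mul_le_mul h5 m2 hP2 (by positivity)
    _ = 4 ^ α * (C * (1 - c)⁻¹) * ((ρ / R) * (ρ / R) ^ α) := by ring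
    _ ≤ 24 ^ (1 + α) * (1 + C * (1 - c)⁻¹) * ((ρ / R) * (ρ / R) ^ α) := by
      apply mul_le_mul_of_nonneg_right _ (by positivity)
      apply mul_le_mul h4α (by linarith) (by positivity) (by positivity)
    _ = _ := by rw [e2]

end Pool.Agent.H60.Q1
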