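import Mathlib
import Pool.Agent.H60.Q1.X3S

set_option autoImplicit false
open Finset

/-!
# Walls with ties: soft bounds for two and three arms

Densities `q ≤ 1/2`, invariant along the wall at height `h`, such that half rings at scales `≥ a0` around
wall points are open with probability at least `c` (`TD`). Then, for radii `≥ a0`,
`P(X2) ≤ C ρ/R` and `P(X3) ≤ C (ρ/R)^(1+α)` with `C, α` depending only on `c`.
-/

namespace Pool.Agent.H60.Q1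

open Pool.Agent.H75.Perc Pool.Agent.H75.TwoArm Pool.Agent.H75.Four Pool.Agent.H49.Perc
open Pool.Agent.H99.NC

/-- densities near a wall with ties -/
structure TD (κ h : ℤ) (q : ℤ × ℤ → ℝ) (c : ℝ) (a0 : ℤ) : Prop where
  pb : Pb q
  le : ∀ l, q l ≤ 1 / 2
  inv : ∀ (t : ℤ) (l : ℤ × ℤ), q (l.1 + 2 * t, l.2 + 2 * (-(κ * t))) = q l
  a2 : 2 ≤ a0
  ring : ∀ z : ℤ × ℤ, ht κ z = h → ∀ a : ℤ, a0 ≤ a → ∀ E : Finset (ℤ × ℤ),
    AL κ z (a - 1) (3 * a) ⊆ E → c ≤ PrP q E (RO κ z (a - 1) (3 * a) (3 * a))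

/-- transport along the wall -/
lemma PrP_tr {q : ℤ × ℤ → ℝ} {v : ℤ × ℤ} (hq : ∀ l, q ((syT v).G l) = q l)
    {E1 E2 : Finset (ℤ × ℤ)} (hE : ∀ e, e ∈ E2 ↔ (syT v).G' e ∈ E1) (A : Finset (ℤ × ℤ) → Prop) :
    PrP q E2 A = PrP q E1 (fun ω => A (ω.map (syT v).G)) := by
  rw [← (syT v).map_eq hE, PrP_map]
  have : (fun e => q ((syT v).G e)) = q := funext hq
  rw [this]

variable {κ h : ℤ} {q : ℤ × ℤ → ℝ} {c : ℝ} {a0 : ℤ}

lemma TD.G (H : TD κ h q c a0) (t : ℤ) (l : ℤ × ℤ) : q ((syT (t, -(κ * t))).G l) = q l := H.inv t l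

lemma wp_eq (z : ℤ × ℤ) (t : ℤ) : wp κ z t = z + (t, -(κ * t)) := by
  unfold wp
  rw [Prod.ext_iff]
  simp only [Prod.fst_add, Prod.snd_add]
  exact ⟨trivial, sub_eq_add_neg _ _⟩

lemma ht_wp (z : ℤ × ℤ) (t : ℤ) : ht κ (wp κ z t) = ht κ z := by
  unfold ht wp
  simp only
  ring

/-- arms -/
lemma TD.arm (H : TD κ h q c a0) {δ : ℝ} (hk : ∀ (E : Finset (ℤ × ℤ)),
    (∀ e ∈ E, (e.1 + e.2) % 2 = 1) → ∀ (x : ℤ × ℤ) (ρ : ℤ), 1 ≤ ρ → ∀ k : ℕ,
    Pr E (fun ω => ∃ u v : ℤ × ℤ, |u.1 - x.1| ≤ ρ ∧ |u.2 - x.2| ≤ ρ ∧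
      (4 ^ k * ρ ≤ |v.1 - x.1| ∨ 4 ^ k * ρ ≤ |v.2 - x.2|) ∧ Co ω u v) ≤ (1 - δ) ^ k)
    {F : Finset (ℤ × ℤ)} (hF : ∀ e ∈ F, (e.1 + e.2) % 2 = 1) (x : ℤ × ℤ) (m : ℤ) (hm : 1 ≤ m) :
    PrP q F (Arm1 x m (4 * m)) ≤ 1 - δ := by
  have h1 := hk F hF x m hm 1
  rw [pow_one, pow_one] at h1
  refine le_trans (PrP_mono_q H.pb (q' := fun _ => 1 / 2) (fun _ => by norm_num)
    (fun e _ => H.le e) (Arm1_inc x m (4 * m))) ?_
  rw [PrP_half]
  exact h1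

lemma RO_mono' {z : ℤ × ℤ} {ρ ρ' R R' M M' : ℤ} (hκ : κ = 0 ∨ κ = 1) (h1 : ρ ≤ ρ') (h2 : R' ≤ R)
    (h3 : M' ≤ M) {ω : Finset (ℤ × ℤ)} (h : RO κ z ρ' R' M' ω) : RO κ z ρ R M ω := by
  obtain ⟨p, p', q1, q2, q3, q4, q5⟩ := h
  exact ⟨p, p', q1, q2, q3.trans h3, q4.trans h3, q5.mono (inter_subset_inter_left
    (AL_mono h1 h2 hκ))⟩

/-- **three strands at a mark, wall with ties** -/
theorem tie_X2 {c : ℝ} (hc : 0 < c) : ∃ C : ℝ, 0 < C ∧ ∀ (κ h : ℤ) (q : ℤ × ℤ → ℝ) (a0 : ℤ),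
    (κ = 0 ∨ κ = 1) → TD κ h q c a0 → ∀ s : ℤ, (s = 1 ∨ s = -1) → ∀ (z : ℤ × ℤ), ht κ z = h →
    ∀ (ρ R : ℤ), a0 ≤ ρ → ρ ≤ R → ∀ E : Finset (ℤ × ℤ), AL κ z ρ R ⊆ E →
    PrP q E (X2 κ z ρ R s) ≤ C * ρ / R := by
  obtain ⟨δ, hδ0, hδ1, hk⟩ := open_arm_decay
  set K : ℝ := (1 - δ) / (1 - (1 - δ)) / (c * δ) with hK
  have hK0 : 0 < K := by
    rw [hK]
    apply div_pos
    · apply div_pos <;> linarith
    · positivity
  refine ⟨100 * K + 48, by positivity, fun κ h q a0 hκ H s hs z hz ρ R ha0 hρR E hE => ?_⟩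
  have hρ : 1 ≤ ρ := by have := H.a2; omega
  have hρ' : (1 : ℝ) ≤ ρ := by exact_mod_cast hρ
  have hR' : (ρ : ℝ) ≤ R := by exact_mod_cast hρR
  have hRpos : (0 : ℝ) < R := by linarith
  by_cases hbig : R < 48 * ρ
  · refine (PrP_le_one H.pb _ _).trans ?_
    rw [le_div_iff₀ hRpos]
    have h1 : (R : ℝ) ≤ 48 * ρ := by exact_mod_cast hbig.le
    nlinarith
  push Not at hbig
  -- the probability does not depend on the point of the wall and on the domain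
  have hinv : ∀ (t : ℤ) (F : Finset (ℤ × ℤ)), AL κ (wp κ z t) ρ R ⊆ F →
      PrP q F (X2 κ (wp κ z t) ρ R s) = PrP q (AL κ z ρ R) (X2 κ z ρ R s) := by
    intro t F hF
    rw [PrP_congr (B := fun ω => X2 κ (wp κ z t) ρ R s (ω ∩ AL κ (wp κ z t) ρ R))
      fun ω _ => X2_inter, PrP_restrict q hF, wp_eq]
    rw [PrP_tr (H.G t) (E1 := AL κ z ρ R) (E2 := AL κ (z + (t, -(κ * t))) ρ R)
      (fun e => mem_AL_tr hκ e)]
    exact PrP_congr fun ω _ => X2_tr hκ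
  have hE0 : PrP q E (X2 κ z ρ R s) = PrP q (AL κ z ρ R) (X2 κ z ρ R s) := by
    have h1 := hinv 0 E (by
      have : wp κ z 0 = z := by unfold wp; simp
      rw [this]; exact hE)
    have h2 : wp κ z 0 = z := by unfold wp; simp
    rw [h2] at h1
    exact h1
  rw [hE0]
  set N : ℤ := R / 10 with hN
  set k : ℕ := (N / (10 * ρ)).toNat with hk0
  set T : Finset ℤ := (range (k + 1)).image (fun i : ℕ => (i : ℤ) * (10 * ρ)) with hT
  set F : Finset (ℤ × ℤ) := T.biUnion (fun t => AL κ (wp κ z t) ρ R) with hF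
  have hFodd : ∀ e ∈ F, (e.1 + e.2) % 2 = 1 := by
    intro e he
    obtain ⟨t, -, ht⟩ := mem_biUnion.1 he
    exact AL_odd e ht
  have hkN : (k : ℤ) * (10 * ρ) ≤ N := by
    have h1 : 0 ≤ N / (10 * ρ) := Int.ediv_nonneg (by omega) (by omega)
    rw [hk0, Int.toNat_of_nonneg h1]
    exact Int.ediv_mul_le _ (by omega)
  have hTN : ∀ t ∈ T, |t| ≤ N := by
    intro t ht
    obtain ⟨i, hi, rfl⟩ := mem_image.1 ht
    rw [mem_range] at hi
    rw [abs_of_nonneg (by positivity)]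
    refine le_trans ?_ hkN
    exact mul_le_mul_of_nonneg_right (by omega) (by omega)
  have hTd : ∀ t ∈ T, ∀ t' ∈ T, t < t' → 3 * (2 * ρ) + 4 * ρ ≤ t' - t := by
    intro t ht t' ht' hlt
    obtain ⟨i, -, rfl⟩ := mem_image.1 ht
    obtain ⟨j, -, rfl⟩ := mem_image.1 ht'
    have h1 : (i : ℤ) < j := by
      by_contra h2
      push Not at h2
      have := mul_le_mul_of_nonneg_right h2 (by omega : (0 : ℤ) ≤ 10 * ρ)
      omega
    have h2 : ((i : ℤ) + 1) * (10 * ρ) ≤ j * (10 * ρ) :=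
      mul_le_mul_of_nonneg_right (by omega) (by omega)
    have h3 : ((i : ℤ) + 1) * (10 * ρ) = i * (10 * ρ) + 10 * ρ := by ring
    omega
  have main := sum_X2_le (s := s) H.pb F hκ hs (o := z) (N := N) (R0 := 4 * (N + 3 * (2 * ρ)))
    (ρ := ρ) (L := 4 * ρ) (M := 3 * (2 * ρ)) (R := R) (r := 1 - δ) (c1 := c) (c2 := δ)
    hρ (by omega) (by omega) (by omega) (by omega) (by omega) (by omega)
    (H.arm hk hFodd _ _ (by omega)) (by linarith) T hTN hTd hc hδ0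
    (fun t ht => by
      have h1 : AL κ (wp κ z t) (2 * ρ - 1) (3 * (2 * ρ)) ⊆ F :=
        (AL_mono (by omega) (by omega) hκ).trans
          (subset_biUnion_of_mem (fun t => AL κ (wp κ z t) ρ R) ht)
      refine (H.ring _ (by rw [ht_wp, hz]) (2 * ρ) (by omega) F h1).trans ?_
      exact PrP_mono H.pb fun ω _ h2 => RO_mono' hκ (by omega) (by omega) le_rfl h2)
    (fun t _ => by
      rw [PrP_not]
      have := H.arm hk hFodd (wp κ z t) ρ hρ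
      linarith)
  have hsum : ∑ t ∈ T, PrP q F (X2 κ (wp κ z t) ρ R s) =
      (k + 1) * PrP q (AL κ z ρ R) (X2 κ z ρ R s) := by
    have h1 : ∀ t ∈ T, PrP q F (X2 κ (wp κ z t) ρ R s) =
        PrP q (AL κ z ρ R) (X2 κ z ρ R s) := by
      intro t ht
      exact hinv t F (by
        rw [hF]; exact subset_biUnion_of_mem (fun t => AL κ (wp κ z t) ρ R) ht)
    rw [sum_congr rfl h1, sum_const, nsmul_eq_mul]
    congr 1
    rw [hT, card_image_of_injective, card_range]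
    · push_cast; ring
    · intro i j hij
      simp only at hij
      have := mul_right_cancel₀ (by omega : (10 * ρ : ℤ) ≠ 0) hij
      exact_mod_cast this
  rw [hsum, ← hK] at main
  have hk1 : (R : ℝ) < (k + 1) * (100 * ρ) := by
    have h1 : N < ((k : ℤ) + 1) * (10 * ρ) := by
      have h2 : 0 ≤ N / (10 * ρ) := Int.ediv_nonneg (by omega) (by omega)
      rw [hk0, Int.toNat_of_nonneg h2]
      exact Int.lt_ediv_add_one_mul_self _ (by omega)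
    have h2 : R < ((k : ℤ) + 1) * (100 * ρ) := by
      have h3 : ((k : ℤ) + 1) * (100 * ρ) = 10 * (((k : ℤ) + 1) * (10 * ρ)) := by ring
      omega
    exact_mod_cast h2
  have hP := PrP_nonneg H.pb (AL κ z ρ R) (X2 κ z ρ R s)
  rw [le_div_iff₀ hRpos]
  have h1 : PrP q (AL κ z ρ R) (X2 κ z ρ R s) * R ≤
      PrP q (AL κ z ρ R) (X2 κ z ρ R s) * ((k + 1) * (100 * ρ)) :=
    mul_le_mul_of_nonneg_left hk1.le hP
  have h2 : PrP q (AL κ z ρ R) (X2 κ z ρ R s) * ((k + 1) * (100 * ρ)) =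
      ((k + 1) * PrP q (AL κ z ρ R) (X2 κ z ρ R s)) * (100 * ρ) := by ring
  have h3 : ((k + 1) * PrP q (AL κ z ρ R) (X2 κ z ρ R s)) * (100 * ρ) ≤ K * (100 * ρ) :=
    mul_le_mul_of_nonneg_right main (by linarith)
  nlinarith

/-- no half ring at many scales, wall with ties -/
theorem tie_no_rings (H : TD κ h q c a0) (hc1 : c ≤ 1) {z : ℤ × ℤ}
    (hz : ht κ z = h) {a : ℤ} (ha : a0 ≤ a) (E : Finset (ℤ × ℤ)) (n : ℕ)
    (hE : ∀ j < n, AL κ z (4 ^ j * a - 1) (3 * (4 ^ j * a)) ⊆ E) :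
    PrP q E (fun ω => ∀ j < n, ¬ RO κ z (4 ^ j * a - 1) (3 * (4 ^ j * a)) (3 * (4 ^ j * a)) ω) ≤
      (1 - c) ^ n := by
  have hpow : ∀ j : ℕ, (1 : ℤ) ≤ 4 ^ j := fun j => one_le_pow₀ (by norm_num)
  have ha2 := H.a2
  induction n with
  | zero => simp
  | succ n ih =>
    have ih' := ih fun j hj => hE j (by omega)
    set m : ℤ := 4 ^ n * a with hm
    set E1 := E ∩ Bx (z.1 - (m - 1)) (z.1 + (m - 1)) (z.2 - (m - 1)) (z.2 + (m - 1)) with hE1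
    set A : Finset (ℤ × ℤ) → Prop := fun ω =>
      ∀ j < n, ¬ RO κ z (4 ^ j * a - 1) (3 * (4 ^ j * a)) (3 * (4 ^ j * a)) ω with hA
    have hA1 : ∀ ω : Finset (ℤ × ℤ), ω ⊆ E → (A ω ↔ A (ω ∩ E1)) := by
      intro ω hω
      refine forall_congr' fun j => forall_congr' fun hj => not_congr ?_
      rw [RO_loc, RO_loc (ω := ω ∩ E1)]
      have hjm : 4 * (4 ^ j * a) ≤ m := by
        rw [hm, ← mul_assoc, mul_comm (4 : ℤ) (4 ^ j), ← pow_succ]
        exact mul_le_mul_of_nonneg_right (pow_le_pow_right₀ (by norm_num) (by omega)) (by omega)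
      have hja : 2 ≤ 4 ^ j * a := by nlinarith [hpow j]
      have e1 : ω ∩ E1 ∩ AL κ z (4 ^ j * a - 1) (3 * (4 ^ j * a)) =
          ω ∩ AL κ z (4 ^ j * a - 1) (3 * (4 ^ j * a)) := by
        ext l
        simp only [mem_inter, hE1]
        constructor
        · rintro ⟨⟨h1, -⟩, h3⟩
          exact ⟨h1, h3⟩
        · rintro ⟨h1, h3⟩
          refine ⟨⟨h1, hω h1, ?_⟩, h3⟩
          rw [mem_AL] at h3
          rw [mem_Bx]
          omega
      rw [e1]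
    have hB1 : ∀ ω : Finset (ℤ × ℤ), RO κ z (m - 1) (3 * m) (3 * m) ω ↔
        RO κ z (m - 1) (3 * m) (3 * m) (ω \ E1) := by
      intro ω
      rw [RO_loc, RO_loc (ω := ω \ E1)]
      have e1 : (ω \ E1) ∩ AL κ z (m - 1) (3 * m) = ω ∩ AL κ z (m - 1) (3 * m) := by
        ext l
        simp only [mem_inter, mem_sdiff, hE1]
        constructor
        · rintro ⟨⟨h1, -⟩, h3⟩
          exact ⟨h1, h3⟩
        · rintro ⟨h1, h3⟩
          refine ⟨⟨h1, ?_⟩, h3⟩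
          rintro ⟨-, h4⟩
          rw [mem_AL] at h3
          rw [mem_Bx] at h4
          exact h3.2 h4
      rw [e1]
    have e1 : PrP q E (fun ω => ∀ j < n + 1,
        ¬ RO κ z (4 ^ j * a - 1) (3 * (4 ^ j * a)) (3 * (4 ^ j * a)) ω) =
        PrP q E (fun ω => A (ω ∩ E1) ∧ (fun ω => ¬ RO κ z (m - 1) (3 * m) (3 * m) ω) (ω \ E1)) := by
      refine PrP_congr fun ω hω => ?_
      simp only
      rw [← hA1 ω hω, ← hB1 ω]
      constructor
      · intro h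
        exact ⟨fun j hj => h j (by omega), h n (by omega)⟩
      · rintro ⟨h1, h2⟩ j hj
        rcases Nat.lt_succ_iff_lt_or_eq.1 hj with h3 | rfl
        · exact h1 j h3
        · exact h2
    have e2 := PrP_split q (E := E) (E1 := E1) inter_subset_left A
      (fun ω => ¬ RO κ z (m - 1) (3 * m) (3 * m) ω)
    rw [e1, e2, pow_succ]
    have hma : a0 ≤ m := by rw [hm]; nlinarith [hpow n]
    refine mul_le_mul ?_ ?_ (PrP_nonneg H.pb _ _) (pow_nonneg (by linarith) n)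
    · rw [← PrP_local (E := E) inter_subset_left hA1]
      exact ih'
    · rw [PrP_not]
      have h1 := H.ring z hz m hma (E \ E1) (by
        intro l hl
        refine mem_sdiff.2 ⟨hE n (by omega) hl, ?_⟩
        rw [hE1]
        intro h4
        exact (mem_AL.1 hl).2 (mem_Bx.1 (mem_inter.1 h4).2))
      linarith

/-- **four strands, wall with ties** -/
theorem tie_X3 {c : ℝ} (hc0 : 0 < c) (hc1 : c < 1) : ∃ C α : ℝ, 0 < C ∧ 0 < α ∧
    ∀ (κ h : ℤ) (q : ℤ × ℤ → ℝ) (a0 : ℤ), (κ = 0 ∨ κ = 1) → TD κ h q c a0 → ∀ (z : ℤ × ℤ),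
    ht κ z = h → ∀ (ρ R : ℤ), a0 ≤ ρ → ρ ≤ R → ∀ E : Finset (ℤ × ℤ), AL κ z ρ R ⊆ E →
    PrP q E (X3 κ z ρ R) ≤ C * ((ρ : ℝ) / R) ^ (1 + α) := by
  obtain ⟨C, hC, h2⟩ := tie_X2 hc0
  obtain ⟨α, hα, h4⟩ := pow_le_rpow (δ := 1 - c) (by linarith) (by linarith)
  have h24 : (1 : ℝ) ≤ (24 : ℝ) ^ (1 + α) :=
    Real.one_le_rpow (by norm_num) (by linarith)
  refine ⟨24 ^ (1 + α) * (1 + C * (1 - c)⁻¹), α, ?_, hα,
    fun κ h q a0 hκ H z hz ρ R ha0 hρR E hE => ?_⟩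
  · have : 0 < (1 - c)⁻¹ := inv_pos.2 (by linarith)
    positivity
  have hρ : 1 ≤ ρ := by have := H.a2; omega
  have hinv : 0 < (1 - c)⁻¹ := inv_pos.2 (by linarith)
  have hρ' : (1 : ℝ) ≤ ρ := by exact_mod_cast hρ
  have hR' : (ρ : ℝ) ≤ R := by exact_mod_cast hρR
  have hRpos : (0 : ℝ) < R := by linarith
  have hx0 : 0 < (ρ : ℝ) / R := by positivity
  by_cases hbig : R < 24 * ρ
  · refine (PrP_le_one H.pb _ _).trans ?_
    have h5 : 1 ≤ 24 * ((ρ : ℝ) / R) := by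
      rw [← mul_div_assoc, le_div_iff₀ hRpos]
      have h1 : (R : ℝ) ≤ 24 * ρ := by exact_mod_cast hbig.le
      linarith
    have h6 : 1 ≤ (24 * ((ρ : ℝ) / R)) ^ (1 + α) := Real.one_le_rpow h5 (by linarith)
    rw [Real.mul_rpow (by norm_num) hx0.le] at h6
    have h7 : 0 < ((ρ : ℝ) / R) ^ (1 + α) := Real.rpow_pos_of_pos hx0 _
    have h8 : 0 ≤ C * (1 - c)⁻¹ := by positivity
    calc (1 : ℝ) ≤ 24 ^ (1 + α) * ((ρ : ℝ) / R) ^ (1 + α) * 1 := by rw [mul_one]; exact h6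
      _ ≤ 24 ^ (1 + α) * ((ρ : ℝ) / R) ^ (1 + α) * (1 + C * (1 - c)⁻¹) :=
        mul_le_mul_of_nonneg_left (by linarith) (by positivity)
      _ = _ := by ring
  push Not at hbig
  -- the number of scales
  obtain ⟨n, hn1, hn2⟩ : ∃ n : ℕ, 6 * (4 ^ n * ρ) ≤ R ∧ R < 6 * (4 ^ (n + 1) * ρ) := by
    have hex : ∃ n : ℕ, R < 6 * (4 ^ (n + 1) * ρ) := by
      obtain ⟨n, hn⟩ := pow_unbounded_of_one_lt R (by norm_num : (1 : ℤ) < 4)
      refine ⟨n, ?_⟩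
      have h1 : (4 : ℤ) ^ n ≤ 4 ^ (n + 1) := pow_le_pow_right₀ (by norm_num) (by omega)
      have h2 : (0 : ℤ) < 4 ^ (n + 1) := by positivity
      nlinarith
    classical
    refine ⟨Nat.find hex, ?_, Nat.find_spec hex⟩
    rcases Nat.eq_zero_or_pos (Nat.find hex) with h0 | h0
    · rw [h0]; omega
    · have := Nat.find_min hex (m := Nat.find hex - 1) (by omega)
      push Not at this
      rwa [Nat.sub_add_cancel h0] at this
  have hpow : ∀ j : ℕ, (1 : ℤ) ≤ 4 ^ j := fun j => one_le_pow₀ (by norm_num)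
  have hrho : ∀ j < n + 1, 4 ^ j * (2 * ρ) - 1 ≥ ρ ∧ 3 * (4 ^ j * (2 * ρ)) ≤ R := by
    intro j hj
    have h5 : (4 : ℤ) ^ j ≤ 4 ^ n := pow_le_pow_right₀ (by norm_num) (by omega)
    have h6 : 4 ^ j * ρ ≤ 4 ^ n * ρ := mul_le_mul_of_nonneg_right h5 (by omega)
    have h7 : 4 ^ j * (2 * ρ) = 2 * (4 ^ j * ρ) := by ring
    have h8 : 1 * ρ ≤ 4 ^ j * ρ := mul_le_mul_of_nonneg_right (hpow j) (by omega)
    constructor <;> omega
  have main := X3_le (κ := κ) (z := z) (ρ := ρ) (R := R) H.pb E hκ hρ (by omega)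
    (δ := (1 - c) ^ (n + 1)) (by
      refine le_trans (PrP_mono H.pb fun ω _ h => ?_) (tie_no_rings H hc1.le hz
        (a := 2 * ρ) (by omega) E (n + 1)
        (fun j hj => (AL_mono (hrho j hj).1 (hrho j hj).2 hκ).trans hE))
      intro j hj hRO
      obtain ⟨p, p', q1, q2, q3, q4, q5⟩ := hRO
      exact h ⟨3 * (4 ^ j * (2 * ρ)), p, p', q1, q2, q3, q4, q5.mono (inter_subset_inter_left
        (AL_mono (hrho j hj).1 (hrho j hj).2 hκ))⟩)
  have m2 := h2 κ h q a0 hκ H 1 (Or.inl rfl) z hz ρ R ha0 hρR E hE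
  have hxR : (R : ℝ) / ρ < 4 ^ (n + 1 + 1 + 1) := by
    rw [div_lt_iff₀ (by linarith)]
    have h5 : R < 4 ^ (n + 1 + 1 + 1) * ρ := by
      have h6 : (4 : ℤ) ^ (n + 1 + 1 + 1) * ρ = 16 * (4 ^ (n + 1) * ρ) := by ring
      have h7 : 0 < 4 ^ (n + 1) * ρ := by positivity
      omega
    exact_mod_cast h5
  -- the power
  have h5 := h4 ((R : ℝ) / ρ / 4) (n + 1) (by positivity) (by
    rw [div_lt_iff₀ (by norm_num)]
    calc (R : ℝ) / ρ < 4 ^ (n + 1 + 1 + 1) := hxR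
      _ = 4 ^ (n + 1 + 1) * 4 := by ring)
  have e1 : ((R : ℝ) / ρ / 4) ^ (-α) = 4 ^ α * ((ρ : ℝ) / R) ^ α := by
    rw [Real.rpow_neg (by positivity), ← Real.inv_rpow (by positivity),
      show ((R : ℝ) / ρ / 4)⁻¹ = 4 * (ρ / R) by field_simp,
      Real.mul_rpow (by norm_num) hx0.le]
  rw [e1] at h5
  have e2 : ((ρ : ℝ) / R) ^ (1 + α) = (ρ / R) * (ρ / R) ^ α := by
    rw [Real.rpow_add hx0, Real.rpow_one]
  have hPα : 0 < ((ρ : ℝ) / R) ^ α := Real.rpow_pos_of_pos hx0 _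
  have h4α : (4 : ℝ) ^ α ≤ 24 ^ (1 + α) := by
    calc (4 : ℝ) ^ α ≤ 24 ^ α := Real.rpow_le_rpow (by norm_num) (by norm_num) hα.le
      _ ≤ 24 ^ (1 + α) := Real.rpow_le_rpow_of_exponent_le (by norm_num) (by linarith)
  have hP2 := PrP_nonneg H.pb E (X2 κ z ρ R 1)
  calc PrP q E (X3 κ z ρ R) ≤ (1 - c) ^ (n + 1) * PrP q E (X2 κ z ρ R 1) := main
    _ ≤ ((1 - c)⁻¹ * (4 ^ α * (ρ / R) ^ α)) * (C * ρ / R) :=
      mul_le_mul h5 m2 hP2 (by positivity)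
    _ = 4 ^ α * (C * (1 - c)⁻¹) * ((ρ / R) * (ρ / R) ^ α) := by ring
    _ ≤ 24 ^ (1 + α) * (1 + C * (1 - c)⁻¹) * ((ρ / R) * (ρ / R) ^ α) := by
      apply mul_le_mul_of_nonneg_right _ (by positivity)
      apply mul_le_mul h4α (by linarith) (by positivity) (by positivity)
    _ = _ := by rw [e2]

end Pool.Agent.H60.Q1
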