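import Mathlib
import Pool.Agent.H60.Q1.Tie
import Pool.Agent.H20.Q1.Hole

set_option autoImplicit false
open Finset

/-!
# Walls with ties: the leftmost contact of an untied cluster

`TA κ h x t` : `x` is a vertex of height `h + 1` (the wall has height `h`); its cluster in the box of
radius `t` reaches distance `t`, does not touch the wall (is untied) and has no vertex of height `h + 1`
on the left of `x`. `pT` its probability: `pT ≤ C/t` always and `pT ≤ (C/t) (a0/t)^β` for `t ≥ a0`.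
-/

namespace Pool.Agent.H60.Q1

open Pool.Agent.H75.Perc Pool.Agent.H75.TwoArm Pool.Agent.H75.Four Pool.Agent.H49.Perc
open Pool.Agent.H99.NC
open Pool.Agent.H20.Q1 (last_exit)

/-- labels at height at least `h` in the box -/
noncomputable def TL (κ h : ℤ) (x : ℤ × ℤ) (t : ℤ) : Finset (ℤ × ℤ) :=
  (BR x t).filter (fun l => 2 * h ≤ ht κ l)

/-- `x` is the leftmost contact of an untied cluster which reaches distance `t` -/
def TA (κ h : ℤ) (x : ℤ × ℤ) (t : ℤ) (ω : Finset (ℤ × ℤ)) : Prop :=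
  (∃ v, Far x t v ∧ Co (ω ∩ TL κ h x t) x v) ∧ (∀ y, Co (ω ∩ TL κ h x t) x y → h < ht κ y) ∧
  ∀ y, Co (ω ∩ TL κ h x t) x y → ht κ y = h + 1 → x.1 ≤ y.1

variable {κ h : ℤ} {q : ℤ × ℤ → ℝ} {c : ℝ} {a0 : ℤ} {x : ℤ × ℤ} {t : ℤ} {E ω : Finset (ℤ × ℤ)}

lemma mem_TL {l : ℤ × ℤ} : l ∈ TL κ h x t ↔ l ∈ BR x t ∧ 2 * h ≤ ht κ l := by
  unfold TL; rw [mem_filter]

lemma TL_odd : ∀ e ∈ TL κ h x t, (e.1 + e.2) % 2 = 1 := by
  intro e he
  have := (mem_TL.1 he).1
  unfold BR at this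
  exact (mem_Bx.1 this).2.2

/-- the probability of `TA` -/
noncomputable def pT (κ h : ℤ) (q : ℤ × ℤ → ℝ) (x : ℤ × ℤ) (t : ℤ) : ℝ :=
  PrP q (TL κ h x t) (TA κ h x t)

lemma PrP_TA (hE : TL κ h x t ⊆ E) : PrP q E (TA κ h x t) = pT κ h q x t := by
  unfold pT
  rw [← PrP_restrict q hE]
  refine PrP_congr fun ω _ => ?_
  unfold TA
  rw [inter_assoc, inter_self]

lemma TL_tr (j : ℤ) (e : ℤ × ℤ) :
    e ∈ TL κ h (x + (j, -(κ * j))) t ↔ (syT (j, -(κ * j))).G' e ∈ TL κ h x t := by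
  rw [mem_TL, mem_TL]
  unfold BR ht
  rw [mem_Bx, mem_Bx]
  simp only [syT, Prod.fst_add, Prod.snd_add]
  set m := κ * j with hm
  have e1 : e.2 - 2 * -m + κ * (e.1 - 2 * j) = e.2 + κ * e.1 := by rw [hm]; ring
  rw [e1]
  constructor
  · rintro ⟨h1, h2⟩
    exact ⟨by omega, h2⟩
  · rintro ⟨h1, h2⟩
    exact ⟨by omega, h2⟩

lemma TA_tr (j : ℤ) : TA κ h (x + (j, -(κ * j))) t (ω.map (syT (j, -(κ * j))).G) ↔
    TA κ h x t ω := by
  unfold TA
  rw [(syT (j, -(κ * j))).map_inter ω (TL_tr j)]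
  set v : ℤ × ℤ := (j, -(κ * j)) with hv
  have hg : ∀ u, (syT v).g u = u + v := fun u => rfl
  have hF : ∀ u, Far (x + v) t (u + v) ↔ Far x t u := fun u => by
    unfold Far
    simp only [Prod.fst_add, Prod.snd_add, add_sub_add_right_eq_sub]
  have hh : ∀ u, ht κ (u + v) = ht κ u := fun u => by
    unfold ht
    simp only [hv, Prod.fst_add, Prod.snd_add]
    ring
  have hc : ∀ y, Co ((ω ∩ TL κ h x t).map (syT v).G) (x + v) (y + v) ↔
      Co (ω ∩ TL κ h x t) x y := fun y => by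
    rw [← hg, ← hg, (syT v).co_iff]
  constructor
  · rintro ⟨⟨u, h1, h2⟩, h3, h4⟩
    refine ⟨⟨u - v, ?_, ?_⟩, fun y hy => ?_, fun y hy hy1 => ?_⟩
    · rw [← hF, sub_add_cancel]; exact h1
    · rw [← hc, sub_add_cancel]; exact h2
    · have := h3 (y + v) ((hc y).2 hy)
      rwa [hh] at this
    · have := h4 (y + v) ((hc y).2 hy) (by rw [hh]; exact hy1)
      simp only [Prod.fst_add] at this
      omega
  · rintro ⟨⟨u, h1, h2⟩, h3, h4⟩
    refine ⟨⟨u + v, (hF u).2 h1, (hc u).2 h2⟩, fun y hy => ?_, fun y hy hy1 => ?_⟩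
    · have h5 := h3 (y - v) (by rw [← hc, sub_add_cancel]; exact hy)
      have h6 := hh (y - v)
      rw [sub_add_cancel] at h6
      omega
    · have h6 := hh (y - v)
      rw [sub_add_cancel] at h6
      have h5 := h4 (y - v) (by rw [← hc, sub_add_cancel]; exact hy) (by omega)
      simp only [Prod.fst_sub, Prod.fst_add] at h5 ⊢
      omega

lemma pT_tr (H : TD κ h q c a0) (j : ℤ) : pT κ h q (wp κ x j) t = pT κ h q x t := by
  rw [wp_eq]
  unfold pT
  rw [PrP_tr (H.G j) (E1 := TL κ h x t) (E2 := TL κ h (x + (j, -(κ * j))) t) (TL_tr j)]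
  exact PrP_congr fun ω _ => TA_tr j

/-! ### expected number, with a bound for one occurrence -/

open Classical in
theorem sum_PrP_min {ι α : Type*} [DecidableEq α] {q : α → ℝ} (hq : Pb q) (T : Finset ι)
    (E : Finset α) (A : ι → Finset α → Prop) {r p θ : ℝ} (h0 : 0 < r) (h1 : r < 1) (hp : 0 ≤ p)
    (hθ : 0 < θ) (hθ1 : θ < 1)
    (h : ∀ k : ℕ, PrP q E (fun ω => ∃ t, t ⊆ T ∧ t.card = k ∧ ∀ x ∈ t, A x ω) ≤ r ^ k)
    (hp1 : PrP q E (fun ω => ∃ x ∈ T, A x ω) ≤ p) :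
    ∑ x ∈ T, PrP q E (A x) ≤ p ^ (1 - θ) * (1 / (1 - r ^ θ)) := by
  have e2 : ∀ ω, ∑ x ∈ T, ind (A x ω) =
      ∑ k ∈ range T.card, ind (k + 1 ≤ (T.filter (fun x => A x ω)).card) := by
    intro ω
    have h2 : (T.filter (fun x => A x ω)).card ≤ T.card := card_filter_le _ _
    have h3 : (range T.card).filter (fun k => k + 1 ≤ (T.filter (fun x => A x ω)).card) =
        range (T.filter (fun x => A x ω)).card := by
      ext k
      rw [mem_filter, mem_range, mem_range]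
      omega
    rw [sum_ind, sum_ind]
    congr 1
    conv_lhs => rw [← card_range (T.filter (fun x => A x ω)).card, ← h3]
    congr!
  have e3 : ∑ x ∈ T, PrP q E (A x) = ∑ k ∈ range T.card,
      PrP q E (fun ω => k + 1 ≤ (T.filter (fun x => A x ω)).card) := by
    unfold PrP
    rw [← Ex_sum, ← Ex_sum]
    exact Ex_congr fun ω _ => e2 ω
  rw [e3]
  have hrθ0 : 0 < r ^ θ := Real.rpow_pos_of_pos h0 _
  have hrθ1 : r ^ θ < 1 := Real.rpow_lt_one h0.le h1 hθ
  have h6 : ∀ k ∈ range T.card, PrP q E (fun ω => k + 1 ≤ (T.filter (fun x => A x ω)).card) ≤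
      p ^ (1 - θ) * (r ^ θ) ^ k := by
    intro k _
    set b := PrP q E (fun ω => k + 1 ≤ (T.filter (fun x => A x ω)).card) with hb
    have hb0 : 0 ≤ b := PrP_nonneg hq _ _
    have b1 : b ≤ r ^ (k + 1) := by
      refine le_trans (PrP_mono hq fun ω _ h7 => ?_) (h (k + 1))
      obtain ⟨t, ht1, ht2⟩ := exists_subset_card_eq h7
      exact ⟨t, ht1.trans (filter_subset _ _), ht2, fun x hx => (mem_filter.1 (ht1 hx)).2⟩
    have b2 : b ≤ p := by
      refine le_trans (PrP_mono hq fun ω _ h7 => ?_) hp1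
      have h8 : 0 < (T.filter (fun x => A x ω)).card := by omega
      obtain ⟨x, hx⟩ := card_pos.1 h8
      exact ⟨x, (mem_filter.1 hx).1, (mem_filter.1 hx).2⟩
    have b3 : b ≤ r ^ k := b1.trans (pow_le_pow_of_le_one h0.le h1.le (by omega))
    have e : b = b ^ (1 - θ) * b ^ θ := by
      rw [← Real.rpow_add' hb0 (by norm_num)]
      rw [show 1 - θ + θ = 1 by ring, Real.rpow_one]
    have e' : (r ^ θ) ^ k = (r ^ k) ^ θ := by
      rw [← Real.rpow_natCast, ← Real.rpow_natCast, ← Real.rpow_mul h0.le, ← Real.rpow_mul h0.le,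
        mul_comm]
    rw [e, e']
    exact mul_le_mul (Real.rpow_le_rpow hb0 b2 (by linarith)) (Real.rpow_le_rpow hb0 b3 hθ.le)
      (Real.rpow_nonneg hb0 _) (Real.rpow_nonneg hp _)
  refine (sum_le_sum h6).trans ?_
  rw [← mul_sum]
  refine mul_le_mul_of_nonneg_left ?_ (Real.rpow_nonneg hp _)
  have h9 := mul_neg_geom_sum (r ^ θ) T.card
  have h10 : (0 : ℝ) < 1 - r ^ θ := by linarith
  rw [le_div_iff₀ h10, mul_comm, h9]
  have h11 : (0 : ℝ) ≤ (r ^ θ) ^ T.card := pow_nonneg hrθ0.le _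
  linarith

/-! ### the window -/

/-- the deterministic part: distinct points give distinct clusters -/
lemma TA_arm {m R' : ℤ} (hm : 0 ≤ m) (hmR : m < R') (hR : R' + m ≤ t) {j : ℤ} (hj : 0 ≤ j ∧ j ≤ m)
    (hκ : κ = 0 ∨ κ = 1) (h0 : TA κ h (wp κ x j) t ω) :
    ∃ v, Far x R' v ∧ Co (ω ∩ TL κ h x R') (wp κ x j) v := by
  obtain ⟨⟨v, h1, h2⟩, -⟩ := h0
  have hs : |(wp κ x j).1 - x.1| < R' ∧ |(wp κ x j).2 - x.2| < R' := by
    unfold wp
    simp only [abs_lt]
    rcases hκ with rfl | rfl <;> omega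
  have hv : R' ≤ |v.1 - x.1| ∨ R' ≤ |v.2 - x.2| := by
    unfold Far wp at h1
    simp only [le_abs] at h1 ⊢
    rcases hκ with rfl | rfl <;> omega
  obtain ⟨v', hv', h3⟩ := open_exit h2 hs hv
  refine ⟨v', hv', h3.mono ?_⟩
  intro l hl
  obtain ⟨g1, g2⟩ := mem_inter.1 hl
  obtain ⟨g3, g4⟩ := mem_inter.1 g1
  exact mem_inter.2 ⟨g3, mem_TL.2 ⟨g2, (mem_TL.1 g4).2⟩⟩

lemma TL_sub {m R' : ℤ} (hR : R' + m ≤ t) {j : ℤ} (hj : 0 ≤ j ∧ j ≤ m)
    (hκ : κ = 0 ∨ κ = 1) : TL κ h x R' ⊆ TL κ h (wp κ x j) t := by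
  intro l hl
  rw [mem_TL] at hl ⊢
  refine ⟨?_, hl.2⟩
  have := hl.1
  unfold BR wp at *
  rw [mem_Bx] at this ⊢
  rcases hκ with rfl | rfl <;> omega

lemma TA_sep {m R' : ℤ} (hR : R' + m ≤ t) {i j : ℤ} (hj : 0 ≤ j ∧ j ≤ m)
    (hij : i < j) (hκ : κ = 0 ∨ κ = 1) (hx : ht κ x = h + 1) (h0 : TA κ h (wp κ x j) t ω) :
    ¬ Co (ω ∩ TL κ h x R') (wp κ x i) (wp κ x j) := by
  intro hc
  have h1 := h0.2.2 (wp κ x i) ((hc.mono (inter_subset_inter_left (TL_sub hR hj hκ))).symm)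
    (by rw [ht_wp, hx])
  unfold wp at h1
  simp only at h1
  omega

/-- an untied cluster crosses the half annulus -/
lemma TA_X3 {m ρ R : ℤ} (hm : 0 ≤ m) (hρ : m + 1 ≤ ρ) (hρR : ρ < R) (hR : R + m + 1 ≤ t) {j : ℤ}
    (hj : 0 ≤ j ∧ j ≤ m) (hκ : κ = 0 ∨ κ = 1) (hx : ht κ x = h + 1)
    (h0 : TA κ h (wp κ x j) t ω) : X3 κ (x.1, x.2 - 1) ρ R ω := by
  obtain ⟨⟨v, h1, h2⟩, h3, -⟩ := h0
  set z : ℤ × ℤ := (x.1, x.2 - 1) with hz
  have hzh : ht κ z = h := by
    unfold ht at hx ⊢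
    rw [hz]
    simp only
    linarith
  have hs : |(wp κ x j).1 - z.1| < R ∧ |(wp κ x j).2 - z.2| < R := by
    unfold wp
    simp only [abs_lt, hz]
    rcases hκ with rfl | rfl <;> omega
  have hv : R ≤ |v.1 - z.1| ∨ R ≤ |v.2 - z.2| := by
    unfold Far wp at h1
    simp only [le_abs, hz] at h1 ⊢
    rcases hκ with rfl | rfl <;> omega
  obtain ⟨v', hv', c1⟩ := open_exit h2 hs hv
  obtain ⟨u', hu', c2⟩ := last_exit (w := z) (c := ρ) c1
    (by
      rw [inR_iff]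
      unfold wp
      simp only [hz]
      rcases hκ with rfl | rfl <;> omega)
    (by rw [inR_iff]; rw [le_abs, le_abs] at hv'; omega)
  have hsub : (ω ∩ TL κ h (wp κ x j) t ∩ Bx (z.1 - R) (z.1 + R) (z.2 - R) (z.2 + R)) \ BR z ρ ⊆
      ω ∩ AL κ z ρ R := by
    intro l hl
    obtain ⟨g1, g2⟩ := mem_sdiff.1 hl
    obtain ⟨g3, g4⟩ := mem_inter.1 g1
    obtain ⟨g5, g6⟩ := mem_inter.1 g3
    refine mem_inter.2 ⟨g5, ?_⟩
    unfold AL
    refine mem_sdiff.2 ⟨?_, g2⟩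
    unfold HL
    rw [mem_filter, hzh]
    exact ⟨g4, (mem_TL.1 g6).2⟩
  have hAT : AL κ z ρ R ⊆ TL κ h (wp κ x j) t := by
    intro l hl
    unfold AL at hl
    have g1 := (mem_sdiff.1 hl).1
    unfold HL at g1
    rw [mem_filter, hzh] at g1
    rw [mem_TL]
    refine ⟨?_, g1.2⟩
    have g2 := g1.1
    unfold BR wp
    rw [mem_Bx] at g2 ⊢
    simp only [hz] at g2 ⊢
    rcases hκ with rfl | rfl <;> omega
  have c3 : Co (ω ∩ AL κ z ρ R) u' v' := c2.mono hsub
  have c4 : Co (ω ∩ TL κ h (wp κ x j) t) (wp κ x j) u' :=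
    (c1.mono inter_subset_left).trans
      (c3.mono (inter_subset_inter_left hAT)).symm
  have hno : ∀ s : ℤ, ¬ Cl (Wr κ z ρ R s) (AL κ z ρ R) ω u' := by
    rintro s ⟨w0, g1, g2⟩
    have g3 := h3 w0 (c4.trans (g2.mono (inter_subset_inter_left hAT)).symm)
    have g4 := g1.1.1
    omega
  refine ⟨u', v', ?_, hv', c3, hno 1, hno (-1)⟩
  unfold Near
  rw [inR_iff] at hu'
  rw [abs_le, abs_le]
  omega

/-- the sum over a window: number of clusters -/
theorem TA_count (H : TD κ h q c a0) (hκ : κ = 0 ∨ κ = 1) (hx : ht κ x = h + 1) {m R' : ℤ}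
    (hm : 0 ≤ m) (hmR : m < R') (hR : R' + m ≤ t) {r : ℝ}
    {F : Finset (ℤ × ℤ)} (hr : PrP q F (Arm1 x m R') ≤ r) (k : ℕ) :
    PrP q F (fun ω => ∃ T', T' ⊆ Finset.Icc 0 m ∧ T'.card = k ∧
      ∀ j ∈ T', TA κ h (wp κ x j) t ω) ≤ r ^ k := by
  classical
  refine le_trans (PrP_mono H.pb fun ω _ h3 => ?_) ((PrP_Arms_le H.pb F (Arm1_inc x m R') k).trans
    (pow_le_pow_left₀ (PrP_nonneg H.pb _ _) hr k))
  obtain ⟨T', ht1, ht2, ht3⟩ := h3
  set e := (T'.equivFinOfCardEq ht2).symm with he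
  have hmem : ∀ i : Fin k, 0 ≤ ((e i : T') : ℤ) ∧ ((e i : T') : ℤ) ≤ m := fun i =>
    mem_Icc.1 (ht1 (e i).2)
  refine ⟨fun i => Q1.cmp (ω ∩ TL κ h x R') (wp κ x (e i)),
    fun i => (cmp_sub _ _).trans inter_subset_left, ?_, ?_⟩
  · intro i j hij
    have hne : ((e i : T') : ℤ) ≠ (e j : T') := fun h => hij (e.injective (Subtype.ext h))
    refine cmp_disj ?_
    rcases lt_or_gt_of_ne hne with hlt | hlt
    · exact TA_sep hR (hmem j) hlt hκ hx (ht3 _ (e j).2)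
    · exact fun hc => TA_sep hR (hmem i) hlt hκ hx (ht3 _ (e i).2) hc.symm
  · intro i
    obtain ⟨v, hv1, hv2⟩ := TA_arm hm hmR hR (hmem i) hκ (ht3 _ (e i).2)
    refine ⟨_, v, ?_, ?_, hv1, cmp_co hv2⟩
    · have := hmem i
      unfold wp
      simp only [abs_le]
      omega
    · have := hmem i
      unfold wp
      simp only [abs_le]
      rcases hκ with rfl | rfl <;> omega

/-- the labels of the window -/
noncomputable def TF (κ h : ℤ) (x : ℤ × ℤ) (t m : ℤ) : Finset (ℤ × ℤ) :=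
  (Finset.Icc 0 m).biUnion (fun j => TL κ h (wp κ x j) t)

lemma TF_odd {m : ℤ} : ∀ e ∈ TF κ h x t m, (e.1 + e.2) % 2 = 1 := by
  intro e he
  unfold TF at he
  obtain ⟨j, -, hj⟩ := mem_biUnion.1 he
  exact TL_odd e hj

lemma sum_window (H : TD κ h q c a0) {m : ℤ} (hm : 0 ≤ m) {F : Finset (ℤ × ℤ)}
    (hF : TF κ h x t m ⊆ F) :
    ∑ j ∈ Finset.Icc 0 m, PrP q F (TA κ h (wp κ x j) t) = (m + 1) * pT κ h q x t := by
  have h1 : ∀ j ∈ Finset.Icc 0 m, PrP q F (TA κ h (wp κ x j) t) = pT κ h q x t := by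
    intro j hj
    rw [← pT_tr H j]
    refine PrP_TA (Finset.Subset.trans ?_ hF)
    unfold TF
    exact subset_biUnion_of_mem (fun j => TL κ h (wp κ x j) t) hj
  rw [sum_congr rfl h1, sum_const, nsmul_eq_mul, Int.card_Icc]
  congr 1
  rw [← Int.cast_natCast, Int.toNat_of_nonneg (by omega)]
  push_cast
  ring

lemma pT_nonneg (H : TD κ h q c a0) : 0 ≤ pT κ h q x t := PrP_nonneg H.pb _ _

lemma pT_le_one (H : TD κ h q c a0) : pT κ h q x t ≤ 1 := PrP_le_one H.pb _ _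

/-- **the leftmost contact of an untied cluster** -/
theorem tie_pT {c : ℝ} (hc0 : 0 < c) (hc1 : c < 1) : ∃ C β : ℝ, 0 < C ∧ 0 < β ∧
    ∀ (κ h : ℤ) (q : ℤ × ℤ → ℝ) (a0 : ℤ), (κ = 0 ∨ κ = 1) → TD κ h q c a0 → ∀ (x : ℤ × ℤ),
    ht κ x = h + 1 → (∀ t : ℤ, 1 ≤ t → pT κ h q x t ≤ C / t) ∧
    ∀ t : ℤ, a0 ≤ t → pT κ h q x t ≤ (C / t) * ((a0 : ℝ) / t) ^ β := by
  obtain ⟨δ, hδ0, hδ1, hk⟩ := open_arm_decay
  obtain ⟨C3, α, hC3, hα, hX3⟩ := tie_X3 hc0 hc1
  set r : ℝ := 1 - δ with hr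
  have hr0 : 0 < r := by rw [hr]; linarith
  have hr1 : r < 1 := by rw [hr]; linarith
  set θ : ℝ := α / (2 * (1 + α)) with hθ
  have hθ0 : 0 < θ := by rw [hθ]; positivity
  have hθ1 : θ < 1 := by
    rw [hθ, div_lt_one (by positivity)]
    linarith
  have hθe : (1 + α) * (1 - θ) = 1 + α / 2 := by
    rw [hθ]
    field_simp
    ring
  have hrθ1 : r ^ θ < 1 := Real.rpow_lt_one hr0.le hr1 hθ0
  set C0 : ℝ := r / (1 - r) with hC0
  have hC0p : 0 < C0 := div_pos hr0 (by linarith)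
  set C1 : ℝ := 8 * C0 + 16 with hC1
  have hC1p : 0 < C1 := by positivity
  set C4 : ℝ := C3 ^ (1 - θ) * (1 / (1 - r ^ θ)) with hC4
  have hC4p : 0 < C4 := by
    rw [hC4]
    have : 0 < 1 - r ^ θ := by linarith
    positivity
  have h8 : (1 : ℝ) ≤ 8 ^ (α / 2) := Real.one_le_rpow (by norm_num) (by positivity)
  have h4p : (0 : ℝ) < 4 ^ (1 + α / 2) := by positivity
  refine ⟨C1 * 8 ^ (α / 2) + C4 * 4 ^ (1 + α / 2), α / 2, by positivity, by positivity,
    fun κ h q a0 hκ H x hx => ?_⟩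
  -- first bound
  have first : ∀ t : ℤ, 1 ≤ t → pT κ h q x t ≤ C1 / t := by
    intro t ht
    have htR : (1 : ℝ) ≤ t := by exact_mod_cast ht
    rw [le_div_iff₀ (by linarith)]
    by_cases h16 : t < 16
    · have h1 : (t : ℝ) ≤ 16 := by exact_mod_cast h16.le
      calc pT κ h q x t * t ≤ 1 * 16 := mul_le_mul (pT_le_one H) h1 (by linarith) zero_le_one
        _ ≤ C1 := by rw [hC1]; linarith
    · push Not at h16
      set m := t / 8 with hm
      have hm1 : 1 ≤ m := by omega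
      set F := TF κ h x t m with hF
      have harm : PrP q F (Arm1 x m (t - m)) ≤ r := by
        refine le_trans (PrP_mono H.pb fun ω _ h1 => ?_) (H.arm hk TF_odd x m hm1)
        obtain ⟨u, v, g1, g2, g3, g4⟩ := h1
        exact ⟨u, v, g1, g2, by omega, g4⟩
      have h1 := sum_PrP_le H.pb (Finset.Icc 0 m) F (fun j => TA κ h (wp κ x j) t) hr0.le hr1
        (fun k => TA_count H hκ hx (by omega) (by omega) (by omega) harm k)
      rw [sum_window H (by omega) (Finset.Subset.refl _)] at h1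
      have h2 : (t : ℝ) ≤ 8 * (m + 1) := by exact_mod_cast (by omega : t ≤ 8 * (m + 1))
      calc pT κ h q x t * t ≤ pT κ h q x t * (8 * (m + 1)) :=
            mul_le_mul_of_nonneg_left h2 (pT_nonneg H)
        _ = 8 * ((m + 1) * pT κ h q x t) := by ring
        _ ≤ 8 * C0 := by linarith
        _ ≤ C1 := by rw [hC1]; linarith
  constructor
  · intro t ht
    have htR : (1 : ℝ) ≤ t := by exact_mod_cast ht
    refine (first t ht).trans ?_
    refine div_le_div_of_nonneg_right ?_ (by linarith)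
    have := mul_le_mul_of_nonneg_left h8 hC1p.le
    have h5 : 0 ≤ C4 * 4 ^ (1 + α / 2) := by positivity
    linarith
  · intro t hat0
    have ha2 := H.a2
    have htR : (2 : ℝ) ≤ t := by exact_mod_cast (by omega : 2 ≤ t)
    have haR : (2 : ℝ) ≤ a0 := by exact_mod_cast ha2
    have hat : (a0 : ℝ) ≤ t := by exact_mod_cast hat0
    have hx0 : (0 : ℝ) < (a0 : ℝ) / t := by positivity
    by_cases hbig : t < 8 * a0
    · have h1 : (1 : ℝ) ≤ 8 * ((a0 : ℝ) / t) := by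
        rw [← mul_div_assoc, le_div_iff₀ (by linarith)]
        have : (t : ℝ) ≤ 8 * a0 := by exact_mod_cast hbig.le
        linarith
      have h2 : (1 : ℝ) ≤ (8 * ((a0 : ℝ) / t)) ^ (α / 2) := Real.one_le_rpow h1 (by positivity)
      rw [Real.mul_rpow (by norm_num) hx0.le] at h2
      calc pT κ h q x t ≤ C1 / t := first t (by omega)
        _ ≤ (C1 / t) * (8 ^ (α / 2) * ((a0 : ℝ) / t) ^ (α / 2)) := by
          have : 0 < C1 / t := by positivity
          nlinarith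
        _ = (C1 * 8 ^ (α / 2)) / t * ((a0 : ℝ) / t) ^ (α / 2) := by ring
        _ ≤ _ := by
          refine mul_le_mul_of_nonneg_right ?_ (by positivity)
          refine div_le_div_of_nonneg_right ?_ (by linarith)
          have : 0 ≤ C4 * 4 ^ (1 + α / 2) := by positivity
          linarith
    · push Not at hbig
      set m := a0 with hm
      set ρ := m + 1 with hρ
      set R := t - m - 1 with hR
      set z : ℤ × ℤ := (x.1, x.2 - 1) with hz
      have hzh : ht κ z = h := by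
        unfold ht at hx ⊢
        rw [hz]
        simp only
        linarith
      set F := TF κ h x t m ∪ AL κ z ρ R with hF
      have hFodd : ∀ e ∈ F, (e.1 + e.2) % 2 = 1 := by
        intro e he
        rcases mem_union.1 he with h1 | h1
        · exact TF_odd e h1
        · exact AL_odd e h1
      have harm : PrP q F (Arm1 x m (t - m)) ≤ r := by
        refine le_trans (PrP_mono H.pb fun ω _ h1 => ?_) (H.arm hk hFodd x m (by omega))
        obtain ⟨u, v, g1, g2, g3, g4⟩ := h1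
        exact ⟨u, v, g1, g2, by omega, g4⟩
      have hp1 : PrP q F (fun ω => ∃ j ∈ Finset.Icc 0 m, TA κ h (wp κ x j) t ω) ≤
          C3 * ((ρ : ℝ) / R) ^ (1 + α) := by
        refine le_trans (PrP_mono H.pb fun ω _ h1 => ?_) (hX3 κ h q a0 hκ H z hzh ρ R (by omega)
          (by omega) F subset_union_right)
        obtain ⟨j, hj, h2⟩ := h1
        exact TA_X3 (by omega) le_rfl (by omega) (by omega) (mem_Icc.1 hj) hκ hx h2
      have hρR : (ρ : ℝ) / R ≤ 4 * ((a0 : ℝ) / t) := by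
        have hR0 : (0 : ℝ) < R := by exact_mod_cast (by omega : 0 < R)
        rw [div_le_iff₀ hR0, ← mul_div_assoc, div_mul_eq_mul_div, le_div_iff₀ (by linarith)]
        have g1 : (ρ : ℝ) ≤ 2 * a0 := by exact_mod_cast (by omega : ρ ≤ 2 * a0)
        have g2 : (t : ℝ) ≤ 2 * R := by exact_mod_cast (by omega : t ≤ 2 * R)
        have g3 : (0 : ℝ) ≤ ρ := by exact_mod_cast (by omega : 0 ≤ ρ)
        nlinarith
      have hρ0 : (0 : ℝ) ≤ (ρ : ℝ) / R := by
        apply div_nonneg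
        · exact_mod_cast (by omega : 0 ≤ ρ)
        · exact_mod_cast (by omega : 0 ≤ R)
      have hp2 : C3 * ((ρ : ℝ) / R) ^ (1 + α) ≤ C3 * (4 * ((a0 : ℝ) / t)) ^ (1 + α) :=
        mul_le_mul_of_nonneg_left (Real.rpow_le_rpow hρ0 hρR (by linarith)) hC3.le
      have h1 := sum_PrP_min H.pb (Finset.Icc 0 m) F (fun j => TA κ h (wp κ x j) t) hr0 hr1
        (by positivity : 0 ≤ C3 * (4 * ((a0 : ℝ) / t)) ^ (1 + α)) hθ0 hθ1
        (fun k => TA_count H hκ hx (by omega) (by omega) (by omega) harm k) (hp1.trans hp2)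
      rw [sum_window H (by omega) subset_union_left] at h1
      have e1 : (C3 * (4 * ((a0 : ℝ) / t)) ^ (1 + α)) ^ (1 - θ) * (1 / (1 - r ^ θ)) =
          C4 * (4 ^ (1 + α / 2) * ((a0 : ℝ) / t) ^ (1 + α / 2)) := by
        rw [Real.mul_rpow hC3.le (by positivity), ← Real.rpow_mul (by positivity), hθe,
          Real.mul_rpow (by norm_num) hx0.le, hC4]
        ring
      rw [e1] at h1
      have e2 : ((a0 : ℝ) / t) ^ (1 + α / 2) = (a0 / t) * (a0 / t) ^ (α / 2) := by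
        rw [Real.rpow_add hx0, Real.rpow_one]
      rw [e2] at h1
      have hpt := pT_nonneg (x := x) (t := t) H
      have h2 : (a0 : ℝ) * pT κ h q x t ≤
          C4 * (4 ^ (1 + α / 2) * ((a0 / t) * ((a0 : ℝ) / t) ^ (α / 2))) := by
        refine le_trans ?_ h1
        nlinarith
      have h3 : pT κ h q x t ≤ (C4 * 4 ^ (1 + α / 2)) / t * ((a0 : ℝ) / t) ^ (α / 2) := by
        have g1 : (C4 * (4 ^ (1 + α / 2) * ((a0 / t) * ((a0 : ℝ) / t) ^ (α / 2)))) =
            (a0 : ℝ) * ((C4 * 4 ^ (1 + α / 2)) / t * ((a0 : ℝ) / t) ^ (α / 2)) := by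
          ring
        rw [g1] at h2
        exact le_of_mul_le_mul_left h2 (by linarith)
      refine h3.trans (mul_le_mul_of_nonneg_right ?_ (by positivity))
      refine div_le_div_of_nonneg_right ?_ (by linarith)
      have : 0 < C1 * 8 ^ (α / 2) := by positivity
      linarith

end Pool.Agent.H60.Q1
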