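import Mathlib
import Pool.Agent.H60.Q1.Diag

set_option autoImplicit false
open Finset

/-!
# Two and three arms at a diagonal wall

The domain is `{x + y ≥ const}` near the boundary point `x` (flat walls of the tile frame). The boundary
faces next to `x` are `x + (0,1)` (upper left) and `x + (1,0)` (lower right).

* `diag_two_free` : open arm from `x` and dual arm from one of the two faces: `P ≤ C / n`;
* `diag_three_free` : dual, open, dual: `P ≤ C / n^2`;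
* `diag_two_dual`, `diag_three_dual` : colours exchanged.
-/

namespace Pool.Agent.H60.Q1

open Pool.Agent.H75.Perc Pool.Agent.H75.TwoArm Pool.Agent.H75.Four Pool.Agent.H49.Perc

/-- the half box above the diagonal of `x` -/
noncomputable def DB (x : ℤ × ℤ) (n : ℤ) : Finset (ℤ × ℤ) :=
  DX (x.1 - n) (x.1 + n) (x.2 - n) (x.2 + n) (x.1 + x.2)

/-- open arm in the half box above the diagonal of `x` -/
def GOA (x : ℤ × ℤ) (n : ℤ) (ω : Finset (ℤ × ℤ)) : Prop :=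
  ∃ v : ℤ × ℤ, (n ≤ |v.1 - x.1| ∨ n ≤ |v.2 - x.2|) ∧ Co (ω ∩ DB x n) x v

/-- dual arm from the face `x + s` in the half box above the diagonal of `x` -/
def GDA (x : ℤ × ℤ) (n : ℤ) (s : ℤ × ℤ) (ω : Finset (ℤ × ℤ)) : Prop :=
  ∃ g : ℤ × ℤ, Out (x.1 - n) (x.1 + n) (x.2 - n) (x.2 + n) g ∧ Co (du (DB x n) ω) (x + s) g

/-- two arms at a diagonal wall -/
def GTwo (s : ℤ × ℤ) (x : ℤ × ℤ) (n : ℤ) (ω : Finset (ℤ × ℤ)) : Prop := GOA x n ω ∧ GDA x n s ω

/-- three arms at a diagonal wall -/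
def GThree (x : ℤ × ℤ) (n : ℤ) (ω : Finset (ℤ × ℤ)) : Prop :=
  GOA x n ω ∧ GDA x n (0, 1) ω ∧ GDA x n (1, 0) ω

lemma mem_DB {x : ℤ × ℤ} {n : ℤ} {l : ℤ × ℤ} : l ∈ DB x n ↔
    ((2 * (x.1 - n) ≤ l.1 ∧ l.1 ≤ 2 * (x.1 + n)) ∧ (2 * (x.2 - n) ≤ l.2 ∧ l.2 ≤ 2 * (x.2 + n)) ∧
      (l.1 + l.2) % 2 = 1) ∧ 2 * (x.1 + x.2) + 1 ≤ l.1 + l.2 := by
  unfold DB; rw [mem_DX, mem_Bx]

lemma GTwo_inter {s x : ℤ × ℤ} {n : ℤ} {ω : Finset (ℤ × ℤ)} :
    GTwo s x n (ω ∩ DB x n) ↔ GTwo s x n ω := by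
  unfold GTwo GOA GDA
  rw [inter_assoc, inter_self, du_inter (Subset.refl _)]

lemma GThree_inter {x : ℤ × ℤ} {n : ℤ} {ω : Finset (ℤ × ℤ)} :
    GThree x n (ω ∩ DB x n) ↔ GThree x n ω := by
  unfold GThree GOA GDA
  rw [inter_assoc, inter_self, du_inter (Subset.refl _)]

lemma mem_DB_tr {x t : ℤ × ℤ} {n : ℤ} (e : ℤ × ℤ) :
    e ∈ DB (x + t) n ↔ (syT t).G' e ∈ DB x n := by
  rw [mem_DB, mem_DB]
  unfold syT
  simp only [Prod.fst_add, Prod.snd_add]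
  omega

lemma GOA_tr {x t : ℤ × ℤ} {n : ℤ} {ω : Finset (ℤ × ℤ)} :
    GOA (x + t) n (ω.map (syT t).G) ↔ GOA x n ω := by
  unfold GOA
  rw [(syT t).map_inter ω (E1 := DB x n) (E2 := DB (x + t) n) mem_DB_tr]
  constructor
  · rintro ⟨v, hv, hc⟩
    refine ⟨v - t, ?_, ?_⟩
    · simp only [Prod.fst_add, Prod.snd_add, Prod.fst_sub, Prod.snd_sub] at hv ⊢
      rwa [show v.1 - t.1 - x.1 = v.1 - (x.1 + t.1) by ring,
        show v.2 - t.2 - x.2 = v.2 - (x.2 + t.2) by ring]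
    · rw [← (syT t).co_iff]
      unfold syT at hc ⊢
      simp only at hc ⊢
      rwa [sub_add_cancel]
  · rintro ⟨v, hv, hc⟩
    refine ⟨v + t, ?_, ?_⟩
    · simp only [Prod.fst_add, Prod.snd_add] at hv ⊢
      rwa [show v.1 + t.1 - (x.1 + t.1) = v.1 - x.1 by ring,
        show v.2 + t.2 - (x.2 + t.2) = v.2 - x.2 by ring]
    · rw [← (syT t).co_iff] at hc
      exact hc

lemma GDA_tr {x t s : ℤ × ℤ} {n : ℤ} {ω : Finset (ℤ × ℤ)} :
    GDA (x + t) n s (ω.map (syT t).G) ↔ GDA x n s ω := by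
  unfold GDA
  rw [du_tr (E1 := DB x n) (E2 := DB (x + t) n) mem_DB_tr]
  constructor
  · rintro ⟨v, hv, hc⟩
    refine ⟨v - t, ?_, ?_⟩
    · unfold Out at hv ⊢
      simp only [Prod.fst_add, Prod.snd_add, Prod.fst_sub, Prod.snd_sub] at hv ⊢
      omega
    · rw [← (syT t).co_iff]
      unfold syT at hc ⊢
      simp only at hc ⊢
      rwa [sub_add_cancel, add_right_comm]
  · rintro ⟨v, hv, hc⟩
    refine ⟨v + t, ?_, ?_⟩
    · unfold Out at hv ⊢
      simp only [Prod.fst_add, Prod.snd_add] at hv ⊢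
      omega
    · rw [← (syT t).co_iff] at hc
      have e : (syT t).g (x + s) = x + t + s := by
        unfold syT
        simp only
        rw [add_right_comm]
      rw [e] at hc
      exact hc

/-- the probability does not depend on the point and on the domain -/
lemma Pr_GTwo {s x : ℤ × ℤ} {n : ℤ} {E : Finset (ℤ × ℤ)}
    (h : DB x n ⊆ E) : Pr E (GTwo s x n) = Pr (DB 0 n) (GTwo s 0 n) := by
  rw [Pr_congr (B := fun ω => GTwo s x n (ω ∩ DB x n)) fun ω _ => GTwo_inter.symm,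
    Pr_restrict h]
  have h1 := (syT x).Pr (E1 := DB 0 n) (E2 := DB x n) (fun e => by
    have := mem_DB_tr (x := 0) (t := x) (n := n) e
    rwa [zero_add] at this) (GTwo s x n)
  rw [h1]
  refine Pr_congr fun ω _ => ?_
  unfold GTwo
  have h2 := GOA_tr (x := 0) (t := x) (n := n) (ω := ω)
  have h3 := GDA_tr (s := s) (x := 0) (t := x) (n := n) (ω := ω)
  rw [zero_add] at h2 h3
  rw [h2, h3]

lemma Pr_GThree {x : ℤ × ℤ} {n : ℤ} {E : Finset (ℤ × ℤ)}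
    (h : DB x n ⊆ E) : Pr E (GThree x n) = Pr (DB 0 n) (GThree 0 n) := by
  rw [Pr_congr (B := fun ω => GThree x n (ω ∩ DB x n)) fun ω _ => GThree_inter.symm,
    Pr_restrict h]
  have h1 := (syT x).Pr (E1 := DB 0 n) (E2 := DB x n) (fun e => by
    have := mem_DB_tr (x := 0) (t := x) (n := n) e
    rwa [zero_add] at this) (GThree x n)
  rw [h1]
  refine Pr_congr fun ω _ => ?_
  unfold GThree
  have h2 := GOA_tr (x := 0) (t := x) (n := n) (ω := ω)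
  have h3 := GDA_tr (s := (0, 1)) (x := 0) (t := x) (n := n) (ω := ω)
  have h4 := GDA_tr (s := (1, 0)) (x := 0) (t := x) (n := n) (ω := ω)
  rw [zero_add] at h2 h3 h4
  rw [h2, h3, h4]

lemma DB_odd {x : ℤ × ℤ} {n : ℤ} : ∀ e ∈ DB x n, (e.1 + e.2) % 2 = 1 := fun _ he =>
  (mem_DB.1 he).1.2.2

lemma GDA.box {x s : ℤ × ℤ} {n : ℤ} {ω : Finset (ℤ × ℤ)} (h : GDA x n s ω) {a b c d : ℤ}
    (ha : x.1 - n ≤ a) (hb : b ≤ x.1 + n) (hc : x.2 - n ≤ c) (hd : d ≤ x.2 + n)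
    (hs : ¬ Out a b c d (x + s)) :
    ∃ g, Out a b c d g ∧ Co (du (DX a b c d (x.1 + x.2)) ω) (x + s) g := by
  obtain ⟨g, hg, hco⟩ := h
  have hout : Out a b c d g := by
    unfold Out at hg ⊢
    omega
  obtain ⟨g', h1, h2⟩ := dual_exit (fun e he => DB_odd e he) hco hs hout
  refine ⟨g', h1, h2.mono (du_mono ?_)⟩
  intro l hl
  rw [mem_inter, mem_DB] at hl
  rw [mem_DX]
  exact ⟨hl.2, hl.1.2⟩

lemma GOA.box {x : ℤ × ℤ} {n m : ℤ} {ω : Finset (ℤ × ℤ)} (h : GOA x n ω) (hm : 1 ≤ m)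
    (hmn : 5 * m ≤ n) (hx1 : |x.1| ≤ m) (hx2 : |x.2| ≤ m) :
    ∃ v : ℤ × ℤ, (4 * m ≤ |v.1 - ((0, 0) : ℤ × ℤ).1| ∨ 4 * m ≤ |v.2 - ((0, 0) : ℤ × ℤ).2|) ∧
      Co (ω ∩ DB x n ∩ Bx (-(4 * m)) (4 * m) (-(4 * m)) (4 * m)) x v := by
  obtain ⟨v, hv, hco⟩ := h
  have h1 := open_exit (o := (0, 0)) (M := 4 * m) hco
    (by simp only [sub_zero]; constructor <;> omega)
    (by
      simp only [sub_zero]
      rcases hv with hv | hv
      · left
        have := abs_sub v.1 x.1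
        omega
      · right
        have := abs_sub v.2 x.2
        omega)
  obtain ⟨v', hv', hco'⟩ := h1
  refine ⟨v', hv', hco'.mono ?_⟩
  simp only [zero_sub, zero_add]
  exact subset_rfl

/-- **diagonal wall, two arms**: `P ≤ C / n` -/
theorem diag_two : ∃ C : ℝ, 0 < C ∧ ∀ s : ℤ × ℤ, (s = (0, 1) ∨ s = (1, 0)) →
    ∀ (x : ℤ × ℤ) (n : ℤ), 1 ≤ n →
    ∀ E : Finset (ℤ × ℤ), DB x n ⊆ E → Pr E (GTwo s x n) ≤ C / n := by
  obtain ⟨C, hC, hcount⟩ := count_le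
  refine ⟨5 * C + 5, by positivity, fun s hs x n hn E hE => ?_⟩
  rw [Pr_GTwo hE]
  set p := Pr (DB 0 n) (GTwo s 0 n) with hp
  have hp0 : 0 ≤ p := Pr_nonneg _ _
  have hp1 : p ≤ 1 := Pr_le_one _ _
  have hnR : (1 : ℝ) ≤ n := by exact_mod_cast hn
  rw [le_div_iff₀ (by linarith)]
  by_cases hn5 : n < 5
  · have h5 : (n : ℝ) < 5 := by exact_mod_cast hn5
    nlinarith
  set m := n / 5 with hm
  have hm1 : 1 ≤ m := by omega
  have h5m : 5 * m ≤ n := by omega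
  have h := hcount ℤ (DX (-(n + m)) (n + m) (-(n + m)) (n + m) 0)
    (DX (-(4 * m)) (4 * m) (-(4 * m)) (4 * m) 0)
    (fun e he => (mem_Bx.1 (mem_DX.1 he).1).2.2) (0, 0) m hm1 (Icc (-m) m) (fun t => (t, 0 - t))
    (fun t => GTwo s (t, 0 - t) n)
    (by
      intro t ht
      rw [mem_Icc] at ht
      simp only [sub_zero, zero_sub, abs_neg]
      rw [abs_le]
      exact ⟨ht, ht⟩)
    (by
      intro ω _ t ht h
      rw [mem_Icc] at ht
      obtain ⟨v, hv, hco⟩ := h.1.box hm1 h5m (by simp only; rw [abs_le]; exact ht)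
        (by simp only [zero_sub, abs_neg]; rw [abs_le]; exact ht)
      refine ⟨v, hv, hco.mono ?_⟩
      intro l hl
      rw [mem_inter, mem_inter, mem_DB] at hl
      rw [mem_inter, mem_DX]
      have h1 := hl.1.2.2
      simp only at h1
      refine ⟨hl.1.1, hl.2, ?_⟩
      omega)
    (by
      have key : ∀ ω, ∀ t ∈ Icc (-m) m, ∀ t' ∈ Icc (-m) m, t < t' → GTwo s (t, 0 - t) n ω →
          GTwo s (t', 0 - t') n ω →
          ¬ Co (ω ∩ DX (-(4 * m)) (4 * m) (-(4 * m)) (4 * m) 0) (t, 0 - t) (t', 0 - t') := by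
        intro ω t ht t' ht' htt h h'
        rw [mem_Icc] at ht ht'
        rcases hs with rfl | rfl
        · obtain ⟨g, hg, hd⟩ := h'.2.box (a := -(4 * m)) (b := 4 * m) (c := -(4 * m))
            (d := 4 * m) (by simp only; omega) (by simp only; omega) (by simp only; omega)
            (by simp only; omega) (by unfold Out; simp only [Prod.mk_add_mk]; omega)
          simp only [Prod.mk_add_mk, add_zero] at hd
          rw [show t' + (0 - t') = 0 by ring, show 0 - t' + 1 = 0 + 1 - t' by ring] at hd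
          exact sep_row_diag (by omega) htt le_rfl (by omega) (by omega) (by omega) hg hd
        · obtain ⟨g, hg, hd⟩ := h.2.box (a := -(4 * m)) (b := 4 * m) (c := -(4 * m))
            (d := 4 * m) (by simp only; omega) (by simp only; omega) (by simp only; omega)
            (by simp only; omega) (by unfold Out; simp only [Prod.mk_add_mk]; omega)
          simp only [Prod.mk_add_mk, add_zero] at hd
          rw [show t + (0 - t) = 0 by ring, show 0 - t = 0 + 1 - (t + 1) by ring] at hd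
          exact sep_row_diag (s := t + 1) (by omega) (by omega) (by omega) (by omega) (by omega)
            (by omega) hg hd
      intro ω _ t ht t' ht' hne h h'
      rcases lt_or_gt_of_ne hne with h1 | h1
      · exact key ω t ht t' ht' h1 h h'
      · exact fun hco => key ω t' ht' t ht h1 h' h hco.symm)
  have h2 : ∀ t ∈ Icc (-m) m,
      Pr (DX (-(n + m)) (n + m) (-(n + m)) (n + m) 0) (GTwo s (t, 0 - t) n) = p := by
    intro t ht
    rw [mem_Icc] at ht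
    refine Pr_GTwo ?_
    intro l hl
    rw [mem_DB] at hl
    rw [mem_DX, mem_Bx]
    simp only at hl
    omega
  rw [sum_congr rfl h2, sum_const, Int.card_Icc, nsmul_eq_mul] at h
  have h3 : (((m + 1 - -m).toNat : ℕ) : ℝ) = 2 * m + 1 := by
    have : (((m + 1 - -m).toNat : ℕ) : ℤ) = 2 * m + 1 := by omega
    exact_mod_cast this
  rw [h3] at h
  have h4 : (n : ℝ) ≤ 5 * (2 * m + 1) := by
    have : n ≤ 5 * (2 * m + 1) := by omega
    exact_mod_cast this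
  nlinarith

lemma Pr_notin2 {l l' : ℤ × ℤ} (h : l ≠ l') : Pr {l, l'} (fun ω => l ∉ ω ∧ l' ∉ ω) = 1 / 4 := by
  have h1 := Pr_indep (E := {l, l'}) (E1 := {l}) (E2 := {l'}) (by simp) (by simp)
    (by simpa using h) (fun ω => l ∉ ω) (fun ω => l' ∉ ω)
  rw [Pr_notin, Pr_notin] at h1
  rw [show (1 : ℝ) / 4 = 1 / 2 * (1 / 2) by norm_num, ← h1]
  refine Pr_congr fun ω _ => ?_
  simp only [mem_inter, mem_singleton, and_true]

/-- **diagonal wall, three arms**: `P ≤ C / n^2` -/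
theorem diag_three : ∃ C : ℝ, 0 < C ∧ ∀ (x : ℤ × ℤ) (n : ℤ), 1 ≤ n → ∀ E : Finset (ℤ × ℤ),
    DB x n ⊆ E → Pr E (GThree x n) ≤ C / n ^ 2 := by
  obtain ⟨C, hC, hcount⟩ := count_le
  refine ⟨100 * C + 25, by positivity, fun x n hn E hE => ?_⟩
  rw [Pr_GThree hE]
  set p := Pr (DB 0 n) (GThree 0 n) with hp
  have hp0 : 0 ≤ p := Pr_nonneg _ _
  have hp1 : p ≤ 1 := Pr_le_one _ _
  have hnR : (1 : ℝ) ≤ n := by exact_mod_cast hn
  rw [le_div_iff₀ (by positivity)]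
  by_cases hn5 : n < 5
  · have h5 : (n : ℝ) ≤ 5 := by exact_mod_cast hn5.le
    have h25 : (n : ℝ) ^ 2 ≤ 25 := by nlinarith
    have : p * (n : ℝ) ^ 2 ≤ 1 * 25 := mul_le_mul hp1 h25 (by positivity) (by norm_num)
    linarith
  set m := n / 5 with hm
  have hm1 : 1 ≤ m := by omega
  have h5m : 5 * m ≤ n := by omega
  set G := Bx (-(n + m + 1)) (n + m + 1) (-(n + m + 1)) (n + m + 1) with hG
  have h := hcount (ℤ × ℤ) G (Bx (-(4 * m)) (4 * m) (-(4 * m)) (4 * m))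
    (fun e he => (mem_Bx.1 he).2.2) (0, 0) m hm1 (Icc (-m) m ×ˢ Icc (-m) m) (fun z => z)
    (fun z ω => (((2 * z.1 - 1, 2 * z.2) : ℤ × ℤ) ∉ ω ∧ ((2 * z.1, 2 * z.2 - 1) : ℤ × ℤ) ∉ ω) ∧
      GThree z n ω)
    (by
      intro z hz
      rw [mem_product, mem_Icc, mem_Icc] at hz
      simp only [sub_zero]
      rw [abs_le, abs_le]
      exact hz)
    (by
      intro ω _ z hz h
      rw [mem_product, mem_Icc, mem_Icc] at hz
      obtain ⟨v, hv, hco⟩ := h.2.1.box hm1 h5m (by rw [abs_le]; exact hz.1)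
        (by rw [abs_le]; exact hz.2)
      refine ⟨v, hv, hco.mono ?_⟩
      intro l hl
      rw [mem_inter, mem_inter] at hl
      rw [mem_inter]
      exact ⟨hl.1.1, hl.2⟩)
    (by
      have key : ∀ ω, ∀ z ∈ Icc (-m) m ×ˢ Icc (-m) m, ∀ u ∈ Icc (-m) m ×ˢ Icc (-m) m,
          u.1 + u.2 ≤ z.1 + z.2 → u ≠ z → ((2 * z.1 - 1, 2 * z.2) : ℤ × ℤ) ∉ ω →
          ((2 * z.1, 2 * z.2 - 1) : ℤ × ℤ) ∉ ω → GThree z n ω →
          ¬ Co (ω ∩ Bx (-(4 * m)) (4 * m) (-(4 * m)) (4 * m)) z u := by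
        intro ω z hz u hu huz hne h1 h1' h2
        rw [mem_product, mem_Icc, mem_Icc] at hz hu
        obtain ⟨-, h4, h6⟩ := h2
        obtain ⟨g, hg, hd⟩ := h4.box (a := -(4 * m)) (b := 4 * m) (c := -(4 * m)) (d := 4 * m)
          (by omega) (by omega) (by omega) (by omega)
          (by unfold Out; simp only [Prod.fst_add, Prod.snd_add]; omega)
        obtain ⟨g', hg', hd'⟩ := h6.box (a := -(4 * m)) (b := 4 * m) (c := -(4 * m)) (d := 4 * m)
          (by omega) (by omega) (by omega) (by omega)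
          (by unfold Out; simp only [Prod.fst_add, Prod.snd_add]; omega)
        have e1 : z + ((0, 1) : ℤ × ℤ) = (z.1, z.2 + 1) := by
          refine Prod.ext ?_ ?_ <;> simp
        have e2 : z + ((1, 0) : ℤ × ℤ) = (z.1 + 1, z.2) := by
          refine Prod.ext ?_ ?_ <;> simp
        rw [e1] at hd
        rw [e2] at hd'
        exact sep_cap_diag (by unfold inB; omega) (by unfold inB; omega) huz hne h1 h1' hg hg' hd
          hd'
      intro ω _ z hz u hu hne h h'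
      rcases le_total (u.1 + u.2) (z.1 + z.2) with h1 | h1
      · exact key ω z hz u hu h1 hne.symm h.1.1 h.1.2 h.2
      · exact fun hco => key ω u hu z hz h1 hne h'.1.1 h'.1.2 h'.2 hco.symm)
  have h2 : ∀ z ∈ Icc (-m) m ×ˢ Icc (-m) m,
      Pr G (fun ω => (((2 * z.1 - 1, 2 * z.2) : ℤ × ℤ) ∉ ω ∧ ((2 * z.1, 2 * z.2 - 1) : ℤ × ℤ) ∉ ω) ∧
        GThree z n ω) = 1 / 4 * p := by
    intro z hz
    rw [mem_product, mem_Icc, mem_Icc] at hz
    have h3 : DB z n ⊆ G := by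
      intro l hl
      rw [mem_DB] at hl
      rw [hG, mem_Bx]
      omega
    have h4 : ({(2 * z.1 - 1, 2 * z.2), (2 * z.1, 2 * z.2 - 1)} : Finset (ℤ × ℤ)) ⊆ G := by
      intro l hl
      rw [mem_insert, mem_singleton] at hl
      rw [hG, mem_Bx]
      rcases hl with rfl | rfl <;> simp only <;> omega
    have h5 := Pr_indep h4 h3 (by
      rw [disjoint_left]
      intro l hl hl'
      rw [mem_insert, mem_singleton] at hl
      rw [mem_DB] at hl'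
      rcases hl with rfl | rfl <;> simp only at hl' <;> omega)
      (fun ω => ((2 * z.1 - 1, 2 * z.2) : ℤ × ℤ) ∉ ω ∧ ((2 * z.1, 2 * z.2 - 1) : ℤ × ℤ) ∉ ω)
      (GThree z n)
    rw [Pr_notin2 (by intro h; have := congrArg Prod.fst h; simp only at this; omega),
      Pr_GThree subset_rfl] at h5
    rw [← h5]
    refine Pr_congr fun ω _ => ?_
    rw [GThree_inter, mem_inter, mem_inter]
    simp only [mem_insert, mem_singleton, true_or, or_true, and_true]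
  rw [sum_congr rfl h2, sum_const, card_product, Int.card_Icc, nsmul_eq_mul] at h
  have h3 : ((((m + 1 - -m).toNat * (m + 1 - -m).toNat : ℕ)) : ℝ) = (2 * m + 1) ^ 2 := by
    have : (((m + 1 - -m).toNat : ℕ) : ℤ) = 2 * m + 1 := by omega
    have h4 : (((m + 1 - -m).toNat : ℕ) : ℝ) = 2 * m + 1 := by exact_mod_cast this
    rw [Nat.cast_mul, h4]
    ring
  rw [h3] at h
  have hmR : (1 : ℝ) ≤ m := by exact_mod_cast hm1
  have h4 : (n : ℝ) ≤ 5 * (2 * m + 1) := by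
    have : n ≤ 5 * (2 * m + 1) := by omega
    exact_mod_cast this
  have h5 : (n : ℝ) ^ 2 ≤ 25 * (2 * m + 1) ^ 2 := by nlinarith
  have h6 : p * (n : ℝ) ^ 2 ≤ p * (25 * (2 * m + 1) ^ 2) := mul_le_mul_of_nonneg_left h5 hp0
  nlinarith

/-! ### Natural forms -/

/-- `E` has no labels below the diagonal of `x` in the ball of radius `n` about `x` -/
def AboveD (x : ℤ × ℤ) (n : ℤ) (E : Finset (ℤ × ℤ)) : Prop :=
  ∀ l ∈ E, |l.1 - 2 * x.1| ≤ 2 * n → |l.2 - 2 * x.2| ≤ 2 * n → 2 * (x.1 + x.2) + 1 ≤ l.1 + l.2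

/-- an open path from `x` to distance `n` gives an arm in the half box -/
lemma GOA_of {x : ℤ × ℤ} {n : ℤ} (hn : 1 ≤ n) {ω : Finset (ℤ × ℤ)} (hω : AboveD x n ω) {v : ℤ × ℤ}
    (h : Co ω x v) (hv : n ≤ |v.1 - x.1| ∨ n ≤ |v.2 - x.2|) : GOA x n ω := by
  obtain ⟨v', h1, h2⟩ := open_exit (o := x) (M := n) h (by simp; omega) hv
  refine ⟨v', h1, h2.mono ?_⟩
  intro l hl
  rw [mem_inter, mem_Bx] at hl
  rw [mem_inter, mem_DB]
  exact ⟨hl.1, hl.2, hω l hl.1 (by rw [abs_le]; omega) (by rw [abs_le]; omega)⟩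

/-- a dual path from a boundary face to distance `n` gives a dual arm in the half box -/
lemma GDA_of {x s : ℤ × ℤ} {n : ℤ} {E ω : Finset (ℤ × ℤ)}
    (hodd : ∀ e ∈ E, (e.1 + e.2) % 2 = 1) (hE : AboveD x n E)
    (hs : ¬ Out (x.1 - n) (x.1 + n) (x.2 - n) (x.2 + n) (x + s)) {g : ℤ × ℤ}
    (h : Co (du E ω) (x + s) g) (hg : Out (x.1 - n) (x.1 + n) (x.2 - n) (x.2 + n) g) :
    GDA x n s ω := by
  obtain ⟨g', h1, h2⟩ := dual_exit hodd h hs hg
  refine ⟨g', h1, h2.mono (du_mono ?_)⟩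
  intro l hl
  rw [mem_inter, mem_Bx] at hl
  rw [mem_DB]
  exact ⟨hl.2, hE l hl.1 (by rw [abs_le]; omega) (by rw [abs_le]; omega)⟩

/-- **two arms at a diagonal wall** -/
theorem diag_two_free : ∃ C : ℝ, 0 < C ∧ ∀ s : ℤ × ℤ, (s = (0, 1) ∨ s = (1, 0)) →
    ∀ (x : ℤ × ℤ) (n : ℤ), 1 ≤ n →
    ∀ E : Finset (ℤ × ℤ), (∀ e ∈ E, (e.1 + e.2) % 2 = 1) → DB x n ⊆ E → AboveD x n E →
    Pr E (fun ω => (∃ v : ℤ × ℤ, (n ≤ |v.1 - x.1| ∨ n ≤ |v.2 - x.2|) ∧ Co ω x v) ∧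
      ∃ g, Out (x.1 - n) (x.1 + n) (x.2 - n) (x.2 + n) g ∧ Co (du E ω) (x + s) g) ≤ C / n := by
  obtain ⟨C, hC, h⟩ := diag_two
  refine ⟨C, hC, fun s hs x n hn E hodd hE hA => ?_⟩
  refine (Pr_mono fun ω hω h1 => ?_).trans (h s hs x n hn E hE)
  obtain ⟨⟨v, hv, hco⟩, g, hg, hd⟩ := h1
  refine ⟨GOA_of hn (fun l hl => hA l (hω hl)) hco hv, GDA_of hodd hA ?_ hd hg⟩
  unfold Out
  rcases hs with rfl | rfl <;> simp only [Prod.fst_add, Prod.snd_add] <;> omega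

/-- **three arms at a diagonal wall**: dual, open, dual -/
theorem diag_three_free : ∃ C : ℝ, 0 < C ∧ ∀ (x : ℤ × ℤ) (n : ℤ), 1 ≤ n →
    ∀ E : Finset (ℤ × ℤ), (∀ e ∈ E, (e.1 + e.2) % 2 = 1) → DB x n ⊆ E → AboveD x n E →
    Pr E (fun ω => (∃ v : ℤ × ℤ, (n ≤ |v.1 - x.1| ∨ n ≤ |v.2 - x.2|) ∧ Co ω x v) ∧
      (∃ g, Out (x.1 - n) (x.1 + n) (x.2 - n) (x.2 + n) g ∧ Co (du E ω) (x + (0, 1)) g) ∧
      ∃ g, Out (x.1 - n) (x.1 + n) (x.2 - n) (x.2 + n) g ∧ Co (du E ω) (x + (1, 0)) g) ≤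
      C / n ^ 2 := by
  obtain ⟨C, hC, h⟩ := diag_three
  refine ⟨C, hC, fun x n hn E hodd hE hA => ?_⟩
  refine (Pr_mono fun ω hω h1 => ?_).trans (h x n hn E hE)
  obtain ⟨⟨v, hv, hco⟩, ⟨g, hg, hd⟩, g', hg', hd'⟩ := h1
  refine ⟨GOA_of hn (fun l hl => hA l (hω hl)) hco hv, GDA_of hodd hA ?_ hd hg,
    GDA_of hodd hA ?_ hd' hg'⟩ <;>
  · unfold Out
    simp only [Prod.fst_add, Prod.snd_add]
    omega

/-- **two arms at a diagonal wall**, colours exchanged: `x` is a boundary face, dual arm from `x`, open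
arm from one of the boundary vertices `x - (1,0)`, `x - (0,1)` next to it. -/
theorem diag_two_dual : ∃ C : ℝ, 0 < C ∧ ∀ s : ℤ × ℤ, (s = (0, 1) ∨ s = (1, 0)) →
    ∀ (x : ℤ × ℤ) (n : ℤ), 1 ≤ n →
    ∀ E : Finset (ℤ × ℤ), (∀ e ∈ E, (e.1 + e.2) % 2 = 1) → DB x n ⊆ E.map sh1 →
    AboveD x n (E.map sh1) →
    Pr E (fun ω => (∃ g : ℤ × ℤ, (n ≤ |g.1 - x.1| ∨ n ≤ |g.2 - x.2|) ∧ Co (du E ω) x g) ∧
      ∃ v, Out (x.1 - n) (x.1 + n) (x.2 - n) (x.2 + n) (v + (1, 1)) ∧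
        Co ω (x + s - (1, 1)) v) ≤ C / n := by
  obtain ⟨C, hC, h⟩ := diag_two_free
  refine ⟨C, hC, fun s hs x n hn E hodd hE hA => ?_⟩
  have hodd' : ∀ e ∈ E.map sh1, (e.1 + e.2) % 2 = 1 := by
    intro e he
    rw [mem_map] at he
    obtain ⟨l, hl, rfl⟩ := he
    have := hodd l hl
    simp only [sh1, Function.Embedding.coeFn_mk]
    omega
  have h1 := h s hs x n hn (E.map sh1) hodd' hE hA
  rw [← Pr_du] at h1
  refine (Pr_mono fun ω hω h2 => ?_).trans h1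
  obtain ⟨h3, v, hv, hco⟩ := h2
  refine ⟨h3, v + (1, 1), hv, ?_⟩
  have h4 := co_du_du hω hco
  rwa [sub_add_cancel] at h4

/-- **three arms at a diagonal wall**, colours exchanged: open, dual, open. -/
theorem diag_three_dual : ∃ C : ℝ, 0 < C ∧ ∀ (x : ℤ × ℤ) (n : ℤ), 1 ≤ n →
    ∀ E : Finset (ℤ × ℤ), (∀ e ∈ E, (e.1 + e.2) % 2 = 1) → DB x n ⊆ E.map sh1 →
    AboveD x n (E.map sh1) →
    Pr E (fun ω => (∃ g : ℤ × ℤ, (n ≤ |g.1 - x.1| ∨ n ≤ |g.2 - x.2|) ∧ Co (du E ω) x g) ∧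
      (∃ v, Out (x.1 - n) (x.1 + n) (x.2 - n) (x.2 + n) (v + (1, 1)) ∧
        Co ω (x + (0, 1) - (1, 1)) v) ∧
      ∃ v, Out (x.1 - n) (x.1 + n) (x.2 - n) (x.2 + n) (v + (1, 1)) ∧
        Co ω (x + (1, 0) - (1, 1)) v) ≤ C / n ^ 2 := by
  obtain ⟨C, hC, h⟩ := diag_three_free
  refine ⟨C, hC, fun x n hn E hodd hE hA => ?_⟩
  have hodd' : ∀ e ∈ E.map sh1, (e.1 + e.2) % 2 = 1 := by
    intro e he
    rw [mem_map] at he
    obtain ⟨l, hl, rfl⟩ := he
    have := hodd l hl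
    simp only [sh1, Function.Embedding.coeFn_mk]
    omega
  have h1 := h x n hn (E.map sh1) hodd' hE hA
  rw [← Pr_du] at h1
  refine (Pr_mono fun ω hω h2 => ?_).trans h1
  obtain ⟨h3, ⟨v, hv, hco⟩, v', hv', hco'⟩ := h2
  have h4 := co_du_du hω hco
  have h5 := co_du_du hω hco'
  rw [sub_add_cancel] at h4 h5
  exact ⟨h3, ⟨_, hv, h4⟩, _, hv', h5⟩

end Pool.Agent.H60.Q1
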